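import Mathlib

/-!
# The Jacobian criterion
-/

namespace Pool.Agent.D0H31.GT

open MvPolynomial

section jac

variable {k : Type*} [Field k] {σ ι : Type*}

theorem pderiv_aeval [Fintype ι] (T : ι → MvPolynomial σ k) (i : σ) (p : MvPolynomial ι k) :
    pderiv i (aeval T p) = ∑ l, aeval T (pderiv l p) * pderiv i (T l) := by
  classical
  induction p using MvPolynomial.induction_on with
  | C a => simp
  | add p q hp hq =>
    simp only [map_add, hp, hq, add_mul, Finset.sum_add_distrib]
  | mul_X p j hp =>
    simp only [map_mul, aeval_X, pderiv_mul, hp, map_add, add_mul, Finset.sum_add_distrib,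
      Finset.sum_mul]
    congr 1
    · refine Finset.sum_congr rfl fun l _ => ?_
      ring
    · rw [Finset.sum_eq_single j]
      · rw [pderiv_X_self, map_one, mul_one]
      · intro l _ hl
        rw [pderiv_X_of_ne (Ne.symm hl), map_zero, mul_zero, zero_mul]
      · intro h; exact absurd (Finset.mem_univ j) h

theorem totalDegree_pderiv_le {n : ℕ} {p : MvPolynomial ι k} (hp : p.totalDegree ≤ n + 1)
    (l : ι) : (pderiv l p).totalDegree ≤ n := by
  classical
  refine Finset.sup_le fun m hm => ?_
  rw [MvPolynomial.mem_support_iff, coeff_pderiv] at hm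
  have h1 : m + Finsupp.single l 1 ∈ p.support := by
    rw [MvPolynomial.mem_support_iff]
    intro h
    exact hm (by rw [h, zero_mul])
  have h2 := (le_totalDegree h1).trans hp
  have h3 : (m + Finsupp.single l 1).sum (fun _ e => e) = m.sum (fun _ e => e) + 1 := by
    rw [Finsupp.sum_add_index' (fun _ => rfl) (fun _ _ _ => rfl), Finsupp.sum_single_index rfl]
  omega

theorem eq_C_of_pderiv [CharZero k] {p : MvPolynomial ι k} (h : ∀ l, pderiv l p = 0) :
    p = C (coeff 0 p) := by
  classical
  ext m
  rw [coeff_C]
  split_ifs with h0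
  · rw [← h0]
  · have h1 : ∃ l, m l ≠ 0 := by
      by_contra hcon
      push Not at hcon
      exact h0 (by ext l; simp [hcon l])
    obtain ⟨l, hl⟩ := h1
    have h2 := congrArg (coeff (m - Finsupp.single l 1)) (h l)
    rw [coeff_pderiv, coeff_zero] at h2
    have h3 : m - Finsupp.single l 1 + Finsupp.single l 1 = m := by
      refine tsub_add_cancel_of_le ?_
      rw [Finsupp.single_le_iff]
      omega
    rw [h3] at h2
    rcases mul_eq_zero.mp h2 with h4 | h4
    · exact h4
    · exfalso
      have : (((m - Finsupp.single l 1 : ι →₀ ℕ) l + 1 : ℕ) : k) = 0 := by push_cast; exact h4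
      exact Nat.cast_ne_zero.mpr (by omega) this

theorem algInd_of_jac [CharZero k] [Fintype ι] (T : ι → MvPolynomial σ k) {ι' : Type*}
    (F : Type*) [Field F] [Algebra (MvPolynomial σ k) F]
    (hF : Function.Injective (algebraMap (MvPolynomial σ k) F)) (s : ι' → σ)
    (hJ : LinearIndependent F (fun l : ι => fun x : ι' =>
      algebraMap (MvPolynomial σ k) F (pderiv (s x) (T l)))) :
    AlgebraicIndependent k T := by
  rw [algebraicIndependent_iff]
  have key : ∀ n : ℕ, ∀ p : MvPolynomial ι k, p.totalDegree ≤ n → aeval T p = 0 → p = 0 := by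
    intro n
    induction n with
    | zero =>
      intro p hp h
      have h1 := totalDegree_eq_zero_iff_eq_C.mp (Nat.le_zero.mp hp)
      rw [h1, aeval_C] at h
      have h2 : coeff 0 p = 0 := by
        have : (C (coeff 0 p) : MvPolynomial σ k) = 0 := h
        rwa [C_eq_zero] at this
      rw [h1, h2, C_0]
    | succ n ih =>
      intro p hp h
      have h1 : ∀ l, aeval T (pderiv l p) = 0 := by
        have h2 : ∑ l, algebraMap (MvPolynomial σ k) F (aeval T (pderiv l p)) • (fun x : ι' =>
            algebraMap (MvPolynomial σ k) F (pderiv (s x) (T l))) = 0 := by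
          funext x
          rw [Finset.sum_apply]
          simp only [Pi.smul_apply, smul_eq_mul, Pi.zero_apply]
          have h3 := pderiv_aeval T (s x) p
          rw [h, map_zero] at h3
          simp only [← map_mul]
          rw [← map_sum, ← h3, map_zero]
        have h4 := Fintype.linearIndependent_iff.mp hJ _ h2
        intro l
        exact (map_eq_zero_iff _ hF).mp (h4 l)
      have h5 : ∀ l, pderiv l p = 0 := fun l => ih _ (totalDegree_pderiv_le hp l) (h1 l)
      have h6 := eq_C_of_pderiv h5
      rw [h6, aeval_C] at h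
      have h2 : coeff 0 p = 0 := by
        have : (C (coeff 0 p) : MvPolynomial σ k) = 0 := h
        rwa [C_eq_zero] at this
      rw [h6, h2, C_0]
  intro p h
  exact key _ p le_rfl h

end jac

end Pool.Agent.D0H31.GT
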