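import Pool.Agent.D0H31.GT.Step
import Pool.Agent.D0H31.GT.Jac

/-!
# Algebraic independence of the multipliers
-/

namespace Pool.Agent.D0H31.GT

open Pool.Agent.Helper392_GT Finset

universe u

section der

variable {k : Type u} [Field k] {F : Type u} [Field F] [Algebra (KK k) F] {c : ℕ}

/-- a derivation of the coordinate ring with values in `F` -/
noncomputable def DD (u : Fin c × Fin 2 → F) (w : KK k) : F :=
  ∑ l, u l * algebraMap (KK k) F (MvPolynomial.pderiv ((l.1 : ℕ) + 1, l.2) w)

theorem DD_add (u : Fin c × Fin 2 → F) (a b : KK k) : DD u (a + b) = DD u a + DD u b := by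
  simp only [DD, map_add, mul_add, Finset.sum_add_distrib]

theorem DD_sub (u : Fin c × Fin 2 → F) (a b : KK k) : DD u (a - b) = DD u a - DD u b := by
  simp only [DD, map_sub, mul_sub, Finset.sum_sub_distrib]

theorem DD_sum {α : Type*} (u : Fin c × Fin 2 → F) (s : Finset α) (f : α → KK k) :
    DD u (∑ i ∈ s, f i) = ∑ i ∈ s, DD u (f i) := by
  simp only [DD, map_sum, Finset.mul_sum]
  rw [Finset.sum_comm]

theorem DD_pow (u : Fin c × Fin 2 → F) (w : KK k) (n : ℕ) :
    DD u (w ^ n) = n * algebraMap (KK k) F w ^ (n - 1) * DD u w := by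
  simp only [DD, Finset.mul_sum]
  refine Finset.sum_congr rfl fun l _ => ?_
  rw [MvPolynomial.pderiv_pow, map_mul, map_mul, map_pow, map_natCast]
  ring

theorem DD_X_zero (u : Fin c × Fin 2 → F) (b : Fin 2) :
    DD (k := k) u (MvPolynomial.X (0, b)) = 0 := by
  refine Finset.sum_eq_zero fun l _ => ?_
  rw [MvPolynomial.pderiv_X_of_ne (by
    intro h
    have := congrArg Prod.fst h
    simp at this), map_zero, mul_zero]

theorem DD_X_succ (u : Fin c × Fin 2 → F) (j : Fin c) (b : Fin 2) :
    DD (k := k) u (MvPolynomial.X ((j : ℕ) + 1, b)) = u (j, b) := by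
  rw [DD, Finset.sum_eq_single (j, b)]
  · rw [MvPolynomial.pderiv_X_self, map_one, mul_one]
  · intro l _ hl
    rw [MvPolynomial.pderiv_X_of_ne (by
      intro h
      have h1 := congrArg Prod.fst h
      have h2 := congrArg Prod.snd h
      simp only [add_left_inj] at h1 h2
      exact hl (Prod.ext (Fin.ext h1.symm) h2.symm)), map_zero, mul_zero]
  · intro h; exact absurd (Finset.mem_univ _) h

theorem DD_qn (u : Fin c × Fin 2 → F) (a b : KK k) (m : ℕ) :
    DD u (qn (2 * m + 3) a b) = ((2 * m + 3 : ℕ) : F) *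
      ((algebraMap (KK k) F a + algebraMap (KK k) F b) ^ (2 * m + 2) * (DD u a + DD u b)
        - algebraMap (KK k) F a ^ (2 * m + 2) * DD u a
        - algebraMap (KK k) F b ^ (2 * m + 2) * DD u b) := by
  rw [qn, DD_sub, DD_sub, DD_pow, DD_pow, DD_pow, DD_add, map_add,
    show 2 * m + 3 - 1 = 2 * m + 2 by omega]
  ring

open Polynomial in
/-- the functional on the derivatives of the multipliers of one edge -/
noncomputable def Rf (P : F[X]) (a b da db : F) : F :=
  (a + b) ^ 2 * P.eval ((a + b) ^ 2) * (da + db) - a ^ 2 * P.eval (a ^ 2) * da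
    - b ^ 2 * P.eval (b ^ 2) * db

open Polynomial in
theorem Lam_pow2 (P : F[X]) (w : F) :
    Lam P (fun m => w ^ (2 * m + 2)) = w ^ 2 * P.eval (w ^ 2) := by
  rw [Lam, Polynomial.eval_eq_sum_range, Finset.mul_sum]
  refine Finset.sum_congr rfl fun m _ => ?_
  rw [pow_add, pow_mul]; ring

open Polynomial in
theorem Lam_R (P : F[X]) (a b da db : F) :
    Lam P (fun m => (a + b) ^ (2 * m + 2) * (da + db) - a ^ (2 * m + 2) * da
      - b ^ (2 * m + 2) * db) = Rf P a b da db := by
  rw [Lam_sub, Lam_sub, Lam_mul, Lam_mul, Lam_mul, Lam_pow2, Lam_pow2, Lam_pow2, Rf]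

open Polynomial in
theorem Lam_DTop [CharZero F] (u : Fin c × Fin 2 → F)
    (h : ∀ m : ℕ, DD u (Top (2 * m + 3) c (vv k) 0) = 0) (P : F[X]) :
    ∑ i ∈ range c, Rf P (algebraMap (KK k) F (dX (vv k) i (i + 1)))
        (algebraMap (KK k) F (dY (vv k) i (i + 1))) (DD u (dX (vv k) i (i + 1)))
        (DD u (dY (vv k) i (i + 1))) -
      Rf P (algebraMap (KK k) F (dX (vv k) 0 c)) (algebraMap (KK k) F (dY (vv k) 0 c))
        (DD u (dX (vv k) 0 c)) (DD u (dY (vv k) 0 c)) = 0 := by
  have h1 : ∀ m : ℕ, ∑ i ∈ range c, (fun m : ℕ =>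
      ((algebraMap (KK k) F (dX (vv k) i (i + 1)) + algebraMap (KK k) F (dY (vv k) i (i + 1))) ^ (2 * m + 2) * (DD u (dX (vv k) i (i + 1)) + DD u (dY (vv k) i (i + 1)))
        - algebraMap (KK k) F (dX (vv k) i (i + 1)) ^ (2 * m + 2) * DD u (dX (vv k) i (i + 1))
        - algebraMap (KK k) F (dY (vv k) i (i + 1)) ^ (2 * m + 2) * DD u (dY (vv k) i (i + 1)))) m -
      ((algebraMap (KK k) F (dX (vv k) 0 c) + algebraMap (KK k) F (dY (vv k) 0 c)) ^ (2 * m + 2) * (DD u (dX (vv k) 0 c) + DD u (dY (vv k) 0 c))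
        - algebraMap (KK k) F (dX (vv k) 0 c) ^ (2 * m + 2) * DD u (dX (vv k) 0 c)
        - algebraMap (KK k) F (dY (vv k) 0 c) ^ (2 * m + 2) * DD u (dY (vv k) 0 c)) = 0 := by
    intro m
    have h2 := h m
    rw [Top, DD_sub, DD_sum] at h2
    simp only [DD_qn, zero_add] at h2
    rw [← Finset.mul_sum, ← mul_sub] at h2
    rcases mul_eq_zero.mp h2 with h3 | h3
    · exact absurd h3 (Nat.cast_ne_zero.mpr (by omega))
    · exact h3
  have h2 : Lam P (fun m => ∑ i ∈ range c, (fun m : ℕ =>
      ((algebraMap (KK k) F (dX (vv k) i (i + 1)) + algebraMap (KK k) F (dY (vv k) i (i + 1))) ^ (2 * m + 2) * (DD u (dX (vv k) i (i + 1)) + DD u (dY (vv k) i (i + 1)))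
        - algebraMap (KK k) F (dX (vv k) i (i + 1)) ^ (2 * m + 2) * DD u (dX (vv k) i (i + 1))
        - algebraMap (KK k) F (dY (vv k) i (i + 1)) ^ (2 * m + 2) * DD u (dY (vv k) i (i + 1)))) m -
      ((algebraMap (KK k) F (dX (vv k) 0 c) + algebraMap (KK k) F (dY (vv k) 0 c)) ^ (2 * m + 2) * (DD u (dX (vv k) 0 c) + DD u (dY (vv k) 0 c))
        - algebraMap (KK k) F (dX (vv k) 0 c) ^ (2 * m + 2) * DD u (dX (vv k) 0 c)
        - algebraMap (KK k) F (dY (vv k) 0 c) ^ (2 * m + 2) * DD u (dY (vv k) 0 c))) = 0 := by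
    rw [Lam]
    refine Finset.sum_eq_zero fun m _ => ?_
    rw [h1 m, mul_zero]
  rw [Lam_sub, Lam_sum, Lam_R] at h2
  simp only [Lam_R] at h2
  exact h2

open Polynomial in
theorem Rf_zero (P : (KK k)[X]) (p q : ℕ) (da db : F)
    (h : ∀ t : Fin 3, P.eval (nd t (vv k) p q ^ 2) = 0) :
    Rf (P.map (algebraMap (KK k) F)) (algebraMap (KK k) F (dX (vv k) p q))
      (algebraMap (KK k) F (dY (vv k) p q)) da db = 0 := by
  have h0 := h 0
  have h1 := h 1
  have h2 := h 2
  rw [nd_zero] at h0
  rw [nd_one] at h1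
  rw [nd_two] at h2
  rw [Rf, ← map_add, ← map_pow, ← map_pow, ← map_pow, Polynomial.eval_map_apply,
    Polynomial.eval_map_apply, Polynomial.eval_map_apply, h0, h1, h2]
  simp

open Polynomial in
/-- the edges are constants -/
theorem DD_edge [CharZero F] (hF : Function.Injective (algebraMap (KK k) F)) (hc : 2 ≤ c)
    (u : Fin c × Fin 2 → F)
    (h : ∀ m : ℕ, DD u (Top (2 * m + 3) c (vv k) 0) = 0) (j : ℕ) (hj : j < c) :
    DD u (dX (vv k) j (j + 1)) = 0 ∧ DD u (dY (vv k) j (j + 1)) = 0 := by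
  have main : ∀ (t₀ : Fin 3) (P : (KK k)[X]), (∀ (t : Fin 3) (p q : ℕ), p < q → q < c + 1 →
      (t, p, q) ≠ (t₀, j, j + 1) → P.eval (nd t (vv k) p q ^ 2) = 0) →
      Rf (P.map (algebraMap (KK k) F)) (algebraMap (KK k) F (dX (vv k) j (j + 1)))
        (algebraMap (KK k) F (dY (vv k) j (j + 1))) (DD u (dX (vv k) j (j + 1)))
        (DD u (dY (vv k) j (j + 1))) = 0 := by
    intro t₀ P hP
    have h1 := Lam_DTop u h (P.map (algebraMap (KK k) F))
    rw [Finset.sum_eq_single_of_mem j (Finset.mem_range.mpr hj)] at h1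
    · rw [Rf_zero P 0 c _ _ (fun t => hP t 0 c (by omega) (by omega) (by
        intro h
        have h1 := congrArg (fun z => z.2.1) h
        have h2 := congrArg (fun z => z.2.2) h
        simp only at h1 h2
        omega)), sub_zero] at h1
      exact h1
    · intro i hi hij
      rw [Finset.mem_range] at hi
      exact Rf_zero P i (i + 1) _ _ (fun t => hP t i (i + 1) (by omega) (by omega) (by
        intro h
        have h1 := congrArg (fun z => z.2.1) h
        simp only at h1
        exact hij h1))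
  constructor
  · obtain ⟨P, hP1, hP2⟩ := exists_sep (k := k) (c + 1) 0 (p₀ := j) (q₀ := j + 1) (by omega)
    have h1 := main 0 P hP2
    have e1 := hP2 1 j (j + 1) (by omega) (by omega) (by
      intro h; have := congrArg Prod.fst h; simp at this)
    have e2 := hP2 2 j (j + 1) (by omega) (by omega) (by
      intro h; have := congrArg Prod.fst h; simp at this)
    rw [nd_one] at e1
    rw [nd_two] at e2
    rw [nd_zero] at hP1
    rw [Rf, ← map_add, ← map_pow, ← map_pow, ← map_pow, Polynomial.eval_map_apply,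
      Polynomial.eval_map_apply, Polynomial.eval_map_apply, e1, e2] at h1
    simp only [map_zero, mul_zero, zero_mul, zero_sub, sub_zero, neg_eq_zero] at h1
    have n1 : algebraMap (KK k) F (dX (vv k) j (j + 1)) ^ 2 ≠ 0 :=
      pow_ne_zero 2 ((map_ne_zero_iff _ hF).mpr (nd_ne_zero (k := k) 0 (by omega)))
    have n2 : algebraMap (KK k) F (P.eval (dX (vv k) j (j + 1) ^ 2)) ≠ 0 :=
      (map_ne_zero_iff _ hF).mpr hP1
    rw [map_pow] at h1
    rcases mul_eq_zero.mp h1 with h3 | h3
    · exact absurd h3 (mul_ne_zero n1 n2)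
    · exact h3
  · obtain ⟨P, hP1, hP2⟩ := exists_sep (k := k) (c + 1) 1 (p₀ := j) (q₀ := j + 1) (by omega)
    have h1 := main 1 P hP2
    have e1 := hP2 0 j (j + 1) (by omega) (by omega) (by
      intro h; have := congrArg Prod.fst h; simp at this)
    have e2 := hP2 2 j (j + 1) (by omega) (by omega) (by
      intro h; have := congrArg Prod.fst h; simp at this)
    rw [nd_zero] at e1
    rw [nd_two] at e2
    rw [nd_one] at hP1
    rw [Rf, ← map_add, ← map_pow, ← map_pow, ← map_pow, Polynomial.eval_map_apply,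
      Polynomial.eval_map_apply, Polynomial.eval_map_apply, e1, e2] at h1
    simp only [map_zero, mul_zero, zero_mul, zero_sub, sub_zero, neg_eq_zero] at h1
    have n1 : algebraMap (KK k) F (dY (vv k) j (j + 1)) ^ 2 ≠ 0 :=
      pow_ne_zero 2 ((map_ne_zero_iff _ hF).mpr (nd_ne_zero (k := k) 1 (by omega)))
    have n2 : algebraMap (KK k) F (P.eval (dY (vv k) j (j + 1) ^ 2)) ≠ 0 :=
      (map_ne_zero_iff _ hF).mpr hP1
    rw [map_pow] at h1
    rcases mul_eq_zero.mp h1 with h3 | h3
    · exact absurd h3 (mul_ne_zero n1 n2)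
    · exact h3

theorem u_zero [CharZero F] (hF : Function.Injective (algebraMap (KK k) F)) (hc : 2 ≤ c)
    (u : Fin c × Fin 2 → F)
    (h : ∀ m : ℕ, DD u (Top (2 * m + 3) c (vv k) 0) = 0) : u = 0 := by
  have key : ∀ (b : Fin 2) (j : ℕ), j ≤ c → DD (k := k) u (MvPolynomial.X (j, b)) = 0 := by
    intro b j
    induction j with
    | zero => intro _; exact DD_X_zero u b
    | succ j ih =>
      intro hj
      have h1 := DD_edge hF hc u h j (by omega)
      have h2 := ih (by omega)
      fin_cases b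
      · have h3 := h1.1
        simp only [dX, vv, DD_sub] at h3
        change DD u (MvPolynomial.X (j + 1, 0)) = 0
        change DD u (MvPolynomial.X (j, 0)) = 0 at h2
        rw [h2, zero_sub, neg_eq_zero] at h3
        exact h3
      · have h3 := h1.2
        simp only [dY, vv, DD_sub] at h3
        change DD u (MvPolynomial.X (j + 1, 1)) = 0
        change DD u (MvPolynomial.X (j, 1)) = 0 at h2
        rw [h2, zero_sub, neg_eq_zero] at h3
        exact h3
  funext l
  rw [← DD_X_succ (k := k) u l.1 l.2]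
  exact key l.2 _ (by omega)

/-- `2 c` algebraically independent multipliers -/
theorem exists_algInd [CharZero k] (hc : 2 ≤ c) :
    ∃ a : Fin c × Fin 2 → ℕ,
      AlgebraicIndependent k (fun l => (Top (2 * a l + 3) c (vv k) 0 : KK k)) := by
  classical
  let F := FractionRing (KK k)
  have hF : Function.Injective (algebraMap (KK k) F) := IsFractionRing.injective _ _
  haveI : CharZero F := charZero_of_injective_algebraMap hF
  let J : ℕ → (Fin c × Fin 2 → F) := fun m l =>
    algebraMap (KK k) F (MvPolynomial.pderiv ((l.1 : ℕ) + 1, l.2) (Top (2 * m + 3) c (vv k) 0))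
  have hspan : Submodule.span F (Set.range J) = ⊤ := by
    by_contra hne
    obtain ⟨f, hf0, hf⟩ := Submodule.exists_le_ker_of_lt_top _ (lt_top_iff_ne_top.mpr hne)
    let u : Fin c × Fin 2 → F := fun l => f (Pi.single l 1)
    have hfu : ∀ x : Fin c × Fin 2 → F, f x = ∑ l, u l * x l := by
      intro x
      have h1 := LinearMap.pi_apply_eq_sum_univ f x
      rw [h1]
      refine Finset.sum_congr rfl fun l _ => ?_
      rw [smul_eq_mul, mul_comm]
      congr 2
      funext j
      rw [Pi.single_apply]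
      by_cases hjl : j = l
      · rw [if_pos hjl, if_pos hjl.symm]
      · rw [if_neg hjl, if_neg (Ne.symm hjl)]
    have h0 : u = 0 := by
      refine u_zero (k := k) hF hc u fun m => ?_
      have h2 : f (J m) = 0 := hf (Submodule.subset_span ⟨m, rfl⟩)
      rw [hfu] at h2
      exact h2
    refine hf0 (LinearMap.ext fun x => ?_)
    rw [hfu, h0]
    simp
  obtain ⟨κ, a, ha, hsp, hli⟩ := exists_linearIndependent' F J
  rw [hspan] at hsp
  let B : Module.Basis κ F (Fin c × Fin 2 → F) := Module.Basis.mk hli hsp.ge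
  haveI : Fintype κ := FiniteDimensional.fintypeBasisIndex B
  have hcard : Fintype.card κ = Fintype.card (Fin c × Fin 2) := by
    rw [← Module.finrank_eq_card_basis B, Module.finrank_pi]
  let e : Fin c × Fin 2 ≃ κ := (Fintype.equivOfCardEq hcard).symm
  refine ⟨fun l => a (e l), ?_⟩
  refine algInd_of_jac _ F hF (fun l : Fin c × Fin 2 => ((l.1 : ℕ) + 1, l.2)) ?_
  exact hli.comp e e.injective

end der

end Pool.Agent.D0H31.GT
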