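import Pool.Agent.D0H31.GT.Step
import Pool.Agent.Helper392_GT.Base

/-!
# An element of class two with nonzero symbol
-/

namespace Pool.Agent.D0H31.GT

open Pool.Agent.Helper392_GT Finset

universe u

attribute [local instance 100] LieRing.ofAssociativeRing

section base

variable {k : Type u} [Field k]

/-- three vertices -/
noncomputable def v0 (k : Type u) [Field k] (i : ℕ) : P2 k × P2 k :=
  if i = 0 then (0, 0) else if i = 1 then (-px, 0) else (-px - py, 0)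

theorem E_three {K : Type u} [CommRing K] [Algebra k K] (v : ℕ → K × K) (a b : FA k) :
    E k v (a * b) 0 2 = E k v a 0 0 * E k v b 0 2 + E k v a 0 1 * E k v b 1 2 +
      E k v a 0 2 * E k v b 2 2 := by
  rw [E_mul, Finset.sum_Icc_succ_top (by norm_num), Finset.sum_Icc_succ_top (by norm_num),
    Finset.Icc_self, Finset.sum_singleton]

/-- comparison with the chain representation -/
structure Cmp (M : Matrix (Fin 4) (Fin 4) (P2 k)) (a : FA k) : Prop where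
  z02 : M 0 2 = 0
  z23 : M 2 3 = 0
  e00 : M 0 0 = E k (v0 k) a 0 0
  e11 : M 1 1 = E k (v0 k) a 1 1
  e22 : M 3 3 = E k (v0 k) a 2 2
  e01 : M 0 1 = E k (v0 k) a 0 1
  e12 : M 1 3 = E k (v0 k) a 1 2
  e02 : M 0 3 = E k (v0 k) a 0 2

theorem cmp_subst (u : F2 k) : Cmp (subst k (tA k) (tB k) u) (toAssoc k u) := by
  have hA := mkM_dia (0 : P2 k) (-px) 0 (-px - py) 0 0 0 0 0
  have hB := mkM_dia (0 : P2 k) 0 0 0 1 0 1 0 0
  refine free_ind (fun u => Cmp (subst k (tA k) (tB k) u) (toAssoc k u)) ?_ ?_ ?_ ?_ ?_ ?_ u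
  · rw [map_zero, map_zero]
    constructor <;> simp
  · intro a b h g
    rw [map_add, map_add]
    constructor
    · rw [Matrix.add_apply, h.z02, g.z02, add_zero]
    · rw [Matrix.add_apply, h.z23, g.z23, add_zero]
    · rw [Matrix.add_apply, E_add, h.e00, g.e00]
    · rw [Matrix.add_apply, E_add, h.e11, g.e11]
    · rw [Matrix.add_apply, E_add, h.e22, g.e22]
    · rw [Matrix.add_apply, E_add, h.e01, g.e01]
    · rw [Matrix.add_apply, E_add, h.e12, g.e12]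
    · rw [Matrix.add_apply, E_add, h.e02, g.e02]
  · intro r a h
    rw [map_smul, map_smul]
    constructor
    · rw [Matrix.smul_apply, h.z02, smul_zero]
    · rw [Matrix.smul_apply, h.z23, smul_zero]
    · rw [Matrix.smul_apply, E_smul, h.e00]
    · rw [Matrix.smul_apply, E_smul, h.e11]
    · rw [Matrix.smul_apply, E_smul, h.e22]
    · rw [Matrix.smul_apply, E_smul, h.e01]
    · rw [Matrix.smul_apply, E_smul, h.e12]
    · rw [Matrix.smul_apply, E_smul, h.e02]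
  · intro a b h g
    have dU := dia_subst (k := k) hA hB a
    have dV := dia_subst (k := k) hA hB b
    rw [LieHom.map_lie, toAssoc_lie]
    constructor
    · rw [dU.lie02 dV, h.z02, g.z02]; ring
    · rw [dU.lie23 dV, h.z23, g.z23]; ring
    · rw [dU.lie00 dV, E_sub, E_diag, E_diag]; ring
    · rw [dU.lie11 dV, E_sub, E_diag, E_diag]; ring
    · rw [dU.lie33 dV, E_sub, E_diag, E_diag]; ring
    · rw [dU.lie01 dV, E_sub, E_two, E_two, h.e00, h.e11, h.e01, g.e00, g.e11, g.e01]; ring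
    · rw [dU.lie13 dV, E_sub, E_two, E_two, h.e11, h.e22, h.e12, g.e11, g.e22, g.e12]; ring
    · rw [Dia.lie03, E_sub, E_three, E_three, h.z02, g.z02, h.e00, h.e22, h.e01, h.e12, h.e02,
        g.e00, g.e22, g.e01, g.e12, g.e02]; ring
  · rw [subst_x, toAssoc_x]
    constructor <;> simp [E_x, Ax_apply, v0, tA, mkM]
  · rw [subst_y, toAssoc_y]
    constructor <;> simp [E_y, By_apply, v0, tB, mkM]

theorem alt_ne [CharZero k] : alt (px ^ (2 * 1) * py ^ (2 * 2) : P2 k) ≠ 0 := by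
  intro h
  have h1 := congrArg (ev2 (k := k) (1 : k) (2 : k)) h
  rw [alt_apply] at h1
  simp only [map_add, map_sub, map_mul, map_pow, ev2_px, ev2_py, pz, map_neg, map_zero] at h1
  norm_num at h1

theorem exists_two [CharZero k] {𝔤 : Submodule k (F2 k)} (hgrt : 𝔤 ≤ grtSub k)
    (hbr : IharaClosed 𝔤) (hs : HasSoule 𝔤) :
    ∃ h ∈ 𝔤, h ∈ gamma k 1 ∧ h ∈ wt k 8 ∧ E k (vv k) (toAssoc k h) 0 2 ≠ 0 := by
  have hG : alt (px ^ (2 * 1) * py ^ (2 * 2) : P2 k) ∈ Sph k 8 :=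
    Submodule.subset_span ⟨1, 2, by norm_num, by norm_num, by norm_num, rfl⟩
  obtain ⟨φ, h1, h2, h3, h4⟩ := key_h 𝔤 (fun φ hφ => hgrt hφ)
    (fun σ hσ τ hτ D E a b c d => hbr σ hσ τ hτ D E ⟨a, b⟩ ⟨c, d⟩) hs hG
  have hp := (hgrt h1).pent
  refine ⟨φ, h1, mem_D2_of_depth hp h4, h2, fun h0 => ?_⟩
  have h5 := (cmp_subst φ).e02
  change TT φ = _ at h5
  rw [h3] at h5
  obtain ⟨f, hf⟩ : ∃ f : KK k →ₐ[k] P2 k, f = MvPolynomial.aeval (R := k)
    (fun x : ℕ × Fin 2 => if x.2 = 0 then (v0 k x.1).1 else (v0 k x.1).2) := ⟨_, rfl⟩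
  have h6 : E k (fun l => (f (vv k l).1, f (vv k l).2)) (toAssoc k φ) 0 2 =
    f (E k (vv k) (toAssoc k φ) 0 2) := E_nat f (vv k) (toAssoc k φ) 0 2
  have h7 : (fun l => (f (vv k l).1, f (vv k l).2)) = v0 k := by
    funext l
    rw [hf]
    simp [vv]
  have h8 : f 0 = 0 := map_zero f
  rw [h7, h0, h8] at h6
  rw [h6] at h5
  exact alt_ne h5

theorem hyp_of [CharZero k] {𝔤 : Submodule k (F2 k)} (hgrt : 𝔤 ≤ grtSub k)
    (hbr : IharaClosed 𝔤) (hs : HasSoule 𝔤) : Hyp 𝔤 := by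
  refine ⟨hbr, fun n hn h3 => ?_⟩
  obtain ⟨σ, s1, s2, s3⟩ := hs n hn h3
  obtain ⟨f, f1, f2⟩ := sigma_mult (hgrt s1) h3 s3
  exact ⟨σ, s1, s2, pentagon_mem_D1 (hgrt s1).pent, f, f1, f2⟩

/-- every class contains an element of `𝔤` with nonzero symbol -/
theorem exists_class [CharZero k] {𝔤 : Submodule k (F2 k)} (hgrt : 𝔤 ≤ grtSub k)
    (hbr : IharaClosed 𝔤) (hs : HasSoule 𝔤) (c : ℕ) (hc : 1 ≤ c) :
    ∃ n, ∃ e ∈ 𝔤, e ∈ gamma k c ∧ e ∈ wt k n ∧ E k (vv k) (toAssoc k e) 0 (c + 1) ≠ 0 := by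
  obtain ⟨h, h1, h2, h3, h4⟩ := exists_two hgrt hbr hs
  exact (hyp_of hgrt hbr hs).exists_all h1 h2 h3 h4 c hc

end base

end Pool.Agent.D0H31.GT
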