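import Pool.Agent.H777R4.DM.Cases

/-!
# The class filtration inside the free associative algebra: definitions
-/

namespace Pool.Agent.D0H31.GT

open Pool.Agent.H777R4.DM

attribute [local instance 100] LieRing.ofAssociativeRing

/-- The homogeneous elements of weight `N`: all words have length `N`. -/
noncomputable def homog (N : ℕ) : Submodule ℚ A where
  carrier := {ψ | ∀ u, co ψ u ≠ 0 → u.length = N}
  zero_mem' := fun u hu => absurd (co_zero u) hu
  add_mem' := by
    intro a b ha hb u hu
    by_contra hne
    apply hu
    rw [co_add]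
    have h1 : co a u = 0 := by by_contra h; exact hne (ha u h)
    have h2 : co b u = 0 := by by_contra h; exact hne (hb u h)
    rw [h1, h2, add_zero]
  smul_mem' := by
    intro c a ha u hu
    by_contra hne
    apply hu
    rw [co_smul]
    have h1 : co a u = 0 := by by_contra h; exact hne (ha u h)
    rw [h1, mul_zero]

/-- The commutator subalgebra `L' = [L, L]` of the free Lie algebra `L = Lie(x₀, x₁)` inside
`ℚ⟨x₀, x₁⟩`. -/
noncomputable def derA : Submodule ℚ A :=
  Submodule.span ℚ {z | ∃ a ∈ LieX, ∃ b ∈ LieX, z = a * b - b * a}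

/-- `gamA c` is the term `γ_{c+1}(L')` of the lower central series `γ₁(L') = L'`,
`γ_{j+1}(L') = [L', γ_j(L')]` of `L'`. -/
noncomputable def gamA : ℕ → Submodule ℚ A
  | 0 => derA
  | (c + 1) => Submodule.span ℚ {z | ∃ a ∈ derA, ∃ b ∈ gamA c, z = a * b - b * a}

/-- The dimension of the image of the weight `N` part of `V` modulo `γ_{c+1}(L')`. -/
noncomputable def dimA (c : ℕ) (V : Submodule ℚ A) (N : ℕ) : ℕ :=
  Module.finrank ℚ ((V ⊓ homog N).map (gamA c).mkQ)

/-- Racinet's double shuffle Lie algebra as a subspace of `ℚ⟨x₀, x₁⟩`. -/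
noncomputable def dmSub : Submodule ℚ A where
  carrier := {ψ | IsDM ψ}
  zero_mem' := by
    refine ⟨LieX.zero_mem, co_zero _, co_zero _, co_zero _, 0, ?_, ?_⟩
    · intro v
      rw [co_zero, co_zero]
      unfold corr
      split_ifs
      · rw [co_zero]; ring
      · ring
    · rw [map_zero, map_zero, map_zero, add_zero]
  add_mem' := by
    intro a b ha hb
    have := isDM_sub hb ha (-1)
    rwa [neg_smul, one_smul, sub_neg_eq_add] at this
  smul_mem' := by
    intro c a ha
    have h0 : IsDM (0 : A) := by
      refine ⟨LieX.zero_mem, co_zero _, co_zero _, co_zero _, 0, ?_, ?_⟩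
      · intro v
        rw [co_zero, co_zero]
        unfold corr
        split_ifs
        · rw [co_zero]; ring
        · ring
      · rw [map_zero, map_zero, map_zero, add_zero]
    have := isDM_sub ha h0 (-c)
    rwa [neg_smul, sub_neg_eq_add, zero_add] at this

end Pool.Agent.D0H31.GT
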