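import Pool.Agent.D0H31.GT.Hyp2
import Pool.Agent.D0H31.GT.DMDefs
import Pool.Agent.H217R3.DM.Comp

/-!
# The double shuffle Lie algebra: translation to the free Lie algebra
-/

namespace Pool.Agent.D0H31.GT

open Pool.Agent.Helper392_GT Pool.Agent.H777R4.DM Finset

attribute [local instance 100] LieRing.ofAssociativeRing

section der

theorem wd_cons (i : Fin 2) (u : List (Fin 2)) : (wd (i :: u) : A) = x i * wd u := by
  rw [x, wd_mul]; rfl

theorem derW_append (f : A) (u v : List (Fin 2)) :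
    derW f (u ++ v) = derW f u * wd v + wd u * derW f v := by
  induction u with
  | nil =>
    have : (wd [] : A) = 1 := rfl
    simp [derW, this]
  | cons i u ih =>
    rw [List.cons_append, derW, derW, ih, wd_cons, ← wd_mul]
    noncomm_ring

theorem der_wd (f : A) (u : List (Fin 2)) : der f (wd u) = derW f u := by
  rw [der, lext_wd]

theorem der_mul (f a b : A) : der f (a * b) = der f a * b + a * der f b := by
  induction a using al_induction with
  | h1 u =>
    induction b using al_induction with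
    | h1 v => rw [wd_mul, der_wd, der_wd, der_wd, derW_append]
    | h2 P Q hP hQ => rw [mul_add, map_add, map_add, hP, hQ]; noncomm_ring
    | h3 c P hP => rw [mul_smul_comm, map_smul, map_smul, hP, mul_smul_comm, mul_smul_comm, smul_add]
  | h2 P Q hP hQ => rw [add_mul, map_add, map_add, hP, hQ]; noncomm_ring
  | h3 c P hP => rw [smul_mul_assoc, map_smul, map_smul, hP, smul_mul_assoc, smul_mul_assoc, smul_add]

theorem der_x0 (f : A) : der f (x 0) = 0 := by
  rw [x, der_wd, derW, derW]; simp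

theorem der_x1 (f : A) : der f (x 1) = x 1 * f - f * x 1 := by
  have h : (wd [] : A) = 1 := rfl
  rw [x, der_wd, derW, derW, if_pos rfl, h, mul_one, mul_zero, add_zero]
  rfl

end der

section tA

/-- the translation `u ↦ u(x₀, -x₁)` -/
noncomputable def tA : F2 ℚ →ₗ⁅ℚ⁆ A := subst ℚ (x 0) (-x 1)

theorem tA_x : tA (gx ℚ) = x 0 := by simp [tA, subst]
theorem tA_y : tA (gy ℚ) = -x 1 := by simp [tA, subst]

theorem tA_lie (a b : F2 ℚ) : tA ⁅a, b⁆ = tA a * tA b - tA b * tA a := by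
  rw [LieHom.map_lie, Ring.lie_def]

theorem tA_der {σ : F2 ℚ} (D : LieDerivation ℚ (F2 ℚ) (F2 ℚ)) (hx : D (gx ℚ) = 0)
    (hy : D (gy ℚ) = ⁅gy ℚ, σ⁆) (u : F2 ℚ) : tA (D u) = der (tA σ) (tA u) := by
  refine free_ind (fun u => tA (D u) = der (tA σ) (tA u)) ?_ ?_ ?_ ?_ ?_ ?_ u
  · simp
  · intro a b ha hb
    rw [map_add, map_add, map_add, map_add, ha, hb]
  · intro c a ha
    rw [map_smul, map_smul, map_smul, map_smul, ha]
  · intro a b ha hb
    rw [LieDerivation.apply_lie_eq_sub, map_sub, tA_lie, tA_lie, tA_lie, ha, hb, map_sub, der_mul,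
      der_mul]
    noncomm_ring
  · rw [hx, map_zero, tA_x, der_x0]
  · rw [hy, tA_lie, tA_y, map_neg, der_x1]
    noncomm_ring

theorem tA_ihara {σ τ : F2 ℚ} (D D' : LieDerivation ℚ (F2 ℚ) (F2 ℚ)) (hx : D (gx ℚ) = 0)
    (hy : D (gy ℚ) = ⁅gy ℚ, σ⁆) (hx' : D' (gx ℚ) = 0) (hy' : D' (gy ℚ) = ⁅gy ℚ, τ⁆) :
    tA (⁅σ, τ⁆ + D τ - D' σ) = ihara (tA σ) (tA τ) := by
  rw [map_sub, map_add, tA_lie, tA_der D hx hy, tA_der D' hx' hy', ihara]

/-- back to the free algebra -/
noncomputable def eA : A →ₐ[ℚ] FA ℚ :=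
  MonoidAlgebra.lift ℚ (FA ℚ) (FreeMonoid (Fin 2))
    (FreeMonoid.lift ![FreeAlgebra.ι ℚ 0, -FreeAlgebra.ι ℚ 1])

theorem eA_x (i : Fin 2) : eA (x i) = ![FreeAlgebra.ι ℚ 0, -FreeAlgebra.ι ℚ 1] i := by
  rw [x, wd, eA, MonoidAlgebra.lift_of]
  exact FreeMonoid.lift_eval_of _ i

theorem eA_tA (u : F2 ℚ) : eA (tA u) = toAssoc ℚ u := by
  refine free_ind (fun u => eA (tA u) = toAssoc ℚ u) ?_ ?_ ?_ ?_ ?_ ?_ u
  · simp
  · intro a b ha hb; rw [map_add, map_add, map_add, ha, hb]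
  · intro c a ha; rw [map_smul, map_smul, map_smul, ha]
  · intro a b ha hb; rw [tA_lie, toAssoc_lie, map_sub, map_mul, map_mul, ha, hb]
  · rw [tA_x, toAssoc_x, eA_x]; rfl
  · rw [tA_y, toAssoc_y, map_neg, eA_x]; simp

end tA

section homog

theorem mem_homog {N : ℕ} {ψ : A} : ψ ∈ homog N ↔ ∀ u, co ψ u ≠ 0 → u.length = N := Iff.rfl

theorem comp_of_homog {N : ℕ} {ψ : A} (h : ψ ∈ homog N) (M : ℕ) :
    comp M ψ = if N = M then ψ else 0 := by
  apply al_ext
  intro l
  rw [Pool.Agent.H217R3.DMC.co_comp]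
  split_ifs with h1 h2 h2
  · rfl
  · rw [co_zero]
    by_contra h3
    exact h2 ((h l h3).symm.trans h1)
  · by_contra h3
    exact h1 ((h l (Ne.symm h3)).trans h2)
  · rw [co_zero]

theorem comp_mem_homog (N : ℕ) (ψ : A) : comp N ψ ∈ homog N := by
  intro u hu
  by_contra hne
  rw [Pool.Agent.H217R3.DMC.co_comp, if_neg hne] at hu
  exact hu rfl

theorem wd_homog (u : List (Fin 2)) : (wd u : A) ∈ homog u.length := by
  intro v hv
  rw [co_wd] at hv
  by_contra hne
  rw [if_neg (by rintro rfl; exact hne rfl)] at hv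
  exact hv rfl

theorem homog_span {N : ℕ} {ψ : A} (h : ψ ∈ homog N) :
    ψ ∈ Submodule.span ℚ {P : A | ∃ u : List (Fin 2), u.length = N ∧ P = wd u} := by
  have key : ∀ ψ : A, comp N ψ ∈ Submodule.span ℚ
      {P : A | ∃ u : List (Fin 2), u.length = N ∧ P = wd u} := by
    intro ψ
    induction ψ using al_induction with
    | h1 u =>
      rw [comp_of_homog (wd_homog u)]
      split_ifs with h1
      · exact Submodule.subset_span ⟨u, h1, rfl⟩
      · exact Submodule.zero_mem _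
    | h2 P Q hP hQ => rw [map_add]; exact Submodule.add_mem _ hP hQ
    | h3 c P hP => rw [map_smul]; exact Submodule.smul_mem _ _ hP
  have h2 := key ψ
  rwa [comp_of_homog h, if_pos rfl] at h2

theorem homog_mul {N M : ℕ} {a b : A} (ha : a ∈ homog N) (hb : b ∈ homog M) :
    a * b ∈ homog (N + M) := by
  have h1 := homog_span ha
  have h2 := homog_span hb
  have key : ∀ u : List (Fin 2), u.length = N → wd u * b ∈ homog (N + M) := by
    intro u hu
    clear hb
    induction h2 using Submodule.span_induction with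
    | mem w hw =>
      obtain ⟨v, hv, rfl⟩ := hw
      rw [wd_mul, ← hu, ← hv, ← List.length_append]
      exact wd_homog _
    | zero => rw [mul_zero]; exact Submodule.zero_mem _
    | add a b _ _ ha hb => rw [mul_add]; exact Submodule.add_mem _ ha hb
    | smul c a _ ha => rw [mul_smul_comm]; exact Submodule.smul_mem _ _ ha
  clear ha
  induction h1 using Submodule.span_induction with
  | mem z hz =>
    obtain ⟨u, hu, rfl⟩ := hz
    exact key u hu
  | zero => rw [zero_mul]; exact Submodule.zero_mem _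
  | add a b _ _ ha hb => rw [add_mul]; exact Submodule.add_mem _ ha hb
  | smul c a _ ha => rw [smul_mul_assoc]; exact Submodule.smul_mem _ _ ha

theorem x_homog (i : Fin 2) : x i ∈ homog 1 := wd_homog [i]

theorem tA_wt (N : ℕ) {u : F2 ℚ} (hu : u ∈ wt ℚ N) : tA u ∈ homog N := by
  refine wt_ind (fun N u => tA u ∈ homog N) ?_ ?_ ?_ ?_ ?_ ?_ ?_ N hu
  · intro n; rw [map_zero]; exact Submodule.zero_mem _
  · intro n a b ha hb; rw [map_add]; exact Submodule.add_mem _ ha hb
  · intro n c a ha; rw [map_smul]; exact Submodule.smul_mem _ _ ha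
  · rw [tA_x]; exact x_homog 0
  · rw [tA_y]; exact Submodule.neg_mem _ (x_homog 1)
  · intro n u _ h
    rw [tA_lie, tA_x]
    have h1 := homog_mul (x_homog 0) h
    rw [add_comm] at h1
    exact Submodule.sub_mem _ h1 (homog_mul h (x_homog 0))
  · intro n u _ h
    rw [tA_lie, tA_y]
    have h1 := homog_mul (Submodule.neg_mem _ (x_homog 1)) h
    rw [add_comm] at h1
    exact Submodule.sub_mem _ h1 (homog_mul h (Submodule.neg_mem _ (x_homog 1)))

theorem mem_iSup_wt (u : F2 ℚ) : u ∈ ⨆ n, wt ℚ n := by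
  refine free_ind (fun u => u ∈ ⨆ n, wt ℚ n) (Submodule.zero_mem _)
    (fun a b => Submodule.add_mem _) (fun c a => Submodule.smul_mem _ c) ?_ ?_ ?_ u
  · intro a b ha hb
    refine Submodule.iSup_induction (wt ℚ) (motive := fun a => ⁅a, b⁆ ∈ ⨆ n, wt ℚ n) ha ?_ ?_ ?_
    · intro i a ha
      refine Submodule.iSup_induction (wt ℚ) (motive := fun b => ⁅a, b⁆ ∈ ⨆ n, wt ℚ n) hb ?_ ?_ ?_
      · intro j b hb
        exact Submodule.mem_iSup_of_mem (i + j) (lie_wt ha hb)
      · rw [lie_zero]; exact Submodule.zero_mem _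
      · intro a b ha hb; rw [lie_add]; exact Submodule.add_mem _ ha hb
    · rw [zero_lie]; exact Submodule.zero_mem _
    · intro a b ha hb; rw [add_lie]; exact Submodule.add_mem _ ha hb
  · exact Submodule.mem_iSup_of_mem 1 gx_wt
  · exact Submodule.mem_iSup_of_mem 1 gy_wt

theorem comp_tA (u : F2 ℚ) (N : ℕ) : ∃ w ∈ wt ℚ N, comp N (tA u) = tA w := by
  refine Submodule.iSup_induction (wt ℚ)
    (motive := fun u => ∃ w ∈ wt ℚ N, comp N (tA u) = tA w) (mem_iSup_wt u) ?_ ?_ ?_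
  · intro i a ha
    rw [comp_of_homog (tA_wt i ha)]
    by_cases h : i = N
    · subst h
      exact ⟨a, ha, if_pos rfl⟩
    · exact ⟨0, Submodule.zero_mem _, by rw [if_neg h, map_zero]⟩
  · exact ⟨0, Submodule.zero_mem _, by simp⟩
  · rintro a b ⟨w, h1, h2⟩ ⟨w', g1, g2⟩
    exact ⟨w + w', Submodule.add_mem _ h1 g1, by rw [map_add, map_add, h2, g2, map_add]⟩

theorem tA_mem (u : F2 ℚ) : tA u ∈ LieX := by
  have hx : ∀ i, x i ∈ LieX := by
    intro i
    unfold LieX
    apply LieSubalgebra.subset_lieSpan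
    fin_cases i <;> simp
  refine free_ind (fun u => tA u ∈ LieX) ?_ ?_ ?_ ?_ ?_ ?_ u
  · rw [map_zero]; exact LieX.zero_mem
  · intro a b ha hb; rw [map_add]; exact LieX.add_mem ha hb
  · intro c a ha; rw [map_smul]; exact LieX.smul_mem c ha
  · intro a b ha hb; rw [LieHom.map_lie]; exact LieX.lie_mem ha hb
  · rw [tA_x]; exact hx 0
  · rw [tA_y]; exact LieX.neg_mem (hx 1)

theorem exists_tA {ψ : A} (h : ψ ∈ LieX) : ∃ u, tA u = ψ := by
  have h1 : LieX ≤ tA.range := by
    unfold LieX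
    rw [LieSubalgebra.lieSpan_le]
    rintro y (rfl | hy)
    · exact ⟨gx ℚ, tA_x⟩
    · rw [Set.mem_singleton_iff] at hy
      subst hy
      exact ⟨-gy ℚ, by
        change tA (-gy ℚ) = x 1
        rw [map_neg, tA_y, neg_neg]⟩
  obtain ⟨u, hu⟩ := h1 h
  exact ⟨u, hu⟩

/-- homogeneous Lie elements lift to homogeneous elements -/
theorem exists_wt {ψ : A} {N : ℕ} (h : ψ ∈ LieX) (hN : ψ ∈ homog N) :
    ∃ u ∈ wt ℚ N, tA u = ψ := by
  obtain ⟨u, hu⟩ := exists_tA h
  obtain ⟨w, hw, h2⟩ := comp_tA u N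
  rw [hu, comp_of_homog hN, if_pos rfl] at h2
  exact ⟨w, hw, h2.symm⟩

theorem wt_D1 {n : ℕ} (hn : 2 ≤ n) {u : F2 ℚ} (hu : u ∈ wt ℚ n) : u ∈ D1 ℚ := by
  obtain ⟨m, rfl⟩ : ∃ m, n = m + 2 := ⟨n - 2, by omega⟩
  change u ∈ Submodule.span ℚ _ at hu
  induction hu using Submodule.span_induction with
  | mem z hz =>
    obtain ⟨w, _, rfl | rfl⟩ := hz
    · exact mem_D1 _ _
    · exact mem_D1 _ _
  | zero => exact (D1 ℚ).zero_mem
  | add a b _ _ ha hb => exact (D1 ℚ).add_mem ha hb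
  | smul c a _ ha => exact (D1 ℚ).smul_mem _ ha

end homog

end Pool.Agent.D0H31.GT
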