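import Pool.Agent.D0H31.GT.DMa

/-!
# The double shuffle Lie algebra: the action at level one
-/

namespace Pool.Agent.D0H31.GT

open Pool.Agent.Helper392_GT Pool.Agent.H777R4.DM Finset

attribute [local instance 100] LieRing.ofAssociativeRing

section chi

variable {K : Type} [CommRing K] [Algebra ℚ K]

/-- the character of `ℚ⟨Y⟩` with given values on the letters -/
noncomputable def ch (f : ℕ → K) : AY →ₐ[ℚ] K :=
  MonoidAlgebra.lift ℚ K (FreeMonoid ℕ) (FreeMonoid.lift f)

/-- the character of `ℚ⟨Y⟩ ⊗ ℚ⟨Y⟩` -/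
noncomputable def ch2 (f g : ℕ → K) : AYY →ₐ[ℚ] K :=
  MonoidAlgebra.lift ℚ K (FreeMonoid ℕ × FreeMonoid ℕ)
    ((FreeMonoid.lift f).coprod (FreeMonoid.lift g))

theorem ch_wd (f : ℕ → K) (v : List ℕ) : ch f (wd v) = (v.map f).prod := by
  rw [ch, wd, MonoidAlgebra.lift_of]
  exact FreeMonoid.lift_apply f _

theorem ch_letter (f : ℕ → K) (i : ℕ) : ch f (wd [i]) = f i := by
  rw [ch_wd]; simp

theorem ch2_inl (f g : ℕ → K) (P : AY) : ch2 f g (inl P) = ch f P := by
  have h : (ch2 f g).comp inl = ch f := by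
    apply MonoidAlgebra.algHom_ext
    · intro m
      simp only [AlgHom.comp_apply, inl, ch2, ch]
      rw [MonoidAlgebra.mapDomainAlgHom_apply, MonoidAlgebra.mapDomain_single,
        MonoidAlgebra.lift_single, MonoidAlgebra.lift_single]
      simp
    · ext
  exact congrArg (fun F : AY →ₐ[ℚ] K => F P) h

theorem ch2_inr (f g : ℕ → K) (P : AY) : ch2 f g (inr P) = ch g P := by
  have h : (ch2 f g).comp inr = ch g := by
    apply MonoidAlgebra.algHom_ext
    · intro m
      simp only [AlgHom.comp_apply, inr, ch2, ch]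
      rw [MonoidAlgebra.mapDomainAlgHom_apply, MonoidAlgebra.mapDomain_single,
        MonoidAlgebra.lift_single, MonoidAlgebra.lift_single]
      simp
    · ext
  exact congrArg (fun F : AY →ₐ[ℚ] K => F P) h

theorem ch2_star {f g h : ℕ → K}
    (hh : ∀ i, h i = f i + g i + ∑ j ∈ range i, f j * g (i - 1 - j)) (P : AY) :
    ch2 f g (starΔ P) = ch h P := by
  have h1 : (ch2 f g).comp starΔ = ch h := by
    apply MonoidAlgebra.algHom_ext'
    · apply FreeMonoid.hom_eq
      intro i
      change ch2 f g (starΔ (wd [i])) = ch h (wd [i])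
      have h2 : starΔ (wd [i]) = Pool.Agent.H777R4.DM.starL i := by
        rw [starΔ, wd, MonoidAlgebra.lift_of]
        exact FreeMonoid.lift_eval_of _ i
      rw [h2, Pool.Agent.H777R4.DM.starL, map_add, map_add, map_sum, ch2_inl, ch2_inr, ch_letter,
        ch_letter, ch_letter, hh]
      congr 1
      refine Finset.sum_congr rfl fun j _ => ?_
      rw [map_mul, ch2_inl, ch2_inr, ch_letter, ch_letter]
    · ext
  exact congrArg (fun F : AY →ₐ[ℚ] K => F P) h1

/-- the letters `y_{i+1} ↦ a^i b` -/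
def lt (a b : K) (i : ℕ) : K := a ^ i * b

theorem lt_comp (a b c : K) (i : ℕ) : lt c (c - a) i =
    lt b (b - a) i + lt c (c - b) i + ∑ j ∈ range i, lt b (b - a) j * lt c (c - b) (i - 1 - j) := by
  have h1 : (∑ j ∈ range i, b ^ j * c ^ (i - 1 - j)) * (b - c) = b ^ i - c ^ i :=
    geom_sum₂_mul b c i
  have h2 : ∑ j ∈ range i, lt b (b - a) j * lt c (c - b) (i - 1 - j) =
      (b - a) * (c - b) * ∑ j ∈ range i, b ^ j * c ^ (i - 1 - j) := by
    rw [Finset.mul_sum]
    refine Finset.sum_congr rfl fun j _ => ?_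
    simp only [lt]; ring
  rw [h2]
  simp only [lt]
  linear_combination (b - a) * h1

theorem ch_homog {P : AY} {n : ℕ} (hP : ∀ v, co P v ≠ 0 → v.sum + v.length = n) (b : K) :
    ch (lt b b) P = b ^ n * ch (lt 1 1) P := by
  have h1 := MonoidAlgebra.mem_span_support_coeff P
  have key : ∀ P : AY, P ∈ Submodule.span ℚ {Q : AY | ∃ v : List ℕ, v.sum + v.length = n ∧
      Q = wd v} → ch (lt b b) P = b ^ n * ch (lt 1 1) P := by
    intro P hP
    induction hP using Submodule.span_induction with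
    | mem z hz =>
      obtain ⟨v, hv, rfl⟩ := hz
      rw [ch_wd, ch_wd, ← hv]
      clear hv
      induction v with
      | nil => simp
      | cons a v ih =>
        rw [List.map_cons, List.prod_cons, ih, List.map_cons, List.prod_cons, List.sum_cons,
          List.length_cons]
        simp only [lt, one_pow, one_mul]
        ring
    | zero => simp
    | add p q _ _ hp hq => rw [map_add, map_add, hp, hq]; ring
    | smul c p _ hp =>
      rw [map_smul, map_smul, hp, mul_smul_comm]
  apply key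
  refine Submodule.span_mono ?_ h1
  rintro _ ⟨m, hm, rfl⟩
  refine ⟨FreeMonoid.toList m, ?_, rfl⟩
  apply hP
  exact Finsupp.mem_support_iff.mp hm

/-- the value of a primitive element at a character -/
theorem ch_prim {P : AY} {n : ℕ} (hP : ∀ v, co P v ≠ 0 → v.sum + v.length = n)
    (hn : n ≠ 0) (hstar : starΔ P = inl P + inr P) (a b : K) :
    ch (lt a b) P = (a ^ n - (a - b) ^ n) * ch (lt 1 1) P := by
  have h1 := ch2_star (K := K) (f := lt (a - b) (a - b - 0)) (g := lt a (a - (a - b)))
    (h := lt a (a - 0)) (fun i => lt_comp 0 (a - b) a i) P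
  rw [hstar, map_add, ch2_inl, ch2_inr] at h1
  simp only [sub_zero, sub_sub_cancel] at h1
  rw [ch_homog hP (a - b), ch_homog hP a] at h1
  linear_combination h1

end chi

section link

variable {K : Type} [CommRing K] [Algebra ℚ K]

/-- two vertices, the second one at the origin -/
def v1 (a b : K) (i : ℕ) : K × K := if i = 0 then (a, b) else (0, 0)

theorem E_word (a b : K) (u : List (Fin 2)) :
    E ℚ (v1 a b) (eA (wd u)) 1 1 = (if u = [] then 1 else 0) ∧
    b * E ℚ (v1 a b) (eA (wd u)) 0 1 =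
      ch (lt a (-b)) (run 0 (wd u)) - (if u = [] then 1 else 0) := by
  induction u with
  | nil =>
    have h0 : (wd [] : A) = 1 := rfl
    have h1 : run 0 (wd ([] : List (Fin 2))) = (1 : AY) := by
      rw [run, lext_wd, strip_nil]; rfl
    rw [h1, h0, map_one eA, map_one (E ℚ (v1 a b)), map_one (ch (lt a (-b)))]
    simp [IncidenceAlgebra.one_apply]
  | cons i u ih =>
    obtain ⟨ih1, ih2⟩ := ih
    rw [wd_cons, map_mul, E_diag, if_neg (List.cons_ne_nil i u)]
    have hdec : E ℚ (v1 a b) (eA (x i) * eA (wd u)) 0 1 =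
        E ℚ (v1 a b) (eA (x i)) 0 0 * E ℚ (v1 a b) (eA (wd u)) 0 1 +
        E ℚ (v1 a b) (eA (x i)) 0 1 * E ℚ (v1 a b) (eA (wd u)) 1 1 := E_two _ _ _ 0
    rw [hdec, ih1, ← wd_cons]
    have hi : i = 0 ∨ i = 1 := by omega
    rcases hi with rfl | rfl
    · have e00 : E ℚ (v1 a b) (eA (x 0)) 0 0 = a := by
        rw [eA_x]
        change E ℚ (v1 a b) (FreeAlgebra.ι ℚ 0) 0 0 = a
        rw [E_x, Ax_apply]; simp [v1]
      have e01 : E ℚ (v1 a b) (eA (x 0)) 0 1 = 0 := by
        rw [eA_x]
        change E ℚ (v1 a b) (FreeAlgebra.ι ℚ 0) 0 1 = 0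
        rw [E_x, Ax_apply]; simp
      have e11 : E ℚ (v1 a b) (eA (x 0)) 1 1 = 0 := by
        rw [eA_x]
        change E ℚ (v1 a b) (FreeAlgebra.ι ℚ 0) 1 1 = 0
        rw [E_x, Ax_apply]; simp [v1]
      rw [e00, e01, e11]
      have hrun : ch (lt a (-b)) (run 0 (wd (0 :: u))) =
          a * (ch (lt a (-b)) (run 0 (wd u)) - (if u = [] then 1 else 0)) := by
        rw [run, lext_wd, lext_wd]
        rcases h : (strip u).1 with _ | ⟨c, l⟩
        · have h1 : strip (0 :: u) = ([], (strip u).2 + 1) := by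
            simp only [strip, zero_ne_one, if_false, h]
          have h2 := wordX_strip u
          rw [h] at h2
          simp only [wordX, List.nil_append] at h2
          rw [h1, if_neg (by simp)]
          by_cases hu : u = []
          · subst hu
            rw [strip_nil, if_pos rfl, if_pos rfl]
            have : (wd ([] : List ℕ) : AY) = 1 := rfl
            simp [this]
          · have h3 : (strip u).2 ≠ 0 := by
              intro h4
              rw [h4] at h2
              exact hu (by simpa using h2.symm)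
            rw [if_neg h3, if_neg hu, map_zero, sub_zero, mul_zero]
        · have h1 : strip (0 :: u) = ((c + 1) :: l, (strip u).2) := by
            simp only [strip, zero_ne_one, if_false, h]
          have hu : u ≠ [] := by
            rintro rfl
            rw [strip_nil] at h
            exact absurd h (by simp)
          rw [h1, if_neg hu, sub_zero]
          simp only
          by_cases h4 : (strip u).2 = 0
          · rw [if_pos h4, if_pos h4, ch_wd, ch_wd]
            simp only [List.map_cons, List.prod_cons, lt]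
            ring
          · rw [if_neg h4, if_neg h4, map_zero, mul_zero]
      rw [hrun]
      refine ⟨by ring, ?_⟩
      linear_combination a * ih2
    · have e00 : E ℚ (v1 a b) (eA (x 1)) 0 0 = -b := by
        rw [eA_x]
        change E ℚ (v1 a b) (-FreeAlgebra.ι ℚ 1) 0 0 = -b
        rw [map_neg, IncidenceAlgebra.neg_apply, E_y, By_apply]; simp [v1]
      have e01 : E ℚ (v1 a b) (eA (x 1)) 0 1 = -1 := by
        rw [eA_x]
        change E ℚ (v1 a b) (-FreeAlgebra.ι ℚ 1) 0 1 = -1
        rw [map_neg, IncidenceAlgebra.neg_apply, E_y, By_apply]; simp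
      have e11 : E ℚ (v1 a b) (eA (x 1)) 1 1 = 0 := by
        rw [eA_x]
        change E ℚ (v1 a b) (-FreeAlgebra.ι ℚ 1) 1 1 = 0
        rw [map_neg, IncidenceAlgebra.neg_apply, E_y, By_apply]; simp [v1]
      rw [e00, e01, e11]
      have hrun : ch (lt a (-b)) (run 0 (wd (1 :: u))) =
          -b * ch (lt a (-b)) (run 0 (wd u)) := by
        rw [run, lext_wd, lext_wd]
        have h1 : strip (1 :: u) = (0 :: (strip u).1, (strip u).2) := by simp [strip]
        rw [h1]
        simp only
        by_cases h4 : (strip u).2 = 0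
        · rw [if_pos h4, if_pos h4, ch_wd, ch_wd]
          simp only [List.map_cons, List.prod_cons, lt]
          ring
        · rw [if_neg h4, if_neg h4, map_zero, mul_zero]
      rw [hrun]
      refine ⟨by ring, ?_⟩
      linear_combination (-b) * ih2

theorem E_link (a b : K) (ψ : A) (h0 : co ψ [] = 0) :
    b * E ℚ (v1 a b) (eA ψ) 0 1 = ch (lt a (-b)) (run 0 ψ) := by
  have key : ∀ ψ : A, b * E ℚ (v1 a b) (eA ψ) 0 1 =
      ch (lt a (-b)) (run 0 ψ) - algebraMap ℚ K (co ψ []) := by
    intro ψ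
    induction ψ using al_induction with
    | h1 u =>
      rw [(E_word a b u).2, co_wd]
      by_cases hu : u = []
      · rw [if_pos hu, if_pos hu, map_one]
      · rw [if_neg hu, if_neg hu, map_zero]
    | h2 P Q hP hQ =>
      rw [map_add, E_add, map_add, map_add, co_add, map_add, mul_add, hP, hQ]; ring
    | h3 c P hP =>
      rw [map_smul, E_smul, map_smul, map_smul, co_smul, map_mul, mul_smul_comm, hP, smul_sub,
        Algebra.smul_def c (algebraMap ℚ K (co P []))]
  rw [key, h0, map_zero, sub_zero]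

end link

section dm

theorem wordX_ne_nil {v : List ℕ} (h : wordX v = []) : v = [] := by
  rcases v with _ | ⟨a, v⟩
  · rfl
  · simp [wordX] at h

/-- the level one part of an element of `dm` -/
theorem dm_sig {ψ : A} {n : ℕ} (h : IsDM ψ) (hn : ψ ∈ homog n) (hodd : Odd n) (h3 : 3 ≤ n)
    {K : Type} [CommRing K] [Algebra ℚ K] (a b : K) :
    ∃ s : K, b * E ℚ (v1 a b) (eA ψ) 0 1 =
      (a ^ n - (a + b) ^ n) * s + algebraMap ℚ K ((n : ℚ)⁻¹ *
        co ψ (List.replicate (n - 1) 0 ++ [1])) * b ^ n ∧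
      ∃ P : AY, s = ch (lt 1 1) P ∧ ∀ v, co P v = co ψ (wordX v) + corr ψ v := by
  obtain ⟨P, hP, hstar⟩ := h.star
  have hcorr : ∀ v, corr ψ v ≠ 0 → v = List.replicate n 0 := by
    intro v hv
    rw [corr] at hv
    split_ifs at hv with h1
    · have h2 : co ψ (List.replicate (v.length - 1) 0 ++ [1]) ≠ 0 := by
        intro h0; rw [h0, mul_zero] at hv; exact hv rfl
      have h4 := hn _ h2
      simp only [List.length_append, List.length_replicate, List.length_singleton] at h4
      have h5 : v.length = n := by omega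
      rw [h1.2, h5]
    · exact absurd rfl hv
  have hPn : ∀ v, co P v ≠ 0 → v.sum + v.length = n := by
    intro v hv
    rw [hP] at hv
    by_cases h1 : co ψ (wordX v) = 0
    · rw [h1, zero_add] at hv
      rw [hcorr v hv]
      simp
    · have := hn _ h1
      rw [wordX_length] at this
      exact this
  have h1 := ch_prim hPn (by omega) hstar a (-b)
  have h2 : P = run 0 ψ + ((n : ℚ)⁻¹ * co ψ (List.replicate (n - 1) 0 ++ [1])) •
      wd (List.replicate n 0) := by
    apply al_ext
    intro v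
    rw [hP, co_add, co_run, co_smul, co_wd, List.replicate_zero, List.append_nil]
    congr 1
    by_cases h4 : v = List.replicate n 0
    · rw [if_pos h4.symm, h4, corr, List.length_replicate, if_pos ⟨by omega, rfl⟩, mul_one]
      have h5 : Even (n - 1) := by
        obtain ⟨m, rfl⟩ := hodd
        exact ⟨m, by omega⟩
      rw [h5.neg_one_pow, one_div]
    · rw [if_neg (fun e => h4 e.symm), mul_zero]
      by_contra h5
      exact h4 (hcorr v h5)
  have h0 : co ψ [] = 0 := by
    by_contra h4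
    have := hn _ h4
    simp at this
    omega
  refine ⟨ch (lt 1 1) P, ?_, P, rfl, hP⟩
  rw [E_link a b ψ h0]
  have h5 := h1
  conv_lhs at h5 => rw [h2]
  rw [map_add, map_smul, ch_wd] at h5
  have h6 : ((List.replicate n 0).map (lt a (-b))).prod = (-b) ^ n := by
    rw [List.map_replicate, List.prod_replicate]
    simp [lt]
  rw [h6, hodd.neg_pow, sub_neg_eq_add, Algebra.smul_def] at h5
  linear_combination h5

theorem dm_isSig {ψ : A} {n : ℕ} (h : IsDM ψ) (hn : ψ ∈ homog n) (hodd : Odd n) (h3 : 3 ≤ n)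
    (hc : co ψ (List.replicate (n - 1) 0 ++ [1]) ≠ 0) :
    ∃ (t : ℚ) (u : F2 ℚ), u ∈ wt ℚ n ∧ tA u = t • ψ ∧ IsSig u n := by
  obtain ⟨w, hw, hwψ⟩ := exists_wt h.mem hn
  have hwD : w ∈ D1 ℚ := wt_D1 (by omega) hw
  obtain ⟨f, hf⟩ := exists_gam hwD
  obtain ⟨κ, hκ⟩ : ∃ κ : ℚ, κ = (n : ℚ)⁻¹ * co ψ (List.replicate (n - 1) 0 ++ [1]) := ⟨_, rfl⟩
  have hn0 : (n : ℚ) ≠ 0 := by exact_mod_cast (by omega : n ≠ 0)
  have hκ0 : κ ≠ 0 := by rw [hκ]; exact mul_ne_zero (inv_ne_zero hn0) hc
  -- the entry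
  have hE : ∀ a b : P2 ℚ, b * E ℚ (v1 a b) (eA ψ) 0 1 = b * (ev2 a b f * a) := by
    intro a b
    rw [← hwψ, eA_tA]
    have := E_sigma hf (v1 a b) 0
    have e1 : dX (v1 a b) 0 (0 + 1) = a := by simp [dX, v1]
    have e2 : dY (v1 a b) 0 (0 + 1) = b := by simp [dY, v1]
    rw [e1, e2] at this
    exact congrArg (fun z => b * z) this
  obtain ⟨s, hs, P, hsP, hP⟩ := dm_sig h hn hodd h3 (px : P2 ℚ) py
  obtain ⟨s', hs', P', hsP', hP'⟩ := dm_sig h hn hodd h3 (0 : P2 ℚ) py
  have hPP : P' = P := al_ext fun v => by rw [hP', hP]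
  rw [hPP, ← hsP] at hsP'
  rw [hsP'] at hs'
  rw [hE, ← hκ] at hs hs'
  rw [mul_zero, mul_zero, zero_pow (by omega), zero_add, zero_sub] at hs'
  have hs2 : s = algebraMap ℚ (P2 ℚ) κ := by
    have h4 : (s - algebraMap ℚ (P2 ℚ) κ) * py ^ n = 0 := by linear_combination hs'
    rcases mul_eq_zero.mp h4 with h5 | h5
    · exact sub_eq_zero.mp h5
    · exact absurd h5 (pow_ne_zero n py_ne)
  rw [hs2, ev2_id] at hs
  refine ⟨-((n : ℚ) * κ)⁻¹, -((n : ℚ) * κ)⁻¹ • w, Submodule.smul_mem _ _ hw, ?_,
    (D1 ℚ).smul_mem _ hwD, -((n : ℚ) * κ)⁻¹ • f, ?_, ?_⟩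
  · rw [map_smul, hwψ]
  · rw [map_smul, ← smul_sub]
    exact (D2 ℚ).smul_mem _ hf
  · have e1 : (algebraMap ℚ (P2 ℚ) (n : ℚ)) * algebraMap ℚ (P2 ℚ) (-((n : ℚ) * κ)⁻¹) *
        algebraMap ℚ (P2 ℚ) κ = -1 := by
      rw [← map_mul, ← map_mul, ← map_one (algebraMap ℚ (P2 ℚ)), ← map_neg]
      congr 1
      field_simp
    rw [Algebra.smul_def]
    linear_combination (algebraMap ℚ (P2 ℚ) (n : ℚ)) *
      algebraMap ℚ (P2 ℚ) (-((n : ℚ) * κ)⁻¹) * hs +
      (px ^ n - (px + py) ^ n + py ^ n) * e1

end dm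

end Pool.Agent.D0H31.GT
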