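import Pool.Agent.D0H31.GT.DMb

/-!
# The double shuffle Lie algebra: growth in every class
-/

namespace Pool.Agent.D0H31.GT

open Pool.Agent.Helper392_GT Pool.Agent.H777R4.DM Finset

attribute [local instance 100] LieRing.ofAssociativeRing

section fl

theorem FL_comm {a b : FA ℚ} {K : Type} [CommRing K] [Algebra ℚ K] :
    FL K 1 (a * b - b * a) := by
  intro v i j h
  rcases Nat.lt_or_ge j i with h1 | h1
  · exact FL_zero _ v i j (by omega)
  · have : j = i := by omega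
    subst this
    rw [E_sub, E_diag, E_diag]
    ring

theorem FL_gamA {K : Type} [CommRing K] [Algebra ℚ K] (c : ℕ) : ∀ ψ ∈ gamA c,
    FL K (c + 1) (eA ψ) := by
  have h0 : ∀ ψ ∈ gamA 0, FL K 1 (eA ψ) := by
    intro ψ hψ
    change ψ ∈ Submodule.span ℚ _ at hψ
    induction hψ using Submodule.span_induction with
    | mem z hz =>
      obtain ⟨a, _, b, _, rfl⟩ := hz
      rw [map_sub, map_mul, map_mul]
      exact FL_comm
    | zero => rw [map_zero]; exact FL.zero _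
    | add a b _ _ ha hb => rw [map_add]; exact ha.add hb
    | smul c a _ ha => rw [map_smul]; exact ha.smul c
  induction c with
  | zero => exact h0
  | succ c ih =>
    intro ψ hψ
    change ψ ∈ Submodule.span ℚ _ at hψ
    induction hψ using Submodule.span_induction with
    | mem z hz =>
      obtain ⟨a, ha, b, hb, rfl⟩ := hz
      rw [map_sub, map_mul, map_mul]
      have h1 := (h0 a ha).mul (ih b hb)
      have h2 := (ih b hb).mul (h0 a ha)
      rw [show 1 + (c + 1) = c + 1 + 1 by ring] at h1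
      exact h1.sub h2
    | zero => rw [map_zero]; exact FL.zero _
    | add a b _ _ ha hb => rw [map_add]; exact ha.add hb
    | smul c a _ ha => rw [map_smul]; exact ha.smul c

theorem tA_gamma (c : ℕ) : ∀ u ∈ gamma ℚ c, tA u ∈ gamA c := by
  have h0 : ∀ u ∈ gamma ℚ 0, tA u ∈ gamA 0 := by
    intro u hu
    refine lie_ind (k := ℚ) ⊤ ⊤ (fun u => tA u ∈ gamA 0) ?_ ?_ ?_ ?_ hu
    · rw [map_zero]; exact Submodule.zero_mem _
    · intro a b ha hb; rw [map_add]; exact Submodule.add_mem _ ha hb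
    · intro c a ha; rw [map_smul]; exact Submodule.smul_mem _ _ ha
    · intro a _ b _
      rw [tA_lie]
      exact Submodule.subset_span ⟨_, tA_mem a, _, tA_mem b, rfl⟩
  induction c with
  | zero => exact h0
  | succ c ih =>
    intro u hu
    refine lie_ind (D1 ℚ) (gamma ℚ c) (fun u => tA u ∈ gamA (c + 1)) ?_ ?_ ?_ ?_ hu
    · rw [map_zero]; exact Submodule.zero_mem _
    · intro a b ha hb; rw [map_add]; exact Submodule.add_mem _ ha hb
    · intro c a ha; rw [map_smul]; exact Submodule.smul_mem _ _ ha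
    · intro a ha b hb
      rw [tA_lie]
      exact Submodule.subset_span ⟨_, h0 a ha, _, ih b hb, rfl⟩

end fl

section fin

/-- the symbol map on the quotient -/
noncomputable def symA (c : ℕ) : (A ⧸ gamA c) →ₗ[ℚ] KK ℚ :=
  (gamA c).liftQ
    { toFun := fun ψ => E ℚ (vv ℚ) (eA ψ) 0 c
      map_add' := fun a b => by rw [map_add, E_add]
      map_smul' := fun r a => by rw [map_smul, E_smul]; rfl }
    (fun ψ hψ => by
      rw [LinearMap.mem_ker]
      exact FL_gamA (K := KK ℚ) c ψ hψ (vv ℚ) 0 c (by omega))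

theorem lie_le {V : Submodule ℚ A} (hV : V ≤ LieX.toSubmodule) (N : ℕ) :
    V ⊓ homog N ≤ (wt ℚ N).map (tA : F2 ℚ →ₗ[ℚ] A) := by
  rintro ψ ⟨h1, h2⟩
  obtain ⟨u, hu, rfl⟩ := exists_wt (hV h1) h2
  exact ⟨u, hu, rfl⟩

theorem img_finA {V : Submodule ℚ A} (hV : V ≤ LieX.toSubmodule) (c N : ℕ) :
    Module.Finite ℚ ((V ⊓ homog N).map (gamA c).mkQ) := by
  have h1 : Module.Finite ℚ ((wt ℚ N).map (tA : F2 ℚ →ₗ[ℚ] A)) := Module.Finite.map _ _
  have : Module.Finite ℚ (V ⊓ homog N : Submodule ℚ A) :=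
    Submodule.finiteDimensional_of_le (lie_le hV N)
  exact Module.Finite.map _ _

theorem dimA_mono {V W : Submodule ℚ A} (h : V ≤ W) (hW : W ≤ LieX.toSubmodule) (c N : ℕ) :
    dimA c V N ≤ dimA c W N := by
  have := img_finA hW c N
  exact Submodule.finrank_mono (Submodule.map_mono (inf_le_inf_right _ h))

theorem dimA_lie_le (c N : ℕ) (hN : 2 ≤ N) :
    dimA c LieX.toSubmodule N ≤ c * N ^ (2 * c - 1) := by
  refine le_trans ?_ (dimC_top_le (k := ℚ) c N hN)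
  let φ : (F2 ℚ ⧸ (gamma ℚ c).toSubmodule) →ₗ[ℚ] (A ⧸ gamA c) :=
    (gamma ℚ c).toSubmodule.mapQ (gamA c) (tA : F2 ℚ →ₗ[ℚ] A) (fun u hu => tA_gamma c u hu)
  have h1 : ((LieX.toSubmodule ⊓ homog N).map (gamA c).mkQ) ≤
      ((⊤ ⊓ wt ℚ N : Submodule ℚ (F2 ℚ)).map (gamma ℚ c).toSubmodule.mkQ).map φ := by
    rintro _ ⟨ψ, hψ, rfl⟩
    obtain ⟨u, hu, rfl⟩ := lie_le le_rfl N hψ
    exact ⟨(gamma ℚ c).toSubmodule.mkQ u, ⟨u, ⟨trivial, hu⟩, rfl⟩, rfl⟩
  have h2 : Module.Finite ℚ (((⊤ ⊓ wt ℚ N : Submodule ℚ (F2 ℚ)).map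
      (gamma ℚ c).toSubmodule.mkQ).map φ) := Module.Finite.map _ _
  exact (Submodule.finrank_mono h1).trans (Submodule.finrank_map_le _ _)

theorem Hyp_dm (g : Submodule ℚ A) (hdm : ∀ ψ ∈ g, IsDM ψ)
    (hbr : ∀ ψ ∈ g, ∀ φ ∈ g, ihara ψ φ ∈ g)
    (hgen : ∀ N, Odd N → 3 ≤ N → ∃ σ ∈ g, σ ∈ homog N ∧
      co σ (List.replicate (N - 1) 0 ++ [1]) ≠ 0) :
    Hyp (g.comap (tA : F2 ℚ →ₗ[ℚ] A)) := by
  refine ⟨?_, ?_⟩
  · intro σ hσ τ hτ D D' hD hD'
    change tA _ ∈ g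
    rw [tA_ihara D D' hD.1 hD.2 hD'.1 hD'.2]
    exact hbr _ hσ _ hτ
  · intro n hn h3
    obtain ⟨σ, s1, s2, s3⟩ := hgen n hn h3
    obtain ⟨t, u, u1, u2, u3⟩ := dm_isSig (hdm σ s1) s2 hn h3 s3
    refine ⟨u, ?_, u1, u3⟩
    change tA u ∈ g
    rw [u2]
    exact g.smul_mem t s1

theorem dm_growth (g : Submodule ℚ A) (hdm : ∀ ψ ∈ g, IsDM ψ)
    (hbr : ∀ ψ ∈ g, ∀ φ ∈ g, ihara ψ φ ∈ g)
    (hgen : ∀ N, Odd N → 3 ≤ N → ∃ σ ∈ g, σ ∈ homog N ∧
      co σ (List.replicate (N - 1) 0 ++ [1]) ≠ 0) (c : ℕ) (hc : 2 ≤ c) :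
    ∃ B : ℝ, 0 < B ∧ ∃ N₀ : ℕ, ∀ N ≥ N₀,
      B * (N : ℝ) ^ (2 * c - 1) ≤ dimA c (g ⊓ gamA (c - 1)) N ∧
      dimA c (g ⊓ gamA (c - 1)) N ≤ dimA c g N ∧
      dimA c g N ≤ dimA c dmSub N ∧
      dimA c dmSub N ≤ dimA c LieX.toSubmodule N ∧
      dimA c LieX.toSubmodule N ≤ c * N ^ (2 * c - 1) := by
  obtain ⟨c, rfl⟩ : ∃ c', c = c' + 1 := ⟨c - 1, by omega⟩
  have hdmL : dmSub ≤ LieX.toSubmodule := fun ψ hψ => IsDM.mem hψ
  have hgdm : g ≤ dmSub := fun ψ hψ => hdm ψ hψ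
  obtain ⟨M, n₀, hM, h⟩ := (Hyp_dm g hdm hbr hgen).family (c := c) (by omega)
  have hlow : ∀ r m q : ℕ, (2 * c + 1) * q ≤ m → (q + 1) ^ (2 * c + 1) ≤
      dimA (c + 1) (g ⊓ gamA c) (M * m + (r + 5 * r * M) + n₀) := by
    intro r m q hq
    obtain ⟨f, f1, f2, f3, f4⟩ := h r m q hq
    have hfin := img_finA (V := g ⊓ gamA c) (inf_le_left.trans (hgdm.trans hdmL)) (c + 1)
      (M * m + (r + 5 * r * M) + n₀)
    let b : (Fin (2 * c + 1) → Fin (q + 1)) →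
        ((g ⊓ gamA c ⊓ homog (M * m + (r + 5 * r * M) + n₀)).map (gamA (c + 1)).mkQ :
          Submodule ℚ _) := fun i =>
      ⟨(gamA (c + 1)).mkQ (tA (f i)),
        Submodule.mem_map_of_mem ⟨⟨f1 i, tA_gamma c _ (f2 i)⟩, tA_wt _ (f3 i)⟩⟩
    have h4 : LinearIndependent ℚ b := by
      refine LinearIndependent.of_comp ((symA (c + 1)).comp
        ((g ⊓ gamA c ⊓ homog (M * m + (r + 5 * r * M) + n₀)).map (gamA (c + 1)).mkQ).subtype) ?_
      have h5 : (⇑((symA (c + 1)).comp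
        ((g ⊓ gamA c ⊓ homog (M * m + (r + 5 * r * M) + n₀)).map
          (gamA (c + 1)).mkQ).subtype) ∘ b) =
          fun i => E ℚ (vv ℚ) (toAssoc ℚ (f i)) 0 (c + 1) := by
        funext i
        rw [← eA_tA]
        rfl
      rw [h5]
      exact f4
    have h6 := h4.fintype_card_le_finrank
    have h7 : Fintype.card (Fin (2 * c + 1) → Fin (q + 1)) = (q + 1) ^ (2 * c + 1) := by simp
    rw [h7] at h6
    exact h6
  obtain ⟨B, hB, N, hN⟩ := lower_all (d := 2 * c + 1) hM (by omega) hlow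
  refine ⟨B, hB, N + 2, fun n hn => ⟨?_, dimA_mono inf_le_left (hgdm.trans hdmL) _ _,
    dimA_mono hgdm hdmL _ _, dimA_mono hdmL le_rfl _ _, dimA_lie_le _ n (by omega)⟩⟩
  have := hN n (by omega)
  rwa [show 2 * (c + 1) - 1 = 2 * c + 1 by omega, show c + 1 - 1 = c by omega]

end fin

end Pool.Agent.D0H31.GT
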