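import Pool.Agent.Helper392_GT.Defs5

/-!
# The class filtration: definitions
-/

namespace Pool.Agent.D0H31.GT

open Pool.Agent.Helper392_GT

universe u

/-- `gamma k c` is the term `γ_{c+1}(L')` of the lower central series
`γ₁(L') = L'`, `γ_{j+1}(L') = [L', γ_j(L')]` of the commutator subalgebra `L' = [L, L]` of the free
Lie algebra `L` on two generators. -/
noncomputable def gamma (k : Type u) [CommRing k] : ℕ → LieIdeal k (F2 k)
  | 0 => LieAlgebra.derivedSeries k (F2 k) 1
  | (c + 1) => ⁅LieAlgebra.derivedSeries k (F2 k) 1, gamma k c⁆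

/-- The dimension of the image of the weight `n` part of `V` in `L / γ_{c+1}(L')`, the largest
quotient in which `L'` has class `c`. -/
noncomputable def dimC {k : Type u} [Field k] (c : ℕ) (V : Submodule k (F2 k)) (n : ℕ) : ℕ :=
  Module.finrank k ((V ⊓ wt k n).map (gamma k c).toSubmodule.mkQ)

end Pool.Agent.D0H31.GT
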