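import Pool.Agent.D0H31.GT.Upper

/-!
# The growth in every class
-/

namespace Pool.Agent.D0H31.GT

open Pool.Agent.Helper392_GT Finset

universe u

section fin

variable {k : Type u} [Field k]

theorem dimC_mono {c n : ℕ} {V W : Submodule k (F2 k)} (h : V ≤ W) :
    dimC c V n ≤ dimC c W n :=
  Submodule.finrank_mono (Submodule.map_mono (inf_le_inf_right _ h))

/-- from the arithmetic family to all large weights -/
theorem lower_all {f : ℕ → ℕ} {M n₀ d : ℕ} (hM : 0 < M) (hd : 0 < d)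
    (h : ∀ r m q : ℕ, d * q ≤ m → (q + 1) ^ d ≤ f (M * m + (r + 5 * r * M) + n₀)) :
    ∃ A : ℝ, 0 < A ∧ ∃ N : ℕ, ∀ n ≥ N, A * (n : ℝ) ^ d ≤ (f n : ℝ) := by
  have hM' : (0 : ℝ) < M := by exact_mod_cast hM
  have hd' : (0 : ℝ) < d := by exact_mod_cast hd
  refine ⟨(1 / (2 * M * d)) ^ d, by positivity, 2 * n₀ + 4 * M + 10 * M * M, fun n hn => ?_⟩
  have hn0 : n₀ ≤ n := by omega
  obtain ⟨D, hD⟩ : ∃ D, n = D + n₀ := ⟨n - n₀, by omega⟩
  have hDM := Nat.div_add_mod D M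
  have hr := Nat.mod_lt D hM
  obtain ⟨r, hrd⟩ : ∃ r, r = D % M := ⟨_, rfl⟩
  obtain ⟨Q, hQd⟩ : ∃ Q, Q = D / M := ⟨_, rfl⟩
  rw [← hrd, ← hQd] at hDM
  rw [← hrd] at hr
  have h5 : 5 * r ≤ Q := by
    by_contra hlt
    push Not at hlt
    have h1 : M * Q ≤ M * (5 * r) := Nat.mul_le_mul_left _ hlt.le
    have h2 : M * (5 * r) ≤ M * (5 * M) := Nat.mul_le_mul_left _ (by omega)
    have h3 : M * (5 * M) = 5 * (M * M) := by ring
    have h4 : 10 * M * M = 10 * (M * M) := by ring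
    omega
  obtain ⟨m, hm⟩ : ∃ m, Q = m + 5 * r := ⟨Q - 5 * r, by omega⟩
  have hq := h r m (m / d) (Nat.mul_div_le m d)
  have hw : M * m + (r + 5 * r * M) + n₀ = n := by
    rw [hD, ← hDM, hm]; ring
  rw [hw] at hq
  have h6 : (m : ℝ) ≤ d * ((m / d : ℕ) + 1 : ℝ) := by
    have h7 := Nat.lt_div_mul_add (a := m) hd
    have h8 : m < (m / d) * d + d := h7
    have h9 : (m : ℝ) ≤ (m / d : ℕ) * d + d := by exact_mod_cast h8.le
    linarith
  have h10 : (n : ℝ) ≤ 2 * M * m := by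
    have e1 : (n : ℝ) = D + n₀ := by exact_mod_cast hD
    have e2 : (M : ℝ) * Q + r = D := by exact_mod_cast hDM
    have e3 : (Q : ℝ) = m + 5 * r := by exact_mod_cast hm
    have e4 : (r : ℝ) ≤ M := by exact_mod_cast hr.le
    have e5 : (2 * n₀ + 4 * M + 10 * M * M : ℝ) ≤ n := by exact_mod_cast hn
    have e6 : (M : ℝ) * r ≤ M * M := mul_le_mul_of_nonneg_left e4 hM'.le
    have e7 : (M : ℝ) * Q = M * m + 5 * (M * r) := by rw [e3]; ring
    nlinarith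
  have h11 : (n : ℝ) / (2 * M * d) ≤ (m / d : ℕ) + 1 := by
    rw [div_le_iff₀ (by positivity)]
    calc (n : ℝ) ≤ 2 * M * m := h10
      _ ≤ 2 * M * (d * ((m / d : ℕ) + 1 : ℝ)) := by
          apply mul_le_mul_of_nonneg_left h6 (by positivity)
      _ = ((m / d : ℕ) + 1 : ℝ) * (2 * M * d) := by ring
  calc (1 / (2 * M * d)) ^ d * (n : ℝ) ^ d = ((n : ℝ) / (2 * M * d)) ^ d := by
        rw [← mul_pow]; congr 1; ring
    _ ≤ ((m / d : ℕ) + 1 : ℝ) ^ d := pow_le_pow_left₀ (by positivity) h11 _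
    _ = (((m / d + 1) ^ d : ℕ) : ℝ) := by push_cast; ring
    _ ≤ (f n : ℝ) := by exact_mod_cast hq

theorem class_growth [CharZero k] (𝔤 : Submodule k (F2 k)) (hgrt : 𝔤 ≤ grtSub k)
    (hbracket : IharaClosed 𝔤) (hsoule : HasSoule 𝔤) (c : ℕ) (hc : 2 ≤ c) :
    ∃ A : ℝ, 0 < A ∧ ∃ N : ℕ, ∀ n ≥ N,
      A * (n : ℝ) ^ (2 * c - 1) ≤ dimC c (𝔤 ⊓ (gamma k (c - 1)).toSubmodule) n ∧
      dimC c (𝔤 ⊓ (gamma k (c - 1)).toSubmodule) n ≤ dimC c 𝔤 n ∧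
      dimC c 𝔤 n ≤ dimC c (grtSub k) n ∧
      dimC c (grtSub k) n ≤ dimC c (⊤ : Submodule k (F2 k)) n ∧
      dimC c (⊤ : Submodule k (F2 k)) n ≤ c * n ^ (2 * c - 1) := by
  obtain ⟨c, rfl⟩ : ∃ c', c = c' + 1 := ⟨c - 1, by omega⟩
  obtain ⟨n₀, e, h1, h2, h3, h4⟩ := exists_class hgrt hbracket hsoule c (by omega)
  obtain ⟨M, hM, h⟩ := lower (hyp_of hgrt hbracket hsoule) (c := c) (n₀ := n₀) (by omega) h4
    ⟨e, h1, h2, h3, by rw [one_mul]⟩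
  obtain ⟨A, hA, N, hN⟩ := lower_all (d := 2 * c + 1) hM (by omega) h
  refine ⟨A, hA, N + 2, fun n hn => ⟨?_, dimC_mono inf_le_left, dimC_mono hgrt, dimC_mono le_top,
    dimC_top_le _ n (by omega)⟩⟩
  have := hN n (by omega)
  rwa [show 2 * (c + 1) - 1 = 2 * c + 1 by omega, show c + 1 - 1 = c by omega]

end fin

end Pool.Agent.D0H31.GT
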