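import Pool.Agent.D0H31.GT.Fin
import Pool.Agent.Helper392_GT.Depth1

/-!
# Elements of every class from the action at level one only
-/

namespace Pool.Agent.D0H31.GT

open Pool.Agent.Helper392_GT Finset

universe u

attribute [local instance 100] LieRing.ofAssociativeRing

section sig

variable {k : Type u} [Field k]

open Polynomial in
theorem IsSig.depth [CharZero k] {σ : F2 k} {n : ℕ} (h : IsSig σ n) (hn : 2 ≤ n) :
    DepthGE k 2 (σ - vm k (n - 1)) := by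
  obtain ⟨-, f, hf, he⟩ := h
  have h1 := congrArg (fun q : P2 k => ((sl (k := k)).symm q).coeff 1) he
  simp only [map_mul, map_sub, map_add, map_pow] at h1
  have epx : (sl (k := k)).symm px = C X := by rw [px, AlgEquiv.symm_apply_apply]
  have epy : (sl (k := k)).symm py = X := by rw [py, AlgEquiv.symm_apply_apply]
  have ealg : (sl (k := k)).symm (algebraMap k (P2 k) n) = C (C (n : k)) := rfl
  rw [epx, epy, ealg] at h1
  have e1 : (C (C (n : k)) * (C X * X * (sl (k := k)).symm f)).coeff 1 = C (n : k) * (X * c0 f) := by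
    rw [show C (C (n : k)) * (C X * X * (sl (k := k)).symm f) =
      C (C (n : k) * X) * (X * (sl (k := k)).symm f) by rw [C_mul]; ring]
    rw [coeff_C_mul, show (1 : ℕ) = 0 + 1 from rfl, coeff_X_mul, mul_assoc]
    rfl
  have e2 : (((C X + X) ^ n - (C X) ^ n - X ^ n : k[X][X])).coeff 1 = C (n : k) * X ^ (n - 1) := by
    rw [coeff_sub, coeff_sub, add_comm (C X : k[X][X]), coeff_X_add_C_pow, ← C_pow, coeff_C,
      if_neg (by norm_num), coeff_X_pow, if_neg (by omega), Nat.choose_one_right, sub_zero,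
      sub_zero, mul_comm]
    simp
  rw [e1, e2] at h1
  have hn0 : (C (n : k) : k[X]) ≠ 0 := by
    rw [Ne, C_eq_zero]
    exact_mod_cast (by omega : n ≠ 0)
  have h2 : X * c0 f = X ^ (n - 1) := mul_left_cancel₀ hn0 h1
  have h3 : c0 f = X ^ (n - 2) := by
    refine mul_left_cancel₀ (X_ne_zero : (X : k[X]) ≠ 0) ?_
    rw [h2, ← pow_succ']
    congr 1
    omega
  have h4 : DepthGE k 2 (gm k f - gam1 k (c0 f)) := gam_depth ((sl (k := k)).symm f)
  have h5 : gam1 k (c0 f) = vm k (n - 1) := by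
    rw [h3, gam1_eq, Polynomial.sum_def]
    have : (X ^ (n - 2) : k[X]) = monomial (n - 2) 1 := by rw [X_pow_eq_monomial]
    rw [this, support_monomial _ one_ne_zero, Finset.sum_singleton, coeff_monomial, if_pos rfl,
      one_smul, show n - 2 + 1 = n - 1 by omega]
    rfl
  have h6 : σ - vm k (n - 1) = (σ - gm k f) + (gm k f - gam1 k (c0 f)) := by rw [h5]; abel
  rw [h6]
  exact (depth_D2 hf).add h4

/-- brackets lie in the second derived ideal -/
theorem bracket_D2 {σ τ : F2 k} (hσ : σ ∈ D1 k) (hτ : τ ∈ D1 k)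
    (D E' : LieDerivation k (F2 k) (F2 k)) (hx : D (gx k) = 0) (hy : D (gy k) = ⁅gy k, σ⁆)
    (hx' : E' (gx k) = 0) (hy' : E' (gy k) = ⁅gy k, τ⁆) : ⁅σ, τ⁆ + D τ - E' σ ∈ D2 k := by
  obtain ⟨φ, hφ⟩ : ∃ φ, φ = ⁅σ, τ⁆ + D τ - E' σ := ⟨_, rfl⟩
  have hφ1 : φ ∈ D1 k := by
    rw [hφ]
    refine (D1 k).sub_mem ((D1 k).add_mem (mem_D1 _ _) ?_) ?_
    · exact der_all D _ (by rw [hx]; exact (D1 k).zero_mem) (by rw [hy]; exact mem_D1 _ _) τ
    · exact der_all E' _ (by rw [hx']; exact (D1 k).zero_mem) (by rw [hy']; exact mem_D1 _ _) σ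
  rw [← hφ]
  obtain ⟨f, hf⟩ := exists_gam hφ1
  let v : ℕ → P2 k × P2 k := fun i => if i = 0 then (px, py) else (0, 0)
  have h1 := E_sigma hf v 0
  have hσ0 : σ ∈ gamma k 0 := hσ
  have hτ0 : τ ∈ gamma k 0 := hτ
  have h2 := (DF_gamma (K := P2 k) (s := 0) (FL_gamma (K := P2 k) 0 hσ0) D hx hy 0 hτ0).eq v 0
  have h3 := (DF_gamma (K := P2 k) (s := 0) (FL_gamma (K := P2 k) 0 hτ0) E' hx' hy' 0 hσ0).eq v 0
  have h4 : E k v (toAssoc k ⁅σ, τ⁆) 0 1 = 0 :=
    FL_gamma (K := P2 k) 1 (gamma_lie 0 0 σ τ hσ0 hτ0) v 0 1 (by omega)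
  simp only [zero_add, add_zero, Finset.sum_range_one, comp_skip_zero, ww] at h2 h3
  have h5 : E k v (toAssoc k φ) 0 1 = 0 := by
    rw [hφ, map_sub, map_add, E_sub, E_add, h4, h2, h3]
    ring
  rw [zero_add, h5] at h1
  have e1 : dX v 0 1 = px := by simp [dX, v]
  have e2 : dY v 0 1 = py := by simp [dY, v]
  rw [e1, e2, ev2_id] at h1
  have h6 : f = 0 := by
    rcases mul_eq_zero.mp h1.symm with h | h
    · exact h
    · exact absurd h px_ne
  rw [h6, map_zero, sub_zero] at hf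
  exact hf

theorem TT_sym {φ : F2 k} (hT : TT φ ≠ 0) : E k (vv k) (toAssoc k φ) 0 2 ≠ 0 := by
  intro h0
  have h5 := (cmp_subst φ).e02
  change TT φ = _ at h5
  obtain ⟨f, hf⟩ : ∃ f : KK k →ₐ[k] P2 k, f = MvPolynomial.aeval (R := k)
    (fun x : ℕ × Fin 2 => if x.2 = 0 then (v0 k x.1).1 else (v0 k x.1).2) := ⟨_, rfl⟩
  have h6 : E k (fun l => (f (vv k l).1, f (vv k l).2)) (toAssoc k φ) 0 2 =
    f (E k (vv k) (toAssoc k φ) 0 2) := E_nat f (vv k) (toAssoc k φ) 0 2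
  have h7 : (fun l => (f (vv k l).1, f (vv k l).2)) = v0 k := by
    funext l
    rw [hf]
    simp [vv]
  have h8 : f 0 = 0 := map_zero f
  rw [h7, h0, h8] at h6
  exact hT (h5.trans h6)

theorem Hyp.exists_two [CharZero k] {𝔤 : Submodule k (F2 k)} (H : Hyp 𝔤) :
    ∃ h ∈ 𝔤, h ∈ gamma k 1 ∧ h ∈ wt k 8 ∧ E k (vv k) (toAssoc k h) 0 2 ≠ 0 := by
  obtain ⟨σ, s1, s2, s3⟩ := H.sig 3 (by decide) le_rfl
  obtain ⟨τ, t1, t2, t3⟩ := H.sig 5 (by decide) (by norm_num)
  obtain ⟨D, hDx, hDy⟩ := exists_der ⁅gy k, σ⁆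
  obtain ⟨D', hDx', hDy'⟩ := exists_der ⁅gy k, τ⁆
  have hT := (TT_bracket (m := 2) (n := 4) (by decide) (by decide) (s3.depth (by norm_num))
    (t3.depth (by norm_num)) D D' hDx hDy hDx' hDy').1
  refine ⟨_, H.br σ s1 τ t1 D D' ⟨hDx, hDy⟩ ⟨hDx', hDy'⟩,
    bracket_D2 s3.1 t3.1 D D' hDx hDy hDx' hDy', ?_, TT_sym ?_⟩
  · exact Submodule.sub_mem _ (Submodule.add_mem _ (lie_wt s2 t2) (der_wt s2 D hDx hDy t2))
      (der_wt t2 D' hDx' hDy' s2)
  · rw [hT]
    exact alt_ne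

/-- every class contains an element with nonzero symbol -/
theorem Hyp.exists_class [CharZero k] {𝔤 : Submodule k (F2 k)} (H : Hyp 𝔤) (c : ℕ)
    (hc : 1 ≤ c) :
    ∃ n, ∃ e ∈ 𝔤, e ∈ gamma k c ∧ e ∈ wt k n ∧ E k (vv k) (toAssoc k e) 0 (c + 1) ≠ 0 := by
  obtain ⟨h, h1, h2, h3, h4⟩ := H.exists_two
  exact H.exists_all h1 h2 h3 h4 c hc

/-- large independent families -/
theorem Hyp.family [CharZero k] {𝔤 : Submodule k (F2 k)} (Hy : Hyp 𝔤) {c : ℕ} (hc : 1 ≤ c) :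
    ∃ M n₀ : ℕ, 0 < M ∧ ∀ r m q : ℕ, (2 * c + 1) * q ≤ m →
      ∃ g : (Fin (2 * c + 1) → Fin (q + 1)) → F2 k, (∀ i, g i ∈ 𝔤) ∧ (∀ i, g i ∈ gamma k c) ∧
        (∀ i, g i ∈ wt k (M * m + (r + 5 * r * M) + n₀)) ∧
        LinearIndependent k (fun i => E k (vv k) (toAssoc k (g i)) 0 (c + 1)) := by
  classical
  obtain ⟨n₀, e₀, k1, k2, k3, hH⟩ := Hy.exists_class c hc
  obtain ⟨H, hHd⟩ : ∃ H, H = E k (vv k) (toAssoc k e₀) 0 (c + 1) := ⟨_, rfl⟩
  rw [← hHd] at hH
  have hR : Reach 𝔤 c H n₀ 1 := ⟨e₀, k1, k2, k3, by rw [one_mul, hHd]⟩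
  obtain ⟨a, ha⟩ := exists_algInd (k := k) (c := c + 1) (by omega)
  let e : Fin (c + 1) × Fin 2 ≃ Fin (2 * c + 1 + 1) :=
    Fintype.equivOfCardEq (by simp; ring)
  let M : ℕ := ∏ l, (2 * a l + 3)
  have hM : 0 < M := Finset.prod_pos fun l _ => by omega
  have hdvd : ∀ l, (2 * a l + 3) ∣ M := fun l => Finset.dvd_prod_of_mem _ (Finset.mem_univ l)
  let M' : Fin (c + 1) × Fin 2 → ℕ := fun l => M / (2 * a l + 3)
  have hM' : ∀ l, (2 * a l + 3) * M' l = M := fun l => Nat.mul_div_cancel' (hdvd l)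
  have hM'0 : ∀ l, 0 < M' l := fun l => by
    rcases Nat.eq_zero_or_pos (M' l) with h | h
    · have := hM' l; rw [h, mul_zero] at this; omega
    · exact h
  refine ⟨M, n₀, hM, fun r m q hq => ?_⟩
  let S : KK k := Top 3 (c + 1) (vv k) 0 ^ (2 * r) * (Top 5 (c + 1) (vv k) 0 ^ (r * (M - 1)) * 1)
  have hS : S ≠ 0 := by
    refine mul_ne_zero (pow_ne_zero _ (Top_ne hc (by decide) (by norm_num)))
      (mul_ne_zero (pow_ne_zero _ (Top_ne hc (by decide) (by norm_num))) one_ne_zero)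
  have hRS : Reach 𝔤 c H (r + 5 * r * M + n₀) S := by
    have h1 := (hR.pow Hy (a := 5) (by decide) (by norm_num) (r * (M - 1))).pow Hy (a := 3)
      (by decide) (by norm_num) (2 * r)
    have h2 : 3 * (2 * r) + (5 * (r * (M - 1)) + n₀) = r + 5 * r * M + n₀ := by
      obtain ⟨M₁, hM₁⟩ : ∃ M₁, M = M₁ + 1 := ⟨M - 1, by omega⟩
      rw [hM₁, Nat.add_sub_cancel]
      ring
    rw [h2] at h1
    exact h1
  let ex : (Fin (2 * c + 1) → Fin (q + 1)) → (Fin (c + 1) × Fin 2 → ℕ) := fun g l =>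
    M' l * xs m g (e l)
  have hex : Function.Injective ex := by
    intro g g' h
    refine xs_inj m ?_
    funext i
    have h1 := congrFun h (e.symm i)
    simp only [ex, Equiv.apply_symm_apply] at h1
    exact Nat.eq_of_mul_eq_mul_left (hM'0 _) h1
  have hreach : ∀ g : Fin (2 * c + 1) → Fin (q + 1), Reach 𝔤 c H
      (M * m + (r + 5 * r * M) + n₀)
      ((∏ l, (Top (2 * a l + 3) (c + 1) (vv k) 0 : KK k) ^ ex g l) * S) := by
    intro g
    have h1 := hRS.prod Hy Finset.univ a (ex g)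
    have h2 : ∑ l, (2 * a l + 3) * ex g l = M * m := by
      have h3 : ∀ l, (2 * a l + 3) * ex g l = M * xs m g (e l) := fun l => by
        simp only [ex]
        rw [← mul_assoc, hM']
      simp only [h3]
      rw [← Finset.mul_sum, Equiv.sum_comp e (xs m g), xs_sum hq]
    rw [h2, ← add_assoc] at h1
    exact h1
  choose g g1 g2 g3 g4 using hreach
  refine ⟨g, g1, g2, g3, ?_⟩
  let Φ : MvPolynomial (Fin (c + 1) × Fin 2) k →ₗ[k] KK k :=
    (LinearMap.mulRight k (S * H)).comp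
      (MvPolynomial.aeval (fun l => (Top (2 * a l + 3) (c + 1) (vv k) 0 : KK k))).toLinearMap
  have hΦ : Function.Injective Φ := by
    intro p p' h
    have h1 : MvPolynomial.aeval (fun l => (Top (2 * a l + 3) (c + 1) (vv k) 0 : KK k)) p *
        (S * H) = MvPolynomial.aeval
        (fun l => (Top (2 * a l + 3) (c + 1) (vv k) 0 : KK k)) p' * (S * H) := h
    exact ha (mul_right_cancel₀ (mul_ne_zero hS hH) h1)
  have h6 := ((MvPolynomial.basisMonomials (Fin (c + 1) × Fin 2) k).linearIndependent.map' Φ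
    (LinearMap.ker_eq_bot.mpr hΦ)).comp
    (fun g => Finsupp.equivFunOnFinite.symm (ex g))
    (Finsupp.equivFunOnFinite.symm.injective.comp hex)
  have h7 : (fun i => E k (vv k) (toAssoc k (g i)) 0 (c + 1)) =
      (Φ ∘ (MvPolynomial.basisMonomials (Fin (c + 1) × Fin 2) k)) ∘
        (fun g => Finsupp.equivFunOnFinite.symm (ex g)) := ?_
  · rw [h7]
    exact h6
  funext g
  rw [g4]
  simp only [Function.comp_apply, MvPolynomial.coe_basisMonomials, Φ, LinearMap.comp_apply,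
    LinearMap.mulRight_apply, AlgHom.toLinearMap_apply, MvPolynomial.aeval_monomial, map_one,
    one_mul]
  rw [Finsupp.prod_fintype _ _ (fun _ => pow_zero _)]
  simp only [Finsupp.equivFunOnFinite_symm_apply_apply]
  ring

end sig

end Pool.Agent.D0H31.GT
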