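import Pool.Agent.Helper392_GT.Defs

/-!
# Upper triangular representations of the free algebra on two generators
-/

namespace Pool.Agent.D0H31.GT

open Pool.Agent.Helper392_GT Finset

universe u

attribute [local instance 100] LieRing.ofAssociativeRing

/-- the free associative algebra on two generators -/
abbrev FA (k : Type u) [CommRing k] : Type u := FreeAlgebra k (Fin 2)

section basic

variable {k : Type u} [CommRing k] {K : Type u} [CommRing K] [Algebra k K]

/-- the diagonal element -/
def Ax (v : ℕ → K × K) : IncidenceAlgebra K ℕ where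
  toFun i j := if i = j then (v i).1 else 0
  eq_zero_of_not_le' i j h := if_neg (by rintro rfl; exact h le_rfl)

/-- the diagonal element plus the shift -/
def By (v : ℕ → K × K) : IncidenceAlgebra K ℕ where
  toFun i j := if i = j then (v i).2 else if j = i + 1 then 1 else 0
  eq_zero_of_not_le' i j h := by
    have h1 : i ≠ j := by rintro rfl; exact h le_rfl
    have h2 : j ≠ i + 1 := by rintro rfl; exact h (Nat.le_succ i)
    rw [if_neg h1, if_neg h2]

theorem Ax_apply (v : ℕ → K × K) (i j : ℕ) : Ax v i j = if i = j then (v i).1 else 0 := rfl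
theorem By_apply (v : ℕ → K × K) (i j : ℕ) :
    By v i j = if i = j then (v i).2 else if j = i + 1 then 1 else 0 := rfl

/-- the representation attached to a sequence of vertices -/
noncomputable def E (k : Type u) [CommRing k] {K : Type u} [CommRing K] [Algebra k K]
    (v : ℕ → K × K) : FA k →ₐ[k] IncidenceAlgebra K ℕ :=
  FreeAlgebra.lift k ![Ax v, By v]

theorem E_x (v : ℕ → K × K) : E k v (FreeAlgebra.ι k 0) = Ax v := by
  simp [E]
theorem E_y (v : ℕ → K × K) : E k v (FreeAlgebra.ι k 1) = By v := by
  simp [E]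

theorem E_mul (v : ℕ → K × K) (a b : FA k) (i j : ℕ) :
    E k v (a * b) i j = ∑ l ∈ Icc i j, E k v a i l * E k v b l j := by
  rw [map_mul, IncidenceAlgebra.mul_apply]

theorem E_add (v : ℕ → K × K) (a b : FA k) (i j : ℕ) :
    E k v (a + b) i j = E k v a i j + E k v b i j := by
  rw [map_add, IncidenceAlgebra.add_apply]

theorem E_sub (v : ℕ → K × K) (a b : FA k) (i j : ℕ) :
    E k v (a - b) i j = E k v a i j - E k v b i j := by
  rw [map_sub, IncidenceAlgebra.sub_apply]

theorem E_zero (v : ℕ → K × K) (i j : ℕ) : E k v (0 : FA k) i j = 0 := by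
  rw [map_zero, IncidenceAlgebra.zero_apply]

theorem E_smul (v : ℕ → K × K) (r : k) (a : FA k) (i j : ℕ) :
    E k v (r • a) i j = r • E k v a i j := by
  rw [map_smul]; rfl

theorem E_algebraMap (v : ℕ → K × K) (r : k) (i j : ℕ) :
    E k v (algebraMap k (FA k) r) i j = if i = j then algebraMap k K r else 0 := by
  rw [AlgHom.commutes, Algebra.algebraMap_eq_smul_one]
  change r • ((1 : IncidenceAlgebra K ℕ) i j) = _
  rw [IncidenceAlgebra.one_apply]
  split_ifs
  · rw [Algebra.algebraMap_eq_smul_one]
  · rw [smul_zero]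

theorem sum_Icc_shift {M : Type*} [AddCommMonoid M] (f : ℕ → M) (i j s : ℕ) :
    ∑ l ∈ Icc (i + s) (j + s), f l = ∑ l ∈ Icc i j, f (l + s) := by
  rw [← Finset.map_add_right_Icc, Finset.sum_map]
  rfl

/-- entries only depend on the vertices in between -/
theorem E_loc (u : FA k) : ∀ (v v' : ℕ → K × K) (s i j : ℕ),
    (∀ l, i ≤ l → l ≤ j → v' l = v (l + s)) → E k v' u i j = E k v u (i + s) (j + s) := by
  induction u using FreeAlgebra.induction with
  | grade0 r =>
    intro v v' s i j h
    rw [E_algebraMap, E_algebraMap]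
    simp
  | grade1 x =>
    intro v v' s i j h
    fin_cases x
    · change E k v' (FreeAlgebra.ι k 0) i j = E k v (FreeAlgebra.ι k 0) (i + s) (j + s)
      rw [E_x, E_x, Ax_apply, Ax_apply]
      by_cases hij : i = j
      · subst hij
        rw [if_pos rfl, if_pos rfl, h i le_rfl le_rfl]
      · rw [if_neg hij, if_neg (by omega)]
    · change E k v' (FreeAlgebra.ι k 1) i j = E k v (FreeAlgebra.ι k 1) (i + s) (j + s)
      rw [E_y, E_y, By_apply, By_apply]
      by_cases hij : i = j
      · subst hij
        rw [if_pos rfl, if_pos rfl, h i le_rfl le_rfl]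
      · rw [if_neg hij, if_neg (show ¬ (i + s = j + s) by omega)]
        by_cases h1 : j = i + 1
        · rw [if_pos h1, if_pos (show j + s = i + s + 1 by omega)]
        · rw [if_neg h1, if_neg (show ¬ (j + s = i + s + 1) by omega)]
  | mul a b ha hb =>
    intro v v' s i j h
    rw [E_mul, E_mul, sum_Icc_shift]
    refine Finset.sum_congr rfl fun l hl => ?_
    rw [Finset.mem_Icc] at hl
    rw [ha v v' s i l (fun m h1 h2 => h m h1 (h2.trans hl.2)),
      hb v v' s l j (fun m h1 h2 => h m (hl.1.trans h1) h2)]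
  | add a b ha hb =>
    intro v v' s i j h
    rw [E_add, E_add, ha v v' s i j h, hb v v' s i j h]

/-- naturality -/
theorem E_nat {K' : Type u} [CommRing K'] [Algebra k K'] (f : K →ₐ[k] K') (v : ℕ → K × K)
    (u : FA k) : ∀ i j : ℕ,
    E k (fun l => (f (v l).1, f (v l).2)) u i j = f (E k v u i j) := by
  induction u using FreeAlgebra.induction with
  | grade0 r =>
    intro i j
    rw [E_algebraMap, E_algebraMap]
    split_ifs <;> simp
  | grade1 x =>
    intro i j
    fin_cases x
    · change E k _ (FreeAlgebra.ι k 0) i j = f (E k v (FreeAlgebra.ι k 0) i j)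
      rw [E_x, E_x, Ax_apply, Ax_apply]
      split_ifs <;> simp
    · change E k _ (FreeAlgebra.ι k 1) i j = f (E k v (FreeAlgebra.ι k 1) i j)
      rw [E_y, E_y, By_apply, By_apply]
      split_ifs <;> simp
  | mul a b ha hb =>
    intro i j
    rw [E_mul, E_mul, map_sum]
    refine Finset.sum_congr rfl fun l _ => ?_
    rw [ha, hb, map_mul]
  | add a b ha hb =>
    intro i j
    rw [E_add, E_add, ha, hb, map_add]

variable (K) in
/-- the entries on the first `c` diagonals vanish -/
def FL (c : ℕ) (u : FA k) : Prop :=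
  ∀ (v : ℕ → K × K) (i j : ℕ), j < i + c → E k v u i j = 0

theorem FL.zero (c : ℕ) : FL K c (0 : FA k) := fun v i j _ => E_zero v i j
theorem FL.add {c : ℕ} {a b : FA k} (ha : FL K c a) (hb : FL K c b) : FL K c (a + b) :=
  fun v i j h => by rw [E_add, ha v i j h, hb v i j h, add_zero]
theorem FL.sub {c : ℕ} {a b : FA k} (ha : FL K c a) (hb : FL K c b) : FL K c (a - b) :=
  fun v i j h => by rw [E_sub, ha v i j h, hb v i j h, sub_zero]
theorem FL.smul {c : ℕ} {a : FA k} (r : k) (ha : FL K c a) : FL K c (r • a) :=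
  fun v i j h => by rw [E_smul, ha v i j h, smul_zero]
theorem FL.mono {c d : ℕ} {a : FA k} (ha : FL K c a) (h : d ≤ c) : FL K d a :=
  fun v i j h' => ha v i j (by omega)
theorem FL_zero (a : FA k) : FL K 0 a := fun v i j h =>
  IncidenceAlgebra.apply_eq_zero_of_not_le (by omega) _

theorem FL.mul {c d : ℕ} {a b : FA k} (ha : FL K c a) (hb : FL K d b) : FL K (c + d) (a * b) := by
  intro v i j h
  rw [E_mul]
  refine Finset.sum_eq_zero fun l _ => ?_
  by_cases h1 : l < i + c
  · rw [ha v i l h1, zero_mul]
  · rw [hb v l j (by omega), mul_zero]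

/-- the corner of a product -/
theorem FL.corner {c d : ℕ} {a b : FA k} (ha : FL K c a) (hb : FL K d b) (v : ℕ → K × K)
    (m : ℕ) : E k v (a * b) m (m + (c + d)) =
      E k v a m (m + c) * E k v b (m + c) (m + (c + d)) := by
  rw [E_mul]
  refine Finset.sum_eq_single_of_mem (m + c) (by rw [Finset.mem_Icc]; omega) fun l _ hl => ?_
  by_cases h1 : l < m + c
  · rw [ha v m l h1, zero_mul]
  · rw [hb v l _ (by omega), mul_zero]

/-- skip `s` vertices after the vertex `p` -/
def skip (p s j : ℕ) : ℕ := if j ≤ p then j else j + s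

theorem skip_le {p s j : ℕ} (h : j ≤ p) : skip p s j = j := if_pos h
theorem skip_gt {p s j : ℕ} (h : p < j) : skip p s j = j + s := if_neg (by omega)

/-- the entries of a derivation, raising the number of steps by `s` -/
structure DF (w : (ℕ → K × K) → ℕ → K) (s c : ℕ) (u u' : FA k) : Prop where
  fl : FL K (c + s) u'
  eq : ∀ (v : ℕ → K × K) (m : ℕ), E k v u' m (m + (c + s)) =
    ∑ i ∈ range c, E k (v ∘ skip (m + i) s) u m (m + c) * w v (m + i)

theorem DF.add {w : (ℕ → K × K) → ℕ → K} {s c : ℕ} {a a' b b' : FA k} (h : DF w s c a a')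
    (g : DF w s c b b') : DF w s c (a + b) (a' + b') := by
  refine ⟨h.fl.add g.fl, fun v m => ?_⟩
  rw [E_add, h.eq, g.eq, ← Finset.sum_add_distrib]
  refine Finset.sum_congr rfl fun i _ => ?_
  rw [E_add, add_mul]

theorem DF.sub {w : (ℕ → K × K) → ℕ → K} {s c : ℕ} {a a' b b' : FA k} (h : DF w s c a a')
    (g : DF w s c b b') : DF w s c (a - b) (a' - b') := by
  refine ⟨h.fl.sub g.fl, fun v m => ?_⟩
  rw [E_sub, h.eq, g.eq, ← Finset.sum_sub_distrib]
  refine Finset.sum_congr rfl fun i _ => ?_
  rw [E_sub, sub_mul]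

theorem DF.smul {w : (ℕ → K × K) → ℕ → K} {s c : ℕ} {a a' : FA k} (r : k) (h : DF w s c a a') :
    DF w s c (r • a) (r • a') := by
  refine ⟨h.fl.smul r, fun v m => ?_⟩
  rw [E_smul, h.eq, Finset.smul_sum]
  refine Finset.sum_congr rfl fun i _ => ?_
  rw [E_smul, smul_mul_assoc]

theorem DF.zero {w : (ℕ → K × K) → ℕ → K} {s c : ℕ} : DF w s c (0 : FA k) 0 := by
  refine ⟨FL.zero _, fun v m => ?_⟩
  rw [E_zero]
  symm
  refine Finset.sum_eq_zero fun i _ => ?_
  rw [E_zero, zero_mul]

theorem DF.mul {w : (ℕ → K × K) → ℕ → K} {s c d : ℕ} {a a' b b' : FA k} (h : DF w s c a a')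
    (g : DF w s d b b') (ha : FL K c a) (hb : FL K d b) :
    DF w s (c + d) (a * b) (a' * b + a * b') := by
  have e1 : c + s + d = c + d + s := by ring
  have e2 : c + (d + s) = c + d + s := by ring
  refine ⟨?_, fun v m => ?_⟩
  · have h1 := h.fl.mul hb
    have h2 := ha.mul g.fl
    rw [e1] at h1
    rw [e2] at h2
    exact h1.add h2
  · have h1 := h.fl.corner hb v m
    have h2 := ha.corner g.fl v m
    rw [e1] at h1
    rw [e2] at h2
    rw [E_add, h1, h2, h.eq, Finset.sum_mul, Finset.sum_range_add]
    congr 1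
    · refine Finset.sum_congr rfl fun i hi => ?_
      rw [Finset.mem_range] at hi
      rw [ha.corner hb (v ∘ skip (m + i) s) m]
      rw [E_loc b v (v ∘ skip (m + i) s) s (m + c) (m + (c + d)) (fun l h3 h4 => by
        simp only [Function.comp_apply]
        rw [skip_gt (by omega)])]
      rw [show m + (c + s) = m + c + s by ring, show m + (c + d + s) = m + (c + d) + s by ring]
      ring
    · have h3 := g.eq v (m + c)
      rw [show m + c + (d + s) = m + (c + d + s) by ring] at h3
      rw [h3, Finset.mul_sum]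
      refine Finset.sum_congr rfl fun i hi => ?_
      rw [show m + (c + i) = m + c + i by ring, ha.corner hb (v ∘ skip (m + c + i) s) m]
      rw [E_loc a v (v ∘ skip (m + c + i) s) 0 m (m + c) (fun l h3 h4 => by
        simp only [Function.comp_apply]
        rw [skip_le (by omega), add_zero])]
      rw [show m + c + d = m + (c + d) by ring, add_zero, add_zero]
      ring

end basic

end Pool.Agent.D0H31.GT
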