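import Pool.Agent.D0H31.GT.Inc
import Pool.Agent.Helper392_GT.Struct
import Pool.Agent.D0H31.GT.Defs

/-!
# The lower central series of the commutator subalgebra, and derivations
-/

namespace Pool.Agent.D0H31.GT

open Pool.Agent.Helper392_GT Finset

universe u

attribute [local instance 100] LieRing.ofAssociativeRing

section ideals

variable {k : Type u} [CommRing k]

theorem gamma_zero : gamma k 0 = D1 k := rfl
theorem gamma_succ (c : ℕ) : gamma k (c + 1) = ⁅D1 k, gamma k c⁆ := rfl

theorem gamma_anti_succ (c : ℕ) : gamma k (c + 1) ≤ gamma k c := LieSubmodule.lie_le_right _ _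

theorem gamma_anti {c d : ℕ} (h : c ≤ d) : gamma k d ≤ gamma k c := by
  induction h with
  | refl => exact le_rfl
  | step _ ih => exact (gamma_anti_succ _).trans ih

theorem gamma_lie (i : ℕ) : ∀ (j : ℕ) (a b : F2 k), a ∈ gamma k i → b ∈ gamma k j →
    ⁅a, b⁆ ∈ gamma k (i + j + 1) := by
  induction i with
  | zero =>
    intro j a b ha hb
    rw [zero_add]
    exact LieSubmodule.lie_mem_lie ha hb
  | succ i ih =>
    intro j a b ha hb
    refine lie_ind (D1 k) (gamma k i) (fun a => ∀ b ∈ gamma k j, ⁅a, b⁆ ∈ gamma k (i + 1 + j + 1))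
      ?_ ?_ ?_ ?_ ha b hb
    · intro b _
      rw [zero_lie]; exact (gamma k _).zero_mem
    · intro a a' h h' b hb
      rw [add_lie]; exact (gamma k _).add_mem (h b hb) (h' b hb)
    · intro c a h b hb
      rw [smul_lie]; exact (gamma k _).smul_mem _ (h b hb)
    · intro a ha a' ha' b hb
      rw [lie_lie]
      refine (gamma k _).sub_mem ?_ ?_
      · have := ih j a' b ha' hb
        have h2 : ⁅a, ⁅a', b⁆⁆ ∈ gamma k (i + j + 1 + 1) := LieSubmodule.lie_mem_lie ha this
        rwa [show i + 1 + j + 1 = i + j + 1 + 1 by ring]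
      · have h1 : ⁅a, b⁆ ∈ gamma k (j + 1) := LieSubmodule.lie_mem_lie ha hb
        have h2 := ih (j + 1) a' _ ha' h1
        rwa [show i + (j + 1) + 1 = i + 1 + j + 1 by ring] at h2

theorem der_all (D : LieDerivation k (F2 k) (F2 k)) (I : LieIdeal k (F2 k))
    (hx : D (gx k) ∈ I) (hy : D (gy k) ∈ I) (u : F2 k) : D u ∈ I := by
  refine free_ind (fun v => D v ∈ I) ?_ ?_ ?_ ?_ hx hy u
  · rw [map_zero]; exact I.zero_mem
  · intro a b ha hb
    rw [map_add]; exact I.add_mem ha hb
  · intro c a ha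
    rw [map_smul]; exact I.smul_mem _ ha
  · intro a b ha hb
    rw [LieDerivation.apply_lie_eq_sub]
    exact I.sub_mem (LieSubmodule.lie_mem _ hb) (LieSubmodule.lie_mem _ ha)

theorem der_gamma (D : LieDerivation k (F2 k) (F2 k)) {s : ℕ}
    (hx : D (gx k) ∈ gamma k s) (hy : D (gy k) ∈ gamma k s) (c : ℕ) {u : F2 k}
    (hu : u ∈ gamma k c) : D u ∈ gamma k (c + s) := by
  induction c generalizing u with
  | zero => rw [zero_add]; exact der_all D _ hx hy u
  | succ c ih =>
    refine lie_ind (D1 k) (gamma k c) (fun u => D u ∈ gamma k (c + 1 + s)) ?_ ?_ ?_ ?_ hu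
    · rw [map_zero]; exact (gamma k _).zero_mem
    · intro a b ha hb
      rw [map_add]; exact (gamma k _).add_mem ha hb
    · intro r a ha
      rw [map_smul]; exact (gamma k _).smul_mem _ ha
    · intro a ha b hb
      rw [LieDerivation.apply_lie_eq_sub]
      refine (gamma k _).sub_mem ?_ ?_
      · have h1 : ⁅a, D b⁆ ∈ gamma k (c + s + 1) := LieSubmodule.lie_mem_lie ha (ih hb)
        rwa [show c + 1 + s = c + s + 1 by ring]
      · have h1 := gamma_lie c s b (D a) hb (der_all D _ hx hy a)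
        rwa [show c + 1 + s = c + s + 1 by ring]

end ideals

section entries

variable {k : Type u} [CommRing k] {K : Type u} [CommRing K] [Algebra k K]

theorem toAssoc_x : toAssoc k (gx k) = FreeAlgebra.ι k 0 := by simp [toAssoc]
theorem toAssoc_y : toAssoc k (gy k) = FreeAlgebra.ι k 1 := by simp [toAssoc]

theorem toAssoc_lie (a b : F2 k) : toAssoc k ⁅a, b⁆ =
    toAssoc k a * toAssoc k b - toAssoc k b * toAssoc k a := by
  rw [LieHom.map_lie, Ring.lie_def]

theorem E_diag (v : ℕ → K × K) (a b : FA k) (m : ℕ) :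
    E k v (a * b) m m = E k v a m m * E k v b m m := by
  rw [E_mul, Finset.Icc_self, Finset.sum_singleton]

theorem FL_D1 {u : F2 k} (hu : u ∈ D1 k) : FL K 1 (toAssoc k u) := by
  refine lie_ind ⊤ ⊤ (fun u => FL K 1 (toAssoc k u)) ?_ ?_ ?_ ?_ hu
  · rw [map_zero]; exact FL.zero 1
  · intro a b ha hb; rw [map_add]; exact ha.add hb
  · intro c a ha; rw [map_smul]; exact ha.smul c
  · intro a _ b _ v i j h
    rcases Nat.lt_or_ge j i with h1 | h1
    · exact FL_zero _ v i j (by omega)
    · have : j = i := by omega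
      subst this
      rw [toAssoc_lie, E_sub, E_diag, E_diag]
      ring

theorem FL_gamma (c : ℕ) {u : F2 k} (hu : u ∈ gamma k c) : FL K (c + 1) (toAssoc k u) := by
  induction c generalizing u with
  | zero => exact FL_D1 hu
  | succ c ih =>
    refine lie_ind (D1 k) (gamma k c) (fun u => FL K (c + 1 + 1) (toAssoc k u)) ?_ ?_ ?_ ?_ hu
    · rw [map_zero]; exact FL.zero _
    · intro a b ha hb; rw [map_add]; exact ha.add hb
    · intro c a ha; rw [map_smul]; exact ha.smul c
    · intro a ha b hb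
      rw [toAssoc_lie]
      have h1 := (FL_D1 (K := K) ha).mul (ih hb)
      have h2 := (ih hb).mul (FL_D1 (K := K) ha)
      rw [show 1 + (c + 1) = c + 1 + 1 by ring] at h1
      exact h1.sub h2

/-- the weight of the new edge -/
noncomputable def ww (k : Type u) [CommRing k] {K : Type u} [CommRing K] [Algebra k K] (s : ℕ)
    (δ : F2 k) (v : ℕ → K × K) (p : ℕ) : K :=
  ((v p).2 - (v (p + (1 + s))).2) * E k v (toAssoc k δ) p (p + (1 + s))

theorem E_two (v : ℕ → K × K) (a b : FA k) (m : ℕ) :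
    E k v (a * b) m (m + 1) = E k v a m m * E k v b m (m + 1) +
      E k v a m (m + 1) * E k v b (m + 1) (m + 1) := by
  rw [E_mul, Finset.sum_Icc_succ_top (Nat.le_succ m), Finset.Icc_self, Finset.sum_singleton]

theorem DB {s : ℕ} {δ : F2 k} (hδ : FL K (1 + s) (toAssoc k δ))
    (D : LieDerivation k (F2 k) (F2 k)) (hx : D (gx k) = 0) (hy : D (gy k) = ⁅gy k, δ⁆)
    (u : F2 k) : FL K (1 + s) (toAssoc k (D u)) ∧ ∀ (v : ℕ → K × K) (m : ℕ),
      E k v (toAssoc k (D u)) m (m + (1 + s)) =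
        E k (v ∘ skip m s) (toAssoc k u) m (m + 1) * ww k s δ v m := by
  refine free_ind (fun u => FL K (1 + s) (toAssoc k (D u)) ∧ ∀ (v : ℕ → K × K) (m : ℕ),
      E k v (toAssoc k (D u)) m (m + (1 + s)) =
        E k (v ∘ skip m s) (toAssoc k u) m (m + 1) * ww k s δ v m) ?_ ?_ ?_ ?_ ?_ ?_ u
  · rw [map_zero, map_zero]
    refine ⟨FL.zero _, fun v m => ?_⟩
    rw [E_zero, E_zero, zero_mul]
  · rintro a b ⟨h1, h2⟩ ⟨g1, g2⟩
    rw [map_add, map_add, map_add]
    refine ⟨h1.add g1, fun v m => ?_⟩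
    rw [E_add, E_add, h2, g2, add_mul]
  · rintro r a ⟨h1, h2⟩
    rw [map_smul, map_smul, map_smul]
    refine ⟨h1.smul r, fun v m => ?_⟩
    rw [E_smul, E_smul, h2, smul_mul_assoc]
  · rintro a b ⟨h1, h2⟩ ⟨g1, g2⟩
    have e : toAssoc k (D ⁅a, b⁆) = (toAssoc k a * toAssoc k (D b) - toAssoc k (D b) * toAssoc k a)
        - (toAssoc k b * toAssoc k (D a) - toAssoc k (D a) * toAssoc k b) := by
      rw [LieDerivation.apply_lie_eq_sub, map_sub, toAssoc_lie, toAssoc_lie]
    obtain ⟨A, hA⟩ : ∃ A, A = toAssoc k a := ⟨_, rfl⟩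
    obtain ⟨B, hB⟩ : ∃ B, B = toAssoc k b := ⟨_, rfl⟩
    obtain ⟨A', hA'⟩ : ∃ A', A' = toAssoc k (D a) := ⟨_, rfl⟩
    obtain ⟨B', hB'⟩ : ∃ B', B' = toAssoc k (D b) := ⟨_, rfl⟩
    rw [e, toAssoc_lie, ← hA, ← hB, ← hA', ← hB']
    rw [← hA] at h2
    rw [← hB] at g2
    rw [← hA'] at h1 h2
    rw [← hB'] at g1 g2
    have f1 := (FL_zero (K := K) A).mul g1
    have f2 := g1.mul (FL_zero (K := K) A)
    have f3 := (FL_zero (K := K) B).mul h1
    have f4 := h1.mul (FL_zero (K := K) B)
    rw [zero_add] at f1 f3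
    rw [add_zero] at f2 f4
    refine ⟨(f1.sub f2).sub (f3.sub f4), fun v m => ?_⟩
    have c1 := (FL_zero (K := K) A).corner g1 v m
    have c2 := g1.corner (FL_zero (K := K) A) v m
    have c3 := (FL_zero (K := K) B).corner h1 v m
    have c4 := h1.corner (FL_zero (K := K) B) v m
    rw [zero_add] at c1 c3
    rw [add_zero] at c2 c4
    rw [add_zero] at c1 c3
    have l1 : ∀ C : FA k, E k (v ∘ skip m s) C m m = E k v C m m := fun C =>
      E_loc C v _ 0 m m (fun l h3 h4 => by
        simp only [Function.comp_apply]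
        rw [skip_le h4, add_zero])
    have l2 : ∀ C : FA k, E k (v ∘ skip m s) C (m + 1) (m + 1) =
        E k v C (m + (1 + s)) (m + (1 + s)) := fun C => by
      rw [show m + (1 + s) = m + 1 + s by ring]
      refine E_loc C v _ s (m + 1) (m + 1) (fun l h3 h4 => ?_)
      simp only [Function.comp_apply]
      rw [skip_gt (by omega)]
    rw [E_sub, E_sub, E_sub, c1, c2, c3, c4, h2, g2, E_sub, E_two, E_two, l1, l1, l2, l2]
    ring
  · rw [hx, map_zero, toAssoc_x]
    refine ⟨FL.zero _, fun v m => ?_⟩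
    rw [E_zero, E_x, Ax_apply, if_neg (by omega), zero_mul]
  · rw [hy, toAssoc_lie, toAssoc_y]
    have f1 := (FL_zero (K := K) (FreeAlgebra.ι k 1)).mul hδ
    have f2 := hδ.mul (FL_zero (K := K) (FreeAlgebra.ι k 1))
    rw [zero_add] at f1
    rw [add_zero] at f2
    refine ⟨f1.sub f2, fun v m => ?_⟩
    have c1 := (FL_zero (K := K) (FreeAlgebra.ι k 1)).corner hδ v m
    have c2 := hδ.corner (FL_zero (K := K) (FreeAlgebra.ι k 1)) v m
    rw [zero_add, add_zero] at c1
    rw [add_zero] at c2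
    rw [E_sub, c1, c2, E_y, E_y, By_apply, By_apply, By_apply, if_pos rfl, if_pos rfl,
      if_neg (by omega), if_pos rfl, ww]
    ring

theorem DF_gamma {s : ℕ} {δ : F2 k} (hδ : FL K (1 + s) (toAssoc k δ))
    (D : LieDerivation k (F2 k) (F2 k)) (hx : D (gx k) = 0) (hy : D (gy k) = ⁅gy k, δ⁆)
    (c : ℕ) {u : F2 k} (hu : u ∈ gamma k c) :
    DF (ww k (K := K) s δ) s (c + 1) (toAssoc k u) (toAssoc k (D u)) := by
  have base : ∀ u : F2 k, DF (ww k (K := K) s δ) s 1 (toAssoc k u) (toAssoc k (D u)) := by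
    intro u
    obtain ⟨h1, h2⟩ := DB hδ D hx hy u
    refine ⟨h1, fun v m => ?_⟩
    rw [h2, Finset.sum_range_one, add_zero]
  induction c generalizing u with
  | zero => exact base u
  | succ c ih =>
    refine lie_ind (D1 k) (gamma k c)
      (fun u => DF (ww k (K := K) s δ) s (c + 1 + 1) (toAssoc k u) (toAssoc k (D u))) ?_ ?_ ?_ ?_ hu
    · rw [map_zero, map_zero]; exact DF.zero
    · intro a b ha hb; rw [map_add, map_add, map_add]; exact ha.add hb
    · intro r a ha; rw [map_smul, map_smul, map_smul]; exact ha.smul r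
    · intro a ha b hb
      have h1 := (base a).mul (ih hb) (FL_D1 ha) (FL_gamma c hb)
      have h2 := (ih hb).mul (base a) (FL_gamma c hb) (FL_D1 ha)
      rw [show 1 + (c + 1) = c + 1 + 1 by ring] at h1
      have h3 := h1.sub h2
      rw [toAssoc_lie, LieDerivation.apply_lie_eq_sub, map_sub, toAssoc_lie, toAssoc_lie]
      have e : (toAssoc k a * toAssoc k (D b) - toAssoc k (D b) * toAssoc k a)
        - (toAssoc k b * toAssoc k (D a) - toAssoc k (D a) * toAssoc k b) =
        (toAssoc k (D a) * toAssoc k b + toAssoc k a * toAssoc k (D b)) -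
          (toAssoc k (D b) * toAssoc k a + toAssoc k b * toAssoc k (D a)) := by abel
      rw [e]
      exact h3

end entries

end Pool.Agent.D0H31.GT
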