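import Pool.Agent.D0H31.GT.Base
import Pool.Agent.D0H31.GT.AlgInd
import Pool.Agent.Helper392_GT.Dim2

/-!
# The lower bound
-/

namespace Pool.Agent.D0H31.GT

open Pool.Agent.Helper392_GT Finset

universe u

section lower

variable {k : Type u} [Field k]

/-- `P H` is the symbol of an element of `𝔤` of weight `n` and class `c + 1` -/
def Reach (𝔤 : Submodule k (F2 k)) (c : ℕ) (H : KK k) (n : ℕ) (P : KK k) : Prop :=
  ∃ g ∈ 𝔤, g ∈ gamma k c ∧ g ∈ wt k n ∧ E k (vv k) (toAssoc k g) 0 (c + 1) = P * H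

theorem Reach.mul {𝔤 : Submodule k (F2 k)} (Hy : Hyp 𝔤) {c n : ℕ} {H P : KK k}
    (h : Reach 𝔤 c H n P) {a : ℕ} (ha : Odd a) (h3 : 3 ≤ a) :
    Reach 𝔤 c H (a + n) (Top a (c + 1) (vv k) 0 * P) := by
  obtain ⟨g, g1, g2, g3, g4⟩ := h
  obtain ⟨g', s1, s2, s3, s4⟩ := Hy.act g1 g2 g3 ha h3
  refine ⟨(a : k) • g', 𝔤.smul_mem _ s1, (gamma k c).smul_mem _ s2, Submodule.smul_mem _ _ s3, ?_⟩
  have h5 := s4 (vv k) 0
  rw [zero_add, g4] at h5
  rw [map_smul, E_smul, mul_assoc, ← h5, Algebra.smul_def, map_natCast]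

theorem Reach.pow {𝔤 : Submodule k (F2 k)} (Hy : Hyp 𝔤) {c n : ℕ} {H P : KK k}
    (h : Reach 𝔤 c H n P) {a : ℕ} (ha : Odd a) (h3 : 3 ≤ a) (e : ℕ) :
    Reach 𝔤 c H (a * e + n) (Top a (c + 1) (vv k) 0 ^ e * P) := by
  induction e with
  | zero => simpa using h
  | succ e ih =>
    have := ih.mul Hy ha h3
    rw [show a * (e + 1) + n = a + (a * e + n) by ring, pow_succ', mul_assoc]
    exact this

theorem Reach.prod {𝔤 : Submodule k (F2 k)} (Hy : Hyp 𝔤) {c n : ℕ} {H P : KK k}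
    (h : Reach 𝔤 c H n P) {ι : Type*} (s : Finset ι) (a : ι → ℕ) (e : ι → ℕ) :
    Reach 𝔤 c H (∑ l ∈ s, (2 * a l + 3) * e l + n)
      ((∏ l ∈ s, (Top (2 * a l + 3) (c + 1) (vv k) 0 : KK k) ^ e l) * P) := by
  classical
  induction s using Finset.induction_on with
  | empty => simpa using h
  | insert i s hi ih =>
    have := ih.pow Hy (a := 2 * a i + 3) ⟨a i + 1, by ring⟩ (by omega) (e i)
    rw [Finset.sum_insert hi, Finset.prod_insert hi, add_assoc, mul_assoc]
    exact this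

/-- the symbol map on the quotient -/
noncomputable def symQ (k : Type u) [Field k] (c : ℕ) :
    (F2 k ⧸ (gamma k c).toSubmodule) →ₗ[k] KK k :=
  (gamma k c).toSubmodule.liftQ
    { toFun := fun u => E k (vv k) (toAssoc k u) 0 c
      map_add' := fun a b => by rw [map_add, E_add]
      map_smul' := fun r a => by rw [map_smul, E_smul]; rfl }
    (fun u hu => by
      rw [LinearMap.mem_ker]
      exact FL_gamma (K := KK k) c hu (vv k) 0 c (by omega))

theorem symQ_mk (c : ℕ) (u : F2 k) :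
    symQ k c ((gamma k c).toSubmodule.mkQ u) = E k (vv k) (toAssoc k u) 0 c := rfl

instance img_fin (c n : ℕ) (V : Submodule k (F2 k)) :
    Module.Finite k ((V ⊓ wt k n).map (gamma k c).toSubmodule.mkQ) := by
  have : Module.Finite k (V ⊓ wt k n : Submodule k (F2 k)) :=
    Submodule.finiteDimensional_of_le (S₂ := wt k n) inf_le_right
  exact Module.Finite.map _ _

/-- independent symbols give a lower bound for the dimension -/
theorem card_le_dimC {𝔤 : Submodule k (F2 k)} {c n : ℕ} {ι : Type*} [Fintype ι] (g : ι → F2 k)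
    (h1 : ∀ i, g i ∈ 𝔤) (h2 : ∀ i, g i ∈ wt k n)
    (h3 : LinearIndependent k (fun i => E k (vv k) (toAssoc k (g i)) 0 c)) :
    Fintype.card ι ≤ dimC c 𝔤 n := by
  let b : ι → ((𝔤 ⊓ wt k n).map (gamma k c).toSubmodule.mkQ : Submodule k _) := fun i =>
    ⟨(gamma k c).toSubmodule.mkQ (g i), Submodule.mem_map_of_mem ⟨h1 i, h2 i⟩⟩
  have h4 : LinearIndependent k b := by
    refine LinearIndependent.of_comp
      ((symQ k c).comp ((𝔤 ⊓ wt k n).map (gamma k c).toSubmodule.mkQ).subtype) ?_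
    exact h3
  exact h4.fintype_card_le_finrank

/-- the family of exponents: the last one is determined by the total -/
def xs {d q : ℕ} (m : ℕ) (g : Fin d → Fin (q + 1)) : Fin (d + 1) → ℕ :=
  Fin.cons (m - ∑ i, (g i : ℕ)) (fun i => (g i : ℕ))

theorem xs_sum {d q m : ℕ} (h : d * q ≤ m) (g : Fin d → Fin (q + 1)) : ∑ i, xs m g i = m := by
  rw [Fin.sum_univ_succ]
  simp only [xs, Fin.cons_zero, Fin.cons_succ]
  have h1 : ∑ i, (g i : ℕ) ≤ d * q := by
    calc ∑ i, (g i : ℕ) ≤ ∑ _i : Fin d, q := Finset.sum_le_sum fun i _ => by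
          have := (g i).isLt; omega
      _ = d * q := by simp
  omega

theorem xs_inj {d q : ℕ} (m : ℕ) : Function.Injective (xs (d := d) (q := q) m) := by
  intro g g' h
  funext i
  have := congrFun h i.succ
  simp only [xs, Fin.cons_succ] at this
  exact Fin.ext this

theorem Top_map {K K' : Type u} [CommRing K] [Algebra k K] [CommRing K'] [Algebra k K']
    (f : K →ₐ[k] K') (n c : ℕ) (v : ℕ → K × K) (m : ℕ) :
    f (Top n c v m) = Top n c (fun l => (f (v l).1, f (v l).2)) m := by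
  simp only [Top, qn, dX, dY, map_sub, map_sum, map_pow, map_add]

/-- a test point -/
def vt (k : Type u) [Field k] (i : ℕ) : k × k :=
  if i = 1 then (1, 0) else if i = 2 then (1, 1) else (0, 0)

theorem Top_vt {n c : ℕ} (hc : 1 ≤ c) (hn : Odd n) :
    Top n (c + 1) (vt k) 0 = (2 : k) ^ n - 2 := by
  have h0 : n ≠ 0 := by rintro rfl; simp at hn
  have z : qn n (0 : k) 0 = 0 := by simp [qn, h0]
  have z1 : qn n (-1 : k) 0 = 0 := by simp [qn, h0]
  have z2 : qn n (0 : k) (-1) = 0 := by simp [qn, h0]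
  have z3 : qn n (1 : k) 1 = 2 ^ n - 2 := by
    simp only [qn, one_pow]; norm_num; ring
  have z4 : qn n (-1 : k) (-1) = -(2 ^ n - 2) := by
    simp only [qn, hn.neg_one_pow]
    rw [show (-1 : k) + -1 = -2 by norm_num, hn.neg_pow]
    ring
  rcases Nat.lt_or_ge c 2 with h | h
  · have : c = 1 := by omega
    subst this
    rw [Top, Finset.sum_range_succ, Finset.sum_range_one]
    have a1 : dX (vt k) (0 + 0) (0 + 0 + 1) = -1 := by simp [dX, vt]
    have a2 : dY (vt k) (0 + 0) (0 + 0 + 1) = 0 := by simp [dY, vt]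
    have a3 : dX (vt k) (0 + 1) (0 + 1 + 1) = 0 := by simp [dX, vt]
    have a4 : dY (vt k) (0 + 1) (0 + 1 + 1) = -1 := by simp [dY, vt]
    have a5 : dX (vt k) 0 (0 + (1 + 1)) = -1 := by simp [dX, vt]
    have a6 : dY (vt k) 0 (0 + (1 + 1)) = -1 := by simp [dY, vt]
    rw [a1, a2, a3, a4, a5, a6, z1, z2, z4]
    ring
  · obtain ⟨d, rfl⟩ := Nat.exists_eq_add_of_le h
    rw [Top, show 2 + d + 1 = d + 3 by ring, Finset.sum_range_succ', Finset.sum_range_succ',
      Finset.sum_range_succ']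
    have a1 : dX (vt k) (0 + 0) (0 + 0 + 1) = -1 := by simp [dX, vt]
    have a2 : dY (vt k) (0 + 0) (0 + 0 + 1) = 0 := by simp [dY, vt]
    have a3 : dX (vt k) (0 + (0 + 1)) (0 + (0 + 1) + 1) = 0 := by simp [dX, vt]
    have a4 : dY (vt k) (0 + (0 + 1)) (0 + (0 + 1) + 1) = -1 := by simp [dY, vt]
    have a5 : dX (vt k) (0 + (0 + 1 + 1)) (0 + (0 + 1 + 1) + 1) = 1 := by simp [dX, vt]
    have a6 : dY (vt k) (0 + (0 + 1 + 1)) (0 + (0 + 1 + 1) + 1) = 1 := by simp [dY, vt]
    have a7 : dX (vt k) 0 (0 + (d + 3)) = 0 := by simp [dX, vt]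
    have a8 : dY (vt k) 0 (0 + (d + 3)) = 0 := by simp [dY, vt]
    have a9 : ∀ i, dX (vt k) (0 + (i + 1 + 1 + 1)) (0 + (i + 1 + 1 + 1) + 1) = 0 := by
      intro i; simp [dX, vt]
    have a10 : ∀ i, dY (vt k) (0 + (i + 1 + 1 + 1)) (0 + (i + 1 + 1 + 1) + 1) = 0 := by
      intro i; simp [dY, vt]
    rw [a1, a2, a3, a4, a5, a6, a7, a8, z, z1, z2, z3]
    simp only [a9, a10, z, Finset.sum_const_zero]
    ring

theorem Top_ne {n c : ℕ} (hc : 1 ≤ c) (hn : Odd n) (h2 : (2 : k) ^ n - 2 ≠ 0) :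
    (Top n (c + 1) (vv k) 0 : KK k) ≠ 0 := by
  intro h0
  have h1 := Top_map (k := k) (MvPolynomial.aeval (R := k) (S₁ := k) (fun x : ℕ × Fin 2 =>
      if x.2 = 0 then (vt k x.1).1 else (vt k x.1).2)) n (c + 1) (vv k) 0
  have h3 : (fun l => ((MvPolynomial.aeval (R := k) (S₁ := k) (fun x : ℕ × Fin 2 =>
      if x.2 = 0 then (vt k x.1).1 else (vt k x.1).2)) (vv k l).1,
      (MvPolynomial.aeval (R := k) (S₁ := k) (fun x : ℕ × Fin 2 =>
      if x.2 = 0 then (vt k x.1).1 else (vt k x.1).2)) (vv k l).2)) = vt k := by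
    funext l
    simp [vv]
  rw [h3, h0, map_zero, Top_vt hc hn] at h1
  exact h2 h1.symm

theorem lower [CharZero k] {𝔤 : Submodule k (F2 k)} (Hy : Hyp 𝔤) {c n₀ : ℕ} (hc : 1 ≤ c)
    {H : KK k} (hH : H ≠ 0) (hR : Reach 𝔤 c H n₀ 1) :
    ∃ M : ℕ, 0 < M ∧ ∀ r m q : ℕ, (2 * c + 1) * q ≤ m →
      (q + 1) ^ (2 * c + 1) ≤ dimC (c + 1) (𝔤 ⊓ (gamma k c).toSubmodule)
        (M * m + (r + 5 * r * M) + n₀) := by
  classical
  obtain ⟨a, ha⟩ := exists_algInd (k := k) (c := c + 1) (by omega)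
  let e : Fin (c + 1) × Fin 2 ≃ Fin (2 * c + 1 + 1) :=
    Fintype.equivOfCardEq (by simp; ring)
  let M : ℕ := ∏ l, (2 * a l + 3)
  have hM : 0 < M := Finset.prod_pos fun l _ => by omega
  have hdvd : ∀ l, (2 * a l + 3) ∣ M := fun l => Finset.dvd_prod_of_mem _ (Finset.mem_univ l)
  let M' : Fin (c + 1) × Fin 2 → ℕ := fun l => M / (2 * a l + 3)
  have hM' : ∀ l, (2 * a l + 3) * M' l = M := fun l => Nat.mul_div_cancel' (hdvd l)
  have hM'0 : ∀ l, 0 < M' l := fun l => by
    rcases Nat.eq_zero_or_pos (M' l) with h | h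
    · have := hM' l; rw [h, mul_zero] at this; omega
    · exact h
  refine ⟨M, hM, fun r m q hq => ?_⟩
  let S : KK k := Top 3 (c + 1) (vv k) 0 ^ (2 * r) * (Top 5 (c + 1) (vv k) 0 ^ (r * (M - 1)) * 1)
  have hS : S ≠ 0 := by
    refine mul_ne_zero (pow_ne_zero _ (Top_ne hc (by decide) (by norm_num)))
      (mul_ne_zero (pow_ne_zero _ (Top_ne hc (by decide) (by norm_num))) one_ne_zero)
  have hRS : Reach 𝔤 c H (r + 5 * r * M + n₀) S := by
    have h1 := (hR.pow Hy (a := 5) (by decide) (by norm_num) (r * (M - 1))).pow Hy (a := 3)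
      (by decide) (by norm_num) (2 * r)
    have h2 : 3 * (2 * r) + (5 * (r * (M - 1)) + n₀) = r + 5 * r * M + n₀ := by
      obtain ⟨M₁, hM₁⟩ : ∃ M₁, M = M₁ + 1 := ⟨M - 1, by omega⟩
      rw [hM₁, Nat.add_sub_cancel]
      ring
    rw [h2] at h1
    exact h1
  -- the exponents
  let ex : (Fin (2 * c + 1) → Fin (q + 1)) → (Fin (c + 1) × Fin 2 → ℕ) := fun g l =>
    M' l * xs m g (e l)
  have hex : Function.Injective ex := by
    intro g g' h
    refine xs_inj m ?_
    funext i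
    have h1 := congrFun h (e.symm i)
    simp only [ex, Equiv.apply_symm_apply] at h1
    exact Nat.eq_of_mul_eq_mul_left (hM'0 _) h1
  have hreach : ∀ g : Fin (2 * c + 1) → Fin (q + 1), Reach 𝔤 c H
      (M * m + (r + 5 * r * M) + n₀)
      ((∏ l, (Top (2 * a l + 3) (c + 1) (vv k) 0 : KK k) ^ ex g l) * S) := by
    intro g
    have h1 := hRS.prod Hy Finset.univ a (ex g)
    have h2 : ∑ l, (2 * a l + 3) * ex g l = M * m := by
      have h3 : ∀ l, (2 * a l + 3) * ex g l = M * xs m g (e l) := fun l => by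
        simp only [ex]
        rw [← mul_assoc, hM']
      simp only [h3]
      rw [← Finset.mul_sum, Equiv.sum_comp e (xs m g), xs_sum hq]
    rw [h2, ← add_assoc] at h1
    exact h1
  choose g g1 g2 g3 g4 using hreach
  have hcard := card_le_dimC (c := c + 1) (𝔤 := 𝔤 ⊓ (gamma k c).toSubmodule) g
    (fun i => ⟨g1 i, g2 i⟩) g3 ?_
  · have h5 : Fintype.card (Fin (2 * c + 1) → Fin (q + 1)) = (q + 1) ^ (2 * c + 1) := by simp
    rw [h5] at hcard
    exact hcard
  · -- independence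
    let Φ : MvPolynomial (Fin (c + 1) × Fin 2) k →ₗ[k] KK k :=
      (LinearMap.mulRight k (S * H)).comp
        (MvPolynomial.aeval (fun l => (Top (2 * a l + 3) (c + 1) (vv k) 0 : KK k))).toLinearMap
    have hΦ : Function.Injective Φ := by
      intro p p' h
      have h1 : MvPolynomial.aeval (fun l => (Top (2 * a l + 3) (c + 1) (vv k) 0 : KK k)) p *
          (S * H) = MvPolynomial.aeval
          (fun l => (Top (2 * a l + 3) (c + 1) (vv k) 0 : KK k)) p' * (S * H) := h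
      exact ha (mul_right_cancel₀ (mul_ne_zero hS hH) h1)
    have h6 := ((MvPolynomial.basisMonomials (Fin (c + 1) × Fin 2) k).linearIndependent.map' Φ
      (LinearMap.ker_eq_bot.mpr hΦ)).comp
      (fun g => Finsupp.equivFunOnFinite.symm (ex g))
      (Finsupp.equivFunOnFinite.symm.injective.comp hex)
    have h7 : (fun i => E k (vv k) (toAssoc k (g i)) 0 (c + 1)) =
        (Φ ∘ (MvPolynomial.basisMonomials (Fin (c + 1) × Fin 2) k)) ∘
          (fun g => Finsupp.equivFunOnFinite.symm (ex g)) := ?_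
    · rw [h7]
      exact h6
    funext g
    rw [g4]
    simp only [Function.comp_apply, MvPolynomial.coe_basisMonomials, Φ, LinearMap.comp_apply,
      LinearMap.mulRight_apply, AlgHom.toLinearMap_apply, MvPolynomial.aeval_monomial, map_one,
      one_mul]
    rw [Finsupp.prod_fintype _ _ (fun _ => pow_zero _)]
    simp only [Finsupp.equivFunOnFinite_symm_apply_apply]
    ring

end lower

end Pool.Agent.D0H31.GT
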