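import Pool.Agent.D0H31.GT.TOp

/-!
# The universal vertices and the nodes
-/

namespace Pool.Agent.D0H31.GT

open Pool.Agent.Helper392_GT Finset

universe u

attribute [local instance 100] LieRing.ofAssociativeRing

section nodes

variable {k : Type u} [Field k]

/-- the coordinate ring of the vertices -/
abbrev KK (k : Type u) [Field k] : Type u := MvPolynomial (ℕ × Fin 2) k

/-- the universal vertices -/
noncomputable def vv (k : Type u) [Field k] (i : ℕ) : KK k × KK k :=
  (MvPolynomial.X (i, 0), MvPolynomial.X (i, 1))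

/-- the nodes: `x`, `y` or `x + y` differences -/
noncomputable def nd {K : Type*} [CommRing K] (t : Fin 3) (v : ℕ → K × K) (p q : ℕ) : K :=
  if t = 0 then dX v p q else if t = 1 then dY v p q else dX v p q + dY v p q

theorem nd_zero {K : Type*} [CommRing K] (v : ℕ → K × K) (p q : ℕ) : nd 0 v p q = dX v p q := rfl
theorem nd_one {K : Type*} [CommRing K] (v : ℕ → K × K) (p q : ℕ) : nd 1 v p q = dY v p q := rfl
theorem nd_two {K : Type*} [CommRing K] (v : ℕ → K × K) (p q : ℕ) :
    nd 2 v p q = dX v p q + dY v p q := rfl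

/-- evaluation at an indicator function -/
noncomputable def evi (k : Type u) [Field k] (l : ℕ) (b : Fin 2) : KK k →ₐ[k] k :=
  MvPolynomial.aeval fun x => if x = (l, b) then 1 else 0

/-- signed indicator -/
def sgi (k : Type u) [Field k] (l p q : ℕ) : k := (if p = l then 1 else 0) - (if q = l then 1 else 0)

theorem evi_dX0 (l p q : ℕ) : evi k l 0 (dX (vv k) p q) = sgi k l p q := by
  simp [evi, dX, vv, sgi, Prod.ext_iff]
theorem evi_dX1 (l p q : ℕ) : evi k l 1 (dX (vv k) p q) = 0 := by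
  simp [evi, dX, vv]
theorem evi_dY0 (l p q : ℕ) : evi k l 0 (dY (vv k) p q) = 0 := by
  simp [evi, dY, vv]
theorem evi_dY1 (l p q : ℕ) : evi k l 1 (dY (vv k) p q) = sgi k l p q := by
  simp [evi, dY, vv, sgi, Prod.ext_iff]

theorem sgi_sq {l p q : ℕ} (h : p ≠ q) : sgi k l p q ^ 2 = if p = l ∨ q = l then 1 else 0 := by
  unfold sgi
  by_cases h1 : p = l
  · subst h1
    rw [if_pos rfl, if_neg (Ne.symm h), if_pos (Or.inl rfl)]; ring
  · rw [if_neg h1]
    by_cases h2 : q = l
    · rw [if_pos h2, if_pos (Or.inr h2)]; ring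
    · rw [if_neg h2, if_neg (by tauto)]; ring

/-- the indicator vector of a type -/
def ty (k : Type u) [Field k] (t : Fin 3) (b : Fin 2) : k :=
  if t = 0 then (if b = 0 then 1 else 0) else if t = 1 then (if b = 0 then 0 else 1) else 1

theorem evi_nd (l p q : ℕ) (t : Fin 3) (b : Fin 2) :
    evi k l b (nd t (vv k) p q) = ty k t b * sgi k l p q := by
  fin_cases t <;> fin_cases b
  · change evi k l 0 (nd 0 (vv k) p q) = _
    rw [nd_zero, evi_dX0]; simp [ty]
  · change evi k l 1 (nd 0 (vv k) p q) = _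
    rw [nd_zero, evi_dX1]; simp [ty]
  · change evi k l 0 (nd 1 (vv k) p q) = _
    rw [nd_one, evi_dY0]; simp [ty]
  · change evi k l 1 (nd 1 (vv k) p q) = _
    rw [nd_one, evi_dY1]; simp [ty]
  · change evi k l 0 (nd 2 (vv k) p q) = _
    rw [nd_two, map_add, evi_dX0, evi_dY0]; simp [ty]
  · change evi k l 1 (nd 2 (vv k) p q) = _
    rw [nd_two, map_add, evi_dX1, evi_dY1]; simp [ty]

theorem ty_sq (t : Fin 3) (b : Fin 2) : ty k t b ^ 2 = ty k t b := by
  fin_cases t <;> fin_cases b <;> simp [ty]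

theorem nd_sq_inj {t t' : Fin 3} {p q p' q' : ℕ} (hpq : p < q) (hpq' : p' < q')
    (h : nd t (vv k) p q ^ 2 = nd t' (vv k) p' q' ^ 2) : t = t' ∧ p = p' ∧ q = q' := by
  have key : ∀ l b, ty k t b * (if p = l ∨ q = l then 1 else 0) =
      ty k t' b * (if p' = l ∨ q' = l then 1 else 0) := by
    intro l b
    have := congrArg (evi k l b) h
    rw [map_pow, map_pow, evi_nd, evi_nd, mul_pow, mul_pow, ty_sq, ty_sq, sgi_sq hpq.ne,
      sgi_sq hpq'.ne] at this
    exact this
  have hex : ∃ b, ty k t b = 1 := by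
    fin_cases t
    · exact ⟨0, by simp [ty]⟩
    · exact ⟨1, by simp [ty]⟩
    · exact ⟨0, by simp [ty]⟩
  obtain ⟨b, hb⟩ := hex
  have hp : p' = p ∨ q' = p := by
    by_contra hcon
    have := key p b
    rw [if_pos (Or.inl rfl), if_neg hcon, hb] at this
    simp at this
  have hq : p' = q ∨ q' = q := by
    by_contra hcon
    have := key q b
    rw [if_pos (Or.inr rfl), if_neg hcon, hb] at this
    simp at this
  have h1 : p = p' ∧ q = q' := by omega
  refine ⟨?_, h1⟩
  have hty : ∀ b, ty k t b = ty k t' b := by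
    intro b
    have := key p b
    rw [if_pos (Or.inl rfl), if_pos hp, mul_one, mul_one] at this
    exact this
  have e0 := hty 0
  have e1 := hty 1
  fin_cases t <;> fin_cases t' <;> simp [ty] at e0 e1 <;> rfl

theorem nd_ne_zero (t : Fin 3) {p q : ℕ} (hpq : p < q) : nd t (vv k) p q ≠ 0 := by
  intro h
  have hex : ∃ b, ty k t b = 1 := by
    fin_cases t
    · exact ⟨0, by simp [ty]⟩
    · exact ⟨1, by simp [ty]⟩
    · exact ⟨0, by simp [ty]⟩
  obtain ⟨b, hb⟩ := hex
  have := congrArg (evi k p b) h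
  rw [evi_nd, hb, map_zero, one_mul, sgi, if_pos rfl, if_neg hpq.ne'] at this
  simp at this

open Polynomial in
/-- a polynomial vanishing at the squares of all nodes except one -/
theorem exists_sep (N : ℕ) (t₀ : Fin 3) {p₀ q₀ : ℕ} (h₀ : p₀ < q₀) :
    ∃ P : (KK k)[X], P.eval (nd t₀ (vv k) p₀ q₀ ^ 2) ≠ 0 ∧
      ∀ (t : Fin 3) (p q : ℕ), p < q → q < N → (t, p, q) ≠ (t₀, p₀, q₀) →
        P.eval (nd t (vv k) p q ^ 2) = 0 := by
  classical
  refine ⟨∏ a ∈ ((Finset.univ : Finset (Fin 3)) ×ˢ (range N) ×ˢ (range N)).filter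
    (fun a => a.2.1 < a.2.2 ∧ a ≠ (t₀, p₀, q₀)), (X - C (nd a.1 (vv k) a.2.1 a.2.2 ^ 2)), ?_, ?_⟩
  · rw [Polynomial.eval_prod, Finset.prod_ne_zero_iff]
    rintro ⟨t, p, q⟩ ha
    rw [Finset.mem_filter] at ha
    simp only [eval_sub, eval_X, eval_C]
    intro h
    obtain ⟨e1, e2, e3⟩ := nd_sq_inj h₀ ha.2.1 (sub_eq_zero.mp h)
    exact ha.2.2 (by rw [e1, e2, e3])
  · intro t p q hpq hq hne
    rw [Polynomial.eval_prod]
    refine Finset.prod_eq_zero (i := (t, p, q)) ?_ (by simp)
    rw [Finset.mem_filter]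
    refine ⟨?_, hpq, hne⟩
    simp only [Finset.mem_product, Finset.mem_univ, Finset.mem_range, true_and]
    exact ⟨by omega, hq⟩

end nodes

end Pool.Agent.D0H31.GT
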