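import Pool.Agent.D0H31.GT.Nodes
import Pool.Agent.Helper392_GT.Wt
import Pool.Agent.Helper392_GT.Defs5

/-!
# Elements with nonzero symbol in every class
-/

namespace Pool.Agent.D0H31.GT

open Pool.Agent.Helper392_GT Finset

universe u

attribute [local instance 100] LieRing.ofAssociativeRing

section lam

open Polynomial

variable {K : Type u} [CommRing K]

/-- the linear functional on sequences attached to a polynomial -/
noncomputable def Lam (P : K[X]) (F : ℕ → K) : K :=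
  ∑ m ∈ range (P.natDegree + 1), P.coeff m * F m

theorem Lam_sub (P : K[X]) (F G : ℕ → K) : Lam P (fun m => F m - G m) = Lam P F - Lam P G := by
  simp only [Lam, mul_sub, Finset.sum_sub_distrib]

theorem Lam_mul (P : K[X]) (F : ℕ → K) (c : K) : Lam P (fun m => F m * c) = Lam P F * c := by
  simp only [Lam, Finset.sum_mul, mul_assoc]

theorem Lam_sum {ι : Type*} (P : K[X]) (s : Finset ι) (F : ι → ℕ → K) :
    Lam P (fun m => ∑ i ∈ s, F i m) = ∑ i ∈ s, Lam P (F i) := by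
  simp only [Lam, Finset.mul_sum]
  rw [Finset.sum_comm]

theorem Lam_pow (P : K[X]) (w : K) : Lam P (fun m => w ^ (2 * m + 3)) = w ^ 3 * P.eval (w ^ 2) := by
  rw [Lam, Polynomial.eval_eq_sum_range, Finset.mul_sum]
  refine Finset.sum_congr rfl fun m _ => ?_
  rw [pow_add, pow_mul]; ring

/-- the functional on the polynomials `(a + b)^n - a^n - b^n` -/
noncomputable def Qf (P : K[X]) (a b : K) : K :=
  (a + b) ^ 3 * P.eval ((a + b) ^ 2) - a ^ 3 * P.eval (a ^ 2) - b ^ 3 * P.eval (b ^ 2)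

theorem Lam_qn (P : K[X]) (a b : K) : Lam P (fun m => qn (2 * m + 3) a b) = Qf P a b := by
  simp only [qn]
  rw [Lam_sub, Lam_sub, Lam_pow, Lam_pow, Lam_pow, Qf]

/-- the functional on the multipliers -/
noncomputable def TopQ (P : K[X]) (c : ℕ) (v : ℕ → K × K) (m : ℕ) : K :=
  ∑ i ∈ range c, Qf P (dX v (m + i) (m + i + 1)) (dY v (m + i) (m + i + 1)) -
    Qf P (dX v m (m + c)) (dY v m (m + c))

theorem Lam_Top (P : K[X]) (c : ℕ) (v : ℕ → K × K) (m : ℕ) :
    Lam P (fun n => Top (2 * n + 3) c v m) = TopQ P c v m := by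
  simp only [Top]
  rw [Lam_sub, Lam_sum, TopQ, Lam_qn]
  congr 1
  exact Finset.sum_congr rfl fun i _ => Lam_qn P _ _

end lam

section step

variable {k : Type u} [Field k]

/-- the hypotheses on `𝔤` -/
structure Hyp (𝔤 : Submodule k (F2 k)) : Prop where
  br : IharaClosed 𝔤
  sig : ∀ n, Odd n → 3 ≤ n → ∃ σ ∈ 𝔤, σ ∈ wt k n ∧ IsSig σ n

theorem Hyp.act {𝔤 : Submodule k (F2 k)} (H : Hyp 𝔤) {c m : ℕ} {h : F2 k} (h1 : h ∈ 𝔤)
    (h2 : h ∈ gamma k c) (h3 : h ∈ wt k m) {n : ℕ} (hn : Odd n) (hn3 : 3 ≤ n) :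
    ∃ g ∈ 𝔤, g ∈ gamma k c ∧ g ∈ wt k (n + m) ∧ ∀ (v : ℕ → KK k × KK k) (p : ℕ),
      (n : KK k) * E k v (toAssoc k g) p (p + (c + 1)) =
        Top n (c + 1) v p * E k v (toAssoc k h) p (p + (c + 1)) := by
  obtain ⟨σ, s1, s2, s3⟩ := H.sig n hn hn3
  obtain ⟨D, hDx, hDy⟩ := exists_der ⁅gy k, σ⁆
  obtain ⟨D', hDx', hDy'⟩ := exists_der ⁅gy k, h⁆
  have hσ0 : σ ∈ gamma k 0 := s3.1
  refine ⟨_, H.br σ s1 h h1 D D' ⟨hDx, hDy⟩ ⟨hDx', hDy'⟩, ?_, ?_, fun v p =>
    symbol_act s3 h2 D D' hDx hDy hDx' hDy' v p⟩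
  · refine (gamma k c).sub_mem ((gamma k c).add_mem ?_ ?_) ?_
    · exact LieSubmodule.lie_mem _ h2
    · have := der_gamma D (s := 0) (by rw [hDx]; exact (gamma k 0).zero_mem)
        (by rw [hDy]; exact LieSubmodule.lie_mem _ hσ0) c h2
      rwa [add_zero] at this
    · exact der_all D' _ (by rw [hDx']; exact (gamma k c).zero_mem)
        (by rw [hDy']; exact LieSubmodule.lie_mem _ h2) σ
  · refine Submodule.sub_mem _ (Submodule.add_mem _ (lie_wt s2 h3) (der_wt s2 D hDx hDy h3)) ?_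
    have := der_wt h3 D' hDx' hDy' s2
    rwa [add_comm m] at this

theorem Hyp.bra {𝔤 : Submodule k (F2 k)} (H : Hyp 𝔤) {m₂ c m : ℕ} {h₂ g : F2 k} (a1 : h₂ ∈ 𝔤)
    (a2 : h₂ ∈ gamma k 1) (a3 : h₂ ∈ wt k m₂) (h1 : g ∈ 𝔤)
    (h2 : g ∈ gamma k c) (h3 : g ∈ wt k m) :
    ∃ e ∈ 𝔤, e ∈ gamma k (c + 1) ∧ e ∈ wt k (m₂ + m) ∧ ∀ (v : ℕ → KK k × KK k),
      E k v (toAssoc k e) 0 (c + 2) =
      ∑ i ∈ range (c + 1), E k (v ∘ skip i 1) (toAssoc k g) 0 (c + 1) *
        (dY v i (i + 2) * E k v (toAssoc k h₂) i (i + 2)) -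
      ∑ i ∈ range 2, E k (v ∘ skip i c) (toAssoc k h₂) 0 2 *
        (dY v i (i + (c + 1)) * E k v (toAssoc k g) i (i + (c + 1))) := by
  obtain ⟨D, hDx, hDy⟩ := exists_der ⁅gy k, h₂⁆
  obtain ⟨D', hDx', hDy'⟩ := exists_der ⁅gy k, g⁆
  refine ⟨_, H.br h₂ a1 g h1 D D' ⟨hDx, hDy⟩ ⟨hDx', hDy'⟩, ?_, ?_, fun v =>
    symbol_bracket a2 h2 D D' hDx hDy hDx' hDy' v⟩
  · refine (gamma k _).sub_mem ((gamma k _).add_mem ?_ ?_) ?_
    · exact LieSubmodule.lie_mem_lie (D2_le_D1 a2) h2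
    · exact der_gamma D (s := 1) (by rw [hDx]; exact (gamma k 1).zero_mem)
        (by rw [hDy]; exact LieSubmodule.lie_mem _ a2) c h2
    · have := der_gamma D' (s := c) (by rw [hDx']; exact (gamma k c).zero_mem)
        (by rw [hDy']; exact LieSubmodule.lie_mem _ h2) 1 a2
      rwa [add_comm 1 c] at this
  · refine Submodule.sub_mem _ (Submodule.add_mem _ (lie_wt a3 h3) (der_wt a3 D hDx hDy h3)) ?_
    have := der_wt h3 D' hDx' hDy' a3
    rwa [add_comm m] at this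

theorem E_rename (φ : ℕ → ℕ) (u : FA k) (i j : ℕ) :
    E k (vv k ∘ φ) u i j = MvPolynomial.rename (Prod.map φ id) (E k (vv k) u i j) := by
  have h : vv k ∘ φ = fun l => (MvPolynomial.rename (Prod.map φ id) (vv k l).1,
      MvPolynomial.rename (Prod.map φ id) (vv k l).2) := by
    funext l
    simp [vv]
  rw [h, E_nat]

theorem E_rename_ne {φ : ℕ → ℕ} (hφ : Function.Injective φ) {u : FA k} {i j : ℕ}
    (h : E k (vv k) u i j ≠ 0) : E k (vv k ∘ φ) u i j ≠ 0 := by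
  rw [E_rename]
  intro h0
  exact h ((map_eq_zero_iff _ (MvPolynomial.rename_injective _
    (Prod.map_injective.mpr ⟨hφ, Function.injective_id⟩))).mp h0)

theorem skip_inj (p s : ℕ) : Function.Injective (skip p s) := by
  intro a b h
  unfold skip at h
  split_ifs at h <;> omega

open Polynomial in
theorem sep_Q (P : (KK k)[X]) (N : ℕ)
    (h1 : P.eval (nd 0 (vv k) 0 2 ^ 2) ≠ 0)
    (h2 : ∀ (t : Fin 3) (p q : ℕ), p < q → q < N → (t, p, q) ≠ (0, 0, 2) →
        P.eval (nd t (vv k) p q ^ 2) = 0) (hN : 2 < N) :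
    Qf P (dX (vv k) 0 2) (dY (vv k) 0 2) ≠ 0 ∧
    ∀ p q, p < q → q < N → (p, q) ≠ (0, 2) → Qf P (dX (vv k) p q) (dY (vv k) p q) = 0 := by
  constructor
  · have e1 := h2 1 0 2 (by norm_num) hN (by decide)
    have e2 := h2 2 0 2 (by norm_num) hN (by decide)
    rw [nd_one] at e1
    rw [nd_two] at e2
    rw [nd_zero] at h1
    rw [Qf, e1, e2, mul_zero, mul_zero, sub_zero, zero_sub]
    exact neg_ne_zero.mpr (mul_ne_zero (pow_ne_zero 3 (nd_ne_zero (k := k) 0 (by norm_num))) h1)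
  · intro p q hpq hq hne
    have e : ∀ t : Fin 3, (t, p, q) ≠ (0, 0, 2) := by
      intro t ht
      exact hne (congrArg Prod.snd ht)
    have e0 := h2 0 p q hpq hq (e 0)
    have e1 := h2 1 p q hpq hq (e 1)
    have e2 := h2 2 p q hpq hq (e 2)
    rw [nd_zero] at e0
    rw [nd_one] at e1
    rw [nd_two] at e2
    rw [Qf, e0, e1, e2]
    ring

open Polynomial in
/-- the class goes up -/
theorem Hyp.step [CharZero k] {𝔤 : Submodule k (F2 k)} (H : Hyp 𝔤) {m₂ c m : ℕ} {h₂ h : F2 k}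
    (a1 : h₂ ∈ 𝔤) (a2 : h₂ ∈ gamma k 1) (a3 : h₂ ∈ wt k m₂)
    (a4 : E k (vv k) (toAssoc k h₂) 0 2 ≠ 0) (hc : 1 ≤ c) (h1 : h ∈ 𝔤)
    (h2 : h ∈ gamma k c) (h3 : h ∈ wt k m) (h4 : E k (vv k) (toAssoc k h) 0 (c + 1) ≠ 0)
    (h5 : c = 1 → h = h₂) :
    ∃ n, ∃ e ∈ 𝔤, e ∈ gamma k (c + 1) ∧ e ∈ wt k n ∧
      E k (vv k) (toAssoc k e) 0 (c + 2) ≠ 0 := by
  by_contra hcon
  push Not at hcon
  obtain ⟨P, hP1, hP2⟩ := exists_sep (k := k) (c + 3) 0 (p₀ := 0) (q₀ := 2) (by norm_num)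
  obtain ⟨hQ1, hQ2⟩ := sep_Q P (c + 3) hP1 hP2 (by omega)
  have hg : ∀ n : ℕ, ∃ g ∈ 𝔤, g ∈ gamma k c ∧ g ∈ wt k (2 * n + 3 + m) ∧
      ∀ (v : ℕ → KK k × KK k) (p : ℕ),
      ((2 * n + 3 : ℕ) : KK k) * E k v (toAssoc k g) p (p + (c + 1)) =
        Top (2 * n + 3) (c + 1) v p * E k v (toAssoc k h) p (p + (c + 1)) := fun n =>
    H.act h1 h2 h3 ⟨n + 1, by ring⟩ (by omega)
  choose g g1 g2 g3 g4 using hg
  have he : ∀ n : ℕ, ∃ e ∈ 𝔤, e ∈ gamma k (c + 1) ∧ e ∈ wt k (m₂ + (2 * n + 3 + m)) ∧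
      ∀ (v : ℕ → KK k × KK k),
      E k v (toAssoc k e) 0 (c + 2) =
      ∑ i ∈ range (c + 1), E k (v ∘ skip i 1) (toAssoc k (g n)) 0 (c + 1) *
        (dY v i (i + 2) * E k v (toAssoc k h₂) i (i + 2)) -
      ∑ i ∈ range 2, E k (v ∘ skip i c) (toAssoc k h₂) 0 2 *
        (dY v i (i + (c + 1)) * E k v (toAssoc k (g n)) i (i + (c + 1))) := fun n =>
    H.bra a1 a2 a3 (g1 n) (g2 n) (g3 n)
  choose e e1 e2 e3 e4 using he
  have hz : ∀ n, E k (vv k) (toAssoc k (e n)) 0 (c + 2) = 0 := fun n =>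
    hcon _ (e n) (e1 n) (e2 n) (e3 n)
  -- multiply by the exponents
  have hF : ∀ n : ℕ, ∑ i ∈ range (c + 1), Top (2 * n + 3) (c + 1) (vv k ∘ skip i 1) 0 *
        (E k (vv k ∘ skip i 1) (toAssoc k h) 0 (c + 1) *
        (dY (vv k) i (i + 2) * E k (vv k) (toAssoc k h₂) i (i + 2))) -
      ∑ i ∈ range 2, Top (2 * n + 3) (c + 1) (vv k) i *
        (E k (vv k ∘ skip i c) (toAssoc k h₂) 0 2 *
        (dY (vv k) i (i + (c + 1)) * E k (vv k) (toAssoc k h) i (i + (c + 1)))) = 0 := by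
    intro n
    have h6 := e4 n (vv k)
    rw [hz n] at h6
    have h7 := congrArg (fun z => ((2 * n + 3 : ℕ) : KK k) * z) h6
    simp only [mul_zero, mul_sub, Finset.mul_sum] at h7
    rw [h7]
    congr 1
    · refine Finset.sum_congr rfl fun i _ => ?_
      have := g4 n (vv k ∘ skip i 1) 0
      rw [zero_add] at this
      linear_combination (-(dY (vv k) i (i + 2) * E k (vv k) (toAssoc k h₂) i (i + 2))) * this
    · refine Finset.sum_congr rfl fun i _ => ?_
      have := g4 n (vv k) i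
      linear_combination (-(E k (vv k ∘ skip i c) (toAssoc k h₂) 0 2 *
        dY (vv k) i (i + (c + 1)))) * this
  have hL : Lam P (fun n => ∑ i ∈ range (c + 1), Top (2 * n + 3) (c + 1) (vv k ∘ skip i 1) 0 *
        (E k (vv k ∘ skip i 1) (toAssoc k h) 0 (c + 1) *
        (dY (vv k) i (i + 2) * E k (vv k) (toAssoc k h₂) i (i + 2))) -
      ∑ i ∈ range 2, Top (2 * n + 3) (c + 1) (vv k) i *
        (E k (vv k ∘ skip i c) (toAssoc k h₂) 0 2 *
        (dY (vv k) i (i + (c + 1)) * E k (vv k) (toAssoc k h) i (i + (c + 1))))) = 0 := by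
    simp only [Lam]
    refine Finset.sum_eq_zero fun n _ => ?_
    rw [hF n, mul_zero]
  rw [Lam_sub, Lam_sum, Lam_sum] at hL
  simp only [Lam_mul, Lam_Top] at hL
  -- the values of the multipliers
  have t1 : TopQ P (c + 1) (vv k ∘ skip 0 1) 0 = Qf P (dX (vv k) 0 2) (dY (vv k) 0 2) := by
    rw [TopQ, Finset.sum_range_succ']
    have z1 : ∑ i ∈ range c, Qf P (dX (vv k ∘ skip 0 1) (0 + (i + 1)) (0 + (i + 1) + 1))
        (dY (vv k ∘ skip 0 1) (0 + (i + 1)) (0 + (i + 1) + 1)) = 0 := by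
      refine Finset.sum_eq_zero fun i hi => ?_
      rw [Finset.mem_range] at hi
      exact hQ2 (skip 0 1 (0 + (i + 1))) (skip 0 1 (0 + (i + 1) + 1))
        (by unfold skip; split_ifs <;> omega) (by unfold skip; split_ifs <;> omega)
        (by
          intro h
          have := congrArg Prod.fst h
          simp only [skip] at this
          split_ifs at this <;> omega)
    have z2 : Qf P (dX (vv k ∘ skip 0 1) 0 (0 + (c + 1))) (dY (vv k ∘ skip 0 1) 0 (0 + (c + 1)))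
        = 0 :=
      hQ2 (skip 0 1 0) (skip 0 1 (0 + (c + 1)))
        (by unfold skip; split_ifs <;> omega) (by unfold skip; split_ifs <;> omega)
        (by
          intro h
          have := congrArg Prod.snd h
          simp only [skip] at this
          split_ifs at this <;> omega)
    rw [z1, z2, zero_add, sub_zero]
    rfl
  have t2 : ∀ i ∈ range (c + 1), i ≠ 0 → TopQ P (c + 1) (vv k ∘ skip i 1) 0 = 0 := by
    intro i hi hi0
    rw [Finset.mem_range] at hi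
    rw [TopQ]
    have z1 : ∑ j ∈ range (c + 1), Qf P (dX (vv k ∘ skip i 1) (0 + j) (0 + j + 1))
        (dY (vv k ∘ skip i 1) (0 + j) (0 + j + 1)) = 0 := by
      refine Finset.sum_eq_zero fun j hj => ?_
      rw [Finset.mem_range] at hj
      exact hQ2 (skip i 1 (0 + j)) (skip i 1 (0 + j + 1))
        (by unfold skip; split_ifs <;> omega) (by unfold skip; split_ifs <;> omega)
        (by
          intro h
          have h1 := congrArg Prod.fst h
          have h2 := congrArg Prod.snd h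
          simp only [skip] at h1 h2
          split_ifs at h1 h2 <;> omega)
    have z2 : Qf P (dX (vv k ∘ skip i 1) 0 (0 + (c + 1))) (dY (vv k ∘ skip i 1) 0 (0 + (c + 1)))
        = 0 :=
      hQ2 (skip i 1 0) (skip i 1 (0 + (c + 1)))
        (by unfold skip; split_ifs <;> omega) (by unfold skip; split_ifs <;> omega)
        (by
          intro h
          have := congrArg Prod.snd h
          simp only [skip] at this
          split_ifs at this <;> omega)
    rw [z1, z2, sub_zero]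
  have t3 : TopQ P (c + 1) (vv k) 1 = 0 := by
    rw [TopQ]
    have z1 : ∑ j ∈ range (c + 1), Qf P (dX (vv k) (1 + j) (1 + j + 1))
        (dY (vv k) (1 + j) (1 + j + 1)) = 0 := by
      refine Finset.sum_eq_zero fun j hj => ?_
      rw [Finset.mem_range] at hj
      exact hQ2 _ _ (by omega) (by omega) (by
        intro h
        have h1 := congrArg Prod.fst h
        simp only at h1
        omega)
    rw [z1, hQ2 _ _ (by omega) (by omega) (by
        intro h
        have h1 := congrArg Prod.fst h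
        simp only at h1
        omega), sub_zero]
  have t4 : TopQ P (c + 1) (vv k) 0 =
      if c = 1 then - Qf P (dX (vv k) 0 2) (dY (vv k) 0 2) else 0 := by
    rw [TopQ]
    have z1 : ∑ j ∈ range (c + 1), Qf P (dX (vv k) (0 + j) (0 + j + 1))
        (dY (vv k) (0 + j) (0 + j + 1)) = 0 := by
      refine Finset.sum_eq_zero fun j hj => ?_
      rw [Finset.mem_range] at hj
      exact hQ2 _ _ (by omega) (by omega) (by
        intro h
        have h1 := congrArg Prod.fst h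
        have h2 := congrArg Prod.snd h
        simp only at h1 h2
        omega)
    rw [z1]
    split_ifs with hc1
    · subst hc1
      rw [zero_sub]
    · rw [hQ2 _ _ (by omega) (by omega) (by
        intro h
        have h2 := congrArg Prod.snd h
        simp only at h2
        omega), sub_zero]
  rw [Finset.sum_eq_single_of_mem 0 (by simp) (fun i hi hi0 => by rw [t2 i hi hi0, zero_mul]),
    Finset.sum_range_succ, Finset.sum_range_one, t1, t3, zero_mul, add_zero, t4] at hL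
  have n1 := E_rename_ne (skip_inj 0 1) h4
  have n2 : dY (vv k) 0 (0 + 2) ≠ 0 := nd_ne_zero (k := k) 1 (by norm_num)
  by_cases hc1 : c = 1
  · have hh := h5 hc1
    subst hc1
    subst hh
    rw [if_pos rfl] at hL
    have n3 : (2 : KK k) ≠ 0 := two_ne_zero
    have : (2 : KK k) * Qf P (dX (vv k) 0 2) (dY (vv k) 0 2) *
        E k (vv k ∘ skip 0 1) (toAssoc k h) 0 2 * dY (vv k) 0 (0 + 2) *
        E k (vv k) (toAssoc k h) 0 2 = 0 := by
      simp only [zero_add] at hL ⊢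
      linear_combination hL
    exact (mul_ne_zero (mul_ne_zero (mul_ne_zero (mul_ne_zero n3 hQ1) n1) n2) a4) this
  · rw [if_neg hc1, zero_mul, sub_zero] at hL
    refine (mul_ne_zero hQ1 (mul_ne_zero n1 (mul_ne_zero n2 ?_))) hL
    exact a4

/-- every class contains an element with nonzero symbol -/
theorem Hyp.exists_all [CharZero k] {𝔤 : Submodule k (F2 k)} (H : Hyp 𝔤) {m₂ : ℕ} {h₂ : F2 k}
    (a1 : h₂ ∈ 𝔤) (a2 : h₂ ∈ gamma k 1) (a3 : h₂ ∈ wt k m₂)
    (a4 : E k (vv k) (toAssoc k h₂) 0 2 ≠ 0) (c : ℕ) (hc : 1 ≤ c) :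
    ∃ n, ∃ e ∈ 𝔤, e ∈ gamma k c ∧ e ∈ wt k n ∧ E k (vv k) (toAssoc k e) 0 (c + 1) ≠ 0 := by
  rcases Nat.lt_or_ge c 2 with h | h
  · have : c = 1 := by omega
    subst this
    exact ⟨m₂, h₂, a1, a2, a3, a4⟩
  · obtain ⟨d, rfl⟩ := Nat.exists_eq_add_of_le h
    induction d with
    | zero =>
      obtain ⟨n, e, h1, h2, h3, h4⟩ := H.step (c := 1) a1 a2 a3 a4 le_rfl a1 a2 a3 a4 (fun _ => rfl)
      exact ⟨n, e, h1, h2, h3, h4⟩
    | succ d ih =>
      obtain ⟨n, e, h1, h2, h3, h4⟩ := ih (by omega) (by omega)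
      obtain ⟨n', e', g1, g2, g3, g4⟩ := H.step (c := 2 + d) a1 a2 a3 a4 (by omega) h1 h2 h3 h4
        (by omega)
      exact ⟨n', e', g1, g2, g3, g4⟩

end step

end Pool.Agent.D0H31.GT
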