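import Pool.Agent.D0H31.GT.Lcs
import Pool.Agent.Helper392_GT.LB

/-!
# The symbols of the Ihara brackets
-/

namespace Pool.Agent.D0H31.GT

open Pool.Agent.Helper392_GT Finset

universe u

attribute [local instance 100] LieRing.ofAssociativeRing

section entries

variable {k : Type u} [CommRing k] {K : Type u} [CommRing K] [Algebra k K]

theorem D2_gamma {u : F2 k} (hu : u ∈ D2 k) : u ∈ gamma k 1 := hu

/-- `x`-difference of two vertices -/
def dX (v : ℕ → K × K) (p q : ℕ) : K := (v p).1 - (v q).1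
/-- `y`-difference of two vertices -/
def dY (v : ℕ → K × K) (p q : ℕ) : K := (v p).2 - (v q).2

theorem E_lie_x (v : ℕ → K × K) (u : F2 k) (p : ℕ) :
    E k v (toAssoc k ⁅gx k, u⁆) p (p + 1) = dX v p (p + 1) * E k v (toAssoc k u) p (p + 1) := by
  rw [toAssoc_lie, E_sub, E_two, E_two, toAssoc_x, E_x, Ax_apply, Ax_apply, Ax_apply, if_pos rfl,
    if_pos rfl, if_neg (by omega), dX]
  ring

theorem E_lie_y (v : ℕ → K × K) {u : F2 k} (hu : u ∈ D1 k) (p : ℕ) :
    E k v (toAssoc k ⁅gy k, u⁆) p (p + 1) = dY v p (p + 1) * E k v (toAssoc k u) p (p + 1) := by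
  have h1 := FL_D1 (K := K) hu v p p (by omega)
  have h2 := FL_D1 (K := K) hu v (p + 1) (p + 1) (by omega)
  rw [toAssoc_lie, E_sub, E_two, E_two, toAssoc_y, E_y, By_apply, By_apply, By_apply, if_pos rfl,
    if_pos rfl, if_neg (by omega), if_pos rfl, h1, h2, dY]
  ring

theorem E_gc (v : ℕ → K × K) (p : ℕ) :
    E k v (toAssoc k (gc k)) p (p + 1) = dX v p (p + 1) := by
  rw [gc, E_lie_x, toAssoc_y, E_y, By_apply, if_neg (by omega), if_pos rfl, mul_one]

theorem E_gm (v : ℕ → K × K) (f : P2 k) (p : ℕ) :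
    E k v (toAssoc k (gm k f)) p (p + 1) =
      ev2 (dX v p (p + 1)) (dY v p (p + 1)) f * dX v p (p + 1) := by
  refine P2_ind (fun f => E k v (toAssoc k (gm k f)) p (p + 1) =
      ev2 (dX v p (p + 1)) (dY v p (p + 1)) f * dX v p (p + 1)) ?_ ?_ ?_ ?_ f
  · intro f g hf hg
    rw [map_add, map_add, E_add, hf, hg, map_add, add_mul]
  · intro a
    rw [gm_algebraMap, map_smul, E_smul, E_gc, AlgHom.commutes, Algebra.smul_def]
  · intro f hf
    have h1 : gm k (px * f) = (gm k (px * f) - ⁅gx k, gm k f⁆) + ⁅gx k, gm k f⁆ := by abel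
    have h2 := FL_gamma (K := K) 1 (D2_gamma (gm_px_mul f)) v p (p + 1) (by omega)
    rw [h1, map_add, E_add, h2, E_lie_x, hf, map_mul, ev2_px]
    ring
  · intro f hf
    rw [gm_py_mul, E_lie_y v (gm_mem f), hf, map_mul, ev2_py]
    ring

theorem E_sigma {σ : F2 k} {f : P2 k} (hf : σ - gm k f ∈ D2 k) (v : ℕ → K × K) (p : ℕ) :
    E k v (toAssoc k σ) p (p + 1) =
      ev2 (dX v p (p + 1)) (dY v p (p + 1)) f * dX v p (p + 1) := by
  have h1 : σ = (σ - gm k f) + gm k f := by abel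
  have h2 := FL_gamma (K := K) 1 (D2_gamma hf) v p (p + 1) (by omega)
  rw [h1, map_add, E_add, h2, E_gm, zero_add]

/-- the polynomials `(x + y)^n - x^n - y^n` -/
def qn (n : ℕ) (a b : K) : K := (a + b) ^ n - a ^ n - b ^ n

/-- The element `σ` acts at level one through `(x + y)^n - x^n - y^n`. -/
def IsSig (σ : F2 k) (n : ℕ) : Prop :=
  σ ∈ D1 k ∧ ∃ f : P2 k, σ - gm k f ∈ D2 k ∧
    algebraMap k (P2 k) n * (px * py * f) = (px + py) ^ n - px ^ n - py ^ n

theorem IsSig.entry {σ : F2 k} {n : ℕ} (h : IsSig σ n) (v : ℕ → K × K) (p : ℕ) :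
    (n : K) * (dY v p (p + 1) * E k v (toAssoc k σ) p (p + 1)) =
      qn n (dX v p (p + 1)) (dY v p (p + 1)) := by
  obtain ⟨-, f, hf, he⟩ := h
  have h1 := congrArg (ev2 (k := k) (dX v p (p + 1)) (dY v p (p + 1))) he
  simp only [map_mul, map_sub, map_add, map_pow, ev2_px, ev2_py, AlgHom.commutes, map_natCast]
    at h1
  rw [E_sigma hf, qn, ← h1]
  ring

/-- the multiplier of `σ_n` on the elements of class `c` -/
def Top (n c : ℕ) (v : ℕ → K × K) (m : ℕ) : K :=
  ∑ i ∈ range c, qn n (dX v (m + i) (m + i + 1)) (dY v (m + i) (m + i + 1)) -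
    qn n (dX v m (m + c)) (dY v m (m + c))

theorem skip_zero (p j : ℕ) : skip p 0 j = j := by
  unfold skip; split_ifs <;> rfl

theorem comp_skip_zero (v : ℕ → K × K) (p : ℕ) : v ∘ skip p 0 = v := by
  funext j
  simp only [Function.comp_apply, skip_zero]

/-- `σ_n` acts on the symbols through its multiplier -/
theorem symbol_act {σ : F2 k} {n : ℕ} (hσ : IsSig σ n) {c : ℕ} {h : F2 k} (hh : h ∈ gamma k c)
    (D D' : LieDerivation k (F2 k) (F2 k)) (hx : D (gx k) = 0) (hy : D (gy k) = ⁅gy k, σ⁆)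
    (hx' : D' (gx k) = 0) (hy' : D' (gy k) = ⁅gy k, h⁆) (v : ℕ → K × K) (m : ℕ) :
    (n : K) * E k v (toAssoc k (⁅σ, h⁆ + D h - D' σ)) m (m + (c + 1)) =
      Top n (c + 1) v m * E k v (toAssoc k h) m (m + (c + 1)) := by
  have hσ1 : σ ∈ gamma k 0 := hσ.1
  have h0 : E k v (toAssoc k ⁅σ, h⁆) m (m + (c + 1)) = 0 := by
    have := gamma_lie 0 c σ h hσ1 hh
    exact FL_gamma (K := K) _ this v m _ (by omega)
  have h1 := (DF_gamma (K := K) (s := 0) (FL_gamma (K := K) 0 hσ1) D hx hy c hh).eq v m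
  have h2 := (DF_gamma (K := K) (s := c) (δ := h)
    (by have := FL_gamma (K := K) c hh; rwa [add_comm] at this) D' hx' hy' 0 hσ1).eq v m
  rw [add_zero (c + 1)] at h1
  rw [show 0 + 1 + c = c + 1 by ring, show 0 + 1 = 1 from rfl, Finset.sum_range_one,
    add_zero m] at h2
  rw [map_sub, map_add, E_sub, E_add, h0, h1, h2, zero_add, mul_sub, Finset.mul_sum, Top, sub_mul,
    Finset.sum_mul]
  congr 1
  · refine Finset.sum_congr rfl fun i _ => ?_
    rw [comp_skip_zero, ← hσ.entry v (m + i), ww]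
    simp only [add_zero, dY]
    ring
  · have h3 := hσ.entry (K := K) (v ∘ skip m c) m
    have e1 : dX (v ∘ skip m c) m (m + 1) = dX v m (m + (c + 1)) := by
      simp only [dX, Function.comp_apply]
      rw [skip_le le_rfl, skip_gt (by omega), show m + 1 + c = m + (c + 1) by ring]
    have e2 : dY (v ∘ skip m c) m (m + 1) = dY v m (m + (c + 1)) := by
      simp only [dY, Function.comp_apply]
      rw [skip_le le_rfl, skip_gt (by omega), show m + 1 + c = m + (c + 1) by ring]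
    rw [e1, e2] at h3
    rw [← h3, ww, show 1 + c = c + 1 by ring, dY]
    ring

/-- the symbol of the bracket of an element of class two and an element of class `c + 1` -/
theorem symbol_bracket {h₂ g : F2 k} (hh₂ : h₂ ∈ gamma k 1) {c : ℕ} (hg : g ∈ gamma k c)
    (D D' : LieDerivation k (F2 k) (F2 k)) (hx : D (gx k) = 0) (hy : D (gy k) = ⁅gy k, h₂⁆)
    (hx' : D' (gx k) = 0) (hy' : D' (gy k) = ⁅gy k, g⁆) (v : ℕ → K × K) :
    E k v (toAssoc k (⁅h₂, g⁆ + D g - D' h₂)) 0 (c + 2) =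
      ∑ i ∈ range (c + 1), E k (v ∘ skip i 1) (toAssoc k g) 0 (c + 1) *
        (dY v i (i + 2) * E k v (toAssoc k h₂) i (i + 2)) -
      ∑ i ∈ range 2, E k (v ∘ skip i c) (toAssoc k h₂) 0 2 *
        (dY v i (i + (c + 1)) * E k v (toAssoc k g) i (i + (c + 1))) := by
  have h0 : E k v (toAssoc k ⁅h₂, g⁆) 0 (c + 2) = 0 := by
    have := gamma_lie 1 c h₂ g hh₂ hg
    exact FL_gamma (K := K) _ this v 0 _ (by omega)
  have h1 := (DF_gamma (K := K) (s := 1) (FL_gamma (K := K) 1 hh₂) D hx hy c hg).eq v 0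
  have h2 := (DF_gamma (K := K) (s := c) (δ := g)
    (by have := FL_gamma (K := K) c hg; rwa [add_comm] at this) D' hx' hy' 1 hh₂).eq v 0
  simp only [zero_add] at h1 h2
  rw [show c + 1 + 1 = c + 2 from rfl] at h1
  rw [show 1 + 1 = 2 from rfl, show 2 + c = c + 2 by ring] at h2
  rw [map_sub, map_add, E_sub, E_add, h0, h1, h2, zero_add]
  congr 1
  refine Finset.sum_congr rfl fun i _ => ?_
  rw [ww, show 1 + c = c + 1 by ring]
  rfl

end entries

end Pool.Agent.D0H31.GT
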