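import Pool.Agent.D0H31.GT.Lower

/-!
# The upper bound
-/

namespace Pool.Agent.D0H31.GT

open Pool.Agent.Helper392_GT Finset

universe u

section upper

variable {k : Type u} [CommRing k]

/-- `ad(x)^a ad(y)^b [x, y]` -/
noncomputable def ub (k : Type u) [CommRing k] (a b : ℕ) : F2 k :=
  ((LieAlgebra.ad k (F2 k) (gx k)) ^ a) (((LieAlgebra.ad k (F2 k) (gy k)) ^ b) (gc k))

theorem ub_x (a b : ℕ) : ⁅gx k, ub k a b⁆ = ub k (a + 1) b := by
  rw [ub, ub, pow_succ']; rfl

theorem ub_y (b : ℕ) : ⁅gy k, ub k 0 b⁆ = ub k 0 (b + 1) := by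
  rw [ub, ub, pow_zero, pow_succ']; rfl

theorem ub_zero : ub k 0 0 = gc k := by
  rw [ub, pow_zero, pow_zero]; rfl

theorem ub_mem (a b : ℕ) : ub k a b ∈ D1 k := by
  induction a with
  | zero =>
    induction b with
    | zero => rw [ub_zero]; exact mem_D1 (gx k) (gy k)
    | succ b _ => rw [← ub_y]; exact mem_D1 _ _
  | succ a _ => rw [← ub_x]; exact mem_D1 _ _

/-- the span of the left-normed brackets of `j + 1` elements `ad(x)^a ad(y)^b [x, y]` of total
weight `n` -/
noncomputable def BV (k : Type u) [CommRing k] : ℕ → ℕ → Submodule k (F2 k)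
  | 0, n => Submodule.span k {v | ∃ a b, a + b + 2 = n ∧ v = ub k a b}
  | (j + 1), n => Submodule.span k
      {v | ∃ a b m, a + b + 2 + m = n ∧ ∃ w ∈ BV k j m, v = ⁅ub k a b, w⁆}

theorem ub_BV (a b : ℕ) : ub k a b ∈ BV k 0 (a + b + 2) :=
  Submodule.subset_span ⟨a, b, rfl, rfl⟩

theorem BV_zero_ind {n : ℕ} (Q : F2 k → Prop) (h0 : Q 0) (hadd : ∀ a b, Q a → Q b → Q (a + b))
    (hsmul : ∀ (c : k) a, Q a → Q (c • a)) (h : ∀ a b, a + b + 2 = n → Q (ub k a b))
    {u : F2 k} (hu : u ∈ BV k 0 n) : Q u := by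
  change u ∈ Submodule.span k _ at hu
  induction hu using Submodule.span_induction with
  | mem x hx => obtain ⟨a, b, hab, rfl⟩ := hx; exact h a b hab
  | zero => exact h0
  | add a b _ _ ha hb => exact hadd a b ha hb
  | smul c a _ ha => exact hsmul c a ha

theorem BV_succ_ind {j n : ℕ} (Q : F2 k → Prop) (h0 : Q 0) (hadd : ∀ a b, Q a → Q b → Q (a + b))
    (hsmul : ∀ (c : k) a, Q a → Q (c • a))
    (h : ∀ a b m, a + b + 2 + m = n → ∀ w ∈ BV k j m, Q ⁅ub k a b, w⁆)
    {u : F2 k} (hu : u ∈ BV k (j + 1) n) : Q u := by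
  change u ∈ Submodule.span k _ at hu
  induction hu using Submodule.span_induction with
  | mem x hx => obtain ⟨a, b, m, hab, w, hw, rfl⟩ := hx; exact h a b m hab w hw
  | zero => exact h0
  | add a b _ _ ha hb => exact hadd a b ha hb
  | smul c a _ ha => exact hsmul c a ha

theorem BV_gamma (j : ℕ) : ∀ n, ∀ u ∈ BV k j n, u ∈ gamma k j := by
  induction j with
  | zero =>
    intro n u hu
    exact BV_zero_ind (fun u => u ∈ gamma k 0) (gamma k 0).zero_mem
      (fun a b => (gamma k 0).add_mem) (fun c a => (gamma k 0).smul_mem c)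
      (fun a b _ => ub_mem a b) hu
  | succ j ih =>
    intro n u hu
    exact BV_succ_ind (fun u => u ∈ gamma k (j + 1)) (gamma k _).zero_mem
      (fun a b => (gamma k _).add_mem) (fun c a => (gamma k _).smul_mem c)
      (fun a b m _ w hw => LieSubmodule.lie_mem_lie (ub_mem a b) (ih m w hw)) hu

theorem BV_ub_lie (a b : ℕ) {j m : ℕ} {w : F2 k} (hw : w ∈ BV k j m) :
    ⁅ub k a b, w⁆ ∈ BV k (j + 1) (a + b + 2 + m) :=
  Submodule.subset_span ⟨a, b, m, rfl, w, hw, rfl⟩

theorem BV_lie (i : ℕ) : ∀ (n j m : ℕ), ∀ u ∈ BV k i n, ∀ v ∈ BV k j m,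
    ⁅u, v⁆ ∈ BV k (i + j + 1) (n + m) := by
  induction i with
  | zero =>
    intro n j m u hu v hv
    refine BV_zero_ind (fun u => ⁅u, v⁆ ∈ BV k (0 + j + 1) (n + m)) ?_ ?_ ?_ ?_ hu
    · rw [zero_lie]; exact Submodule.zero_mem _
    · intro a b ha hb; rw [add_lie]; exact Submodule.add_mem _ ha hb
    · intro c a ha; rw [smul_lie]; exact Submodule.smul_mem _ _ ha
    · intro a b hab
      rw [← hab, zero_add]; exact BV_ub_lie a b hv
  | succ i ih =>
    intro n j m u hu v hv
    refine BV_succ_ind (fun u => ⁅u, v⁆ ∈ BV k (i + 1 + j + 1) (n + m)) ?_ ?_ ?_ ?_ hu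
    · rw [zero_lie]; exact Submodule.zero_mem _
    · intro a b ha hb; rw [add_lie]; exact Submodule.add_mem _ ha hb
    · intro c a ha; rw [smul_lie]; exact Submodule.smul_mem _ _ ha
    · intro a b m' hab w hw
      rw [lie_lie]
      refine Submodule.sub_mem _ ?_ ?_
      · have h1 := BV_ub_lie a b (ih m' j m w hw v hv)
        rwa [show i + j + 1 + 1 = i + 1 + j + 1 by ring,
          show a + b + 2 + (m' + m) = n + m by omega] at h1
      · have h1 := ih m' (j + 1) _ w hw _ (BV_ub_lie a b hv)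
        rwa [show i + (j + 1) + 1 = i + 1 + j + 1 by ring,
          show m' + (a + b + 2 + m) = n + m by omega] at h1

theorem BV_x (j : ℕ) : ∀ n, ∀ u ∈ BV k j n, ⁅gx k, u⁆ ∈ BV k j (n + 1) := by
  induction j with
  | zero =>
    intro n u hu
    refine BV_zero_ind (fun u => ⁅gx k, u⁆ ∈ BV k 0 (n + 1)) ?_ ?_ ?_ ?_ hu
    · rw [lie_zero]; exact Submodule.zero_mem _
    · intro a b ha hb; rw [lie_add]; exact Submodule.add_mem _ ha hb
    · intro c a ha; rw [lie_smul]; exact Submodule.smul_mem _ _ ha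
    · intro a b hab
      rw [ub_x]
      have := ub_BV (k := k) (a + 1) b
      rwa [show a + 1 + b + 2 = n + 1 by omega] at this
  | succ j ih =>
    intro n u hu
    refine BV_succ_ind (fun u => ⁅gx k, u⁆ ∈ BV k (j + 1) (n + 1)) ?_ ?_ ?_ ?_ hu
    · rw [lie_zero]; exact Submodule.zero_mem _
    · intro a b ha hb; rw [lie_add]; exact Submodule.add_mem _ ha hb
    · intro c a ha; rw [lie_smul]; exact Submodule.smul_mem _ _ ha
    · intro a b m hab w hw
      rw [leibniz_lie, ub_x]
      refine Submodule.add_mem _ ?_ ?_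
      · have := BV_ub_lie (a + 1) b hw
        rwa [show a + 1 + b + 2 + m = n + 1 by omega] at this
      · have := BV_ub_lie a b (ih m w hw)
        rwa [show a + b + 2 + (m + 1) = n + 1 by omega] at this

/-- at least `j + 1` factors -/
noncomputable def GV (k : Type u) [CommRing k] (j n : ℕ) : Submodule k (F2 k) :=
  Submodule.span k {v | ∃ i, j ≤ i ∧ v ∈ BV k i n}

theorem BV_le_GV {i j n : ℕ} (h : j ≤ i) {u : F2 k} (hu : u ∈ BV k i n) : u ∈ GV k j n :=
  Submodule.subset_span ⟨i, h, hu⟩

theorem GV_lie {i j n m : ℕ} {u v : F2 k} (hu : u ∈ GV k i n) (hv : v ∈ GV k j m) :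
    ⁅u, v⁆ ∈ GV k (i + j + 1) (n + m) := by
  rw [GV] at hu
  induction hu using Submodule.span_induction with
  | mem x hx =>
    obtain ⟨i', hi', hx⟩ := hx
    rw [GV] at hv
    induction hv using Submodule.span_induction with
    | mem z hz =>
      obtain ⟨j', hj', hz⟩ := hz
      exact BV_le_GV (by omega) (BV_lie i' n j' m x hx z hz)
    | zero => rw [lie_zero]; exact Submodule.zero_mem _
    | add a b _ _ ha hb => rw [lie_add]; exact Submodule.add_mem _ ha hb
    | smul c a _ ha => rw [lie_smul]; exact Submodule.smul_mem _ _ ha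
  | zero => rw [zero_lie]; exact Submodule.zero_mem _
  | add a b _ _ ha hb => rw [add_lie]; exact Submodule.add_mem _ ha hb
  | smul c a _ ha => rw [smul_lie]; exact Submodule.smul_mem _ _ ha

theorem GV_x {j n : ℕ} {u : F2 k} (hu : u ∈ GV k j n) : ⁅gx k, u⁆ ∈ GV k j (n + 1) := by
  rw [GV] at hu
  induction hu using Submodule.span_induction with
  | mem x hx =>
    obtain ⟨i, hi, hx⟩ := hx
    exact BV_le_GV hi (BV_x i n x hx)
  | zero => rw [lie_zero]; exact Submodule.zero_mem _
  | add a b _ _ ha hb => rw [lie_add]; exact Submodule.add_mem _ ha hb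
  | smul c a _ ha => rw [lie_smul]; exact Submodule.smul_mem _ _ ha

theorem GV_anti {i j n : ℕ} (h : j ≤ i) : GV k i n ≤ GV k j n := by
  rw [GV, Submodule.span_le]
  rintro v ⟨l, hl, hv⟩
  exact BV_le_GV (h.trans hl) hv

theorem ub_y_GV (a : ℕ) : ∀ b, ⁅gy k, ub k a b⁆ ∈ GV k 0 (a + b + 3) := by
  induction a with
  | zero =>
    intro b
    rw [ub_y]
    have := ub_BV (k := k) 0 (b + 1)
    rw [show 0 + (b + 1) + 2 = 0 + b + 3 by ring] at this
    exact BV_le_GV le_rfl this
  | succ a ih =>
    intro b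
    rw [← ub_x, leibniz_lie]
    refine Submodule.add_mem _ ?_ ?_
    · have h1 : ⁅gy k, gx k⁆ = - ub k 0 0 := by rw [ub_zero, gc, lie_skew]
      rw [h1, neg_lie]
      refine Submodule.neg_mem _ ?_
      have := BV_ub_lie 0 0 (ub_BV (k := k) a b)
      rw [show 0 + 0 + 2 + (a + b + 2) = a + 1 + b + 3 by ring] at this
      exact BV_le_GV (Nat.zero_le _) this
    · have := GV_x (ih b)
      rwa [show a + b + 3 + 1 = a + 1 + b + 3 by ring] at this

theorem BV_y (j : ℕ) : ∀ n, ∀ u ∈ BV k j n, ⁅gy k, u⁆ ∈ GV k j (n + 1) := by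
  induction j with
  | zero =>
    intro n u hu
    refine BV_zero_ind (fun u => ⁅gy k, u⁆ ∈ GV k 0 (n + 1)) ?_ ?_ ?_ ?_ hu
    · rw [lie_zero]; exact Submodule.zero_mem _
    · intro a b ha hb; rw [lie_add]; exact Submodule.add_mem _ ha hb
    · intro c a ha; rw [lie_smul]; exact Submodule.smul_mem _ _ ha
    · intro a b hab
      have := ub_y_GV (k := k) a b
      rwa [show a + b + 3 = n + 1 by omega] at this
  | succ j ih =>
    intro n u hu
    refine BV_succ_ind (fun u => ⁅gy k, u⁆ ∈ GV k (j + 1) (n + 1)) ?_ ?_ ?_ ?_ hu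
    · rw [lie_zero]; exact Submodule.zero_mem _
    · intro a b ha hb; rw [lie_add]; exact Submodule.add_mem _ ha hb
    · intro c a ha; rw [lie_smul]; exact Submodule.smul_mem _ _ ha
    · intro a b m hab w hw
      rw [leibniz_lie]
      refine Submodule.add_mem _ ?_ ?_
      · have := GV_lie (ub_y_GV (k := k) a b) (BV_le_GV le_rfl hw)
        rwa [show 0 + j + 1 = j + 1 by ring, show a + b + 3 + m = n + 1 by omega] at this
      · have := GV_lie (BV_le_GV le_rfl (ub_BV (k := k) a b)) (ih m w hw)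
        rwa [show 0 + j + 1 = j + 1 by ring, show a + b + 2 + (m + 1) = n + 1 by omega] at this

theorem GV_y {j n : ℕ} {u : F2 k} (hu : u ∈ GV k j n) : ⁅gy k, u⁆ ∈ GV k j (n + 1) := by
  rw [GV] at hu
  induction hu using Submodule.span_induction with
  | mem x hx =>
    obtain ⟨i, hi, hx⟩ := hx
    exact GV_anti hi (BV_y i n x hx)
  | zero => rw [lie_zero]; exact Submodule.zero_mem _
  | add a b _ _ ha hb => rw [lie_add]; exact Submodule.add_mem _ ha hb
  | smul c a _ ha => rw [lie_smul]; exact Submodule.smul_mem _ _ ha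

theorem wt_le_GV (n : ℕ) : wt k (n + 2) ≤ GV k 0 (n + 2) := by
  induction n with
  | zero =>
    change Submodule.span k _ ≤ _
    rw [Submodule.span_le]
    have hgc : gc k ∈ GV k 0 (0 + 2) := BV_le_GV le_rfl (ub_BV (k := k) 0 0)
    rintro v ⟨u, hu, h⟩
    obtain ⟨r, s, rfl⟩ := Submodule.mem_span_pair.mp hu
    rcases h with rfl | rfl
    · have : ⁅gx k, r • gx k + s • gy k⁆ = s • gc k := by
        rw [lie_add, lie_smul, lie_smul, lie_self, smul_zero, zero_add]
      change ⁅gx k, r • gx k + s • gy k⁆ ∈ _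
      rw [this]
      exact Submodule.smul_mem _ _ hgc
    · have : ⁅gy k, r • gx k + s • gy k⁆ = (-r) • gc k := by
        rw [lie_add, lie_smul, lie_smul, lie_self, smul_zero, add_zero, neg_smul, ← smul_neg]
        congr 1
        rw [gc, lie_skew]
      change ⁅gy k, r • gx k + s • gy k⁆ ∈ _
      rw [this]
      exact Submodule.smul_mem _ _ hgc
  | succ n ih =>
    change Submodule.span k _ ≤ _
    rw [Submodule.span_le]
    rintro v ⟨u, hu, rfl | rfl⟩
    · exact GV_x (ih hu)
    · exact GV_y (ih hu)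

end upper

section dim

variable {k : Type u} [Field k]

/-- finite sums of the pieces -/
noncomputable def SV (k : Type u) [Field k] : ℕ → ℕ → Submodule k (F2 k)
  | 0, _ => ⊥
  | (c + 1), n => SV k c n ⊔ BV k c n

theorem BV_le_SV {i c : ℕ} (h : i < c) (n : ℕ) : BV k i n ≤ SV k c n := by
  induction c with
  | zero => omega
  | succ c ih =>
    rcases Nat.lt_or_ge i c with h1 | h1
    · exact (ih h1).trans le_sup_left
    · have : i = c := by omega
      subst this
      exact le_sup_right

theorem GV_le (c n : ℕ) : GV k 0 n ≤ SV k c n ⊔ (gamma k c).toSubmodule := by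
  rw [GV, Submodule.span_le]
  rintro v ⟨i, _, hv⟩
  rcases Nat.lt_or_ge i c with h | h
  · exact Submodule.mem_sup_left (BV_le_SV h n hv)
  · exact Submodule.mem_sup_right (gamma_anti h (BV_gamma i n v hv))

theorem BV_fin (j : ℕ) : ∀ n, Module.Finite k (BV k j n) ∧
    Module.finrank k (BV k j n) ≤ n ^ (2 * j + 1) := by
  classical
  induction j with
  | zero =>
    intro n
    have h1 : BV k 0 n ≤ Submodule.span k
        (((range n).image fun a => ub k a (n - 2 - a) : Finset (F2 k)) : Set (F2 k)) := by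
      change Submodule.span k _ ≤ _
      rw [Submodule.span_le]
      rintro v ⟨a, b, hab, rfl⟩
      refine Submodule.subset_span ?_
      rw [Finset.coe_image]
      refine ⟨a, by simp; omega, ?_⟩
      change ub k a (n - 2 - a) = ub k a b
      rw [show n - 2 - a = b by omega]
    have hfin : Module.Finite k (Submodule.span k
        (((range n).image fun a => ub k a (n - 2 - a) : Finset (F2 k)) : Set (F2 k))) :=
      Module.Finite.span_finset k _
    refine ⟨Submodule.finiteDimensional_of_le h1, ?_⟩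
    refine (Submodule.finrank_mono h1).trans ((finrank_span_finset_le_card _).trans ?_)
    refine Finset.card_image_le.trans ?_
    simp
  | succ j ih =>
    intro n
    let W : ℕ × ℕ → Submodule k (F2 k) := fun p =>
      (BV k j (n - 2 - p.1 - p.2)).map (LieAlgebra.ad k (F2 k) (ub k p.1 p.2))
    have hW : ∀ p, Module.Finite k (W p) ∧ Module.finrank k (W p) ≤ n ^ (2 * j + 1) := by
      intro p
      obtain ⟨f1, f2⟩ := ih (n - 2 - p.1 - p.2)
      refine ⟨Module.Finite.map _ _, (Submodule.finrank_map_le _ _).trans (f2.trans ?_)⟩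
      exact Nat.pow_le_pow_left (by omega) _
    have hs : ∀ s : Finset (ℕ × ℕ), Module.Finite k (s.sup W : Submodule k (F2 k)) ∧
        Module.finrank k (s.sup W : Submodule k (F2 k)) ≤ s.card * n ^ (2 * j + 1) := by
      intro s
      induction s using Finset.induction_on with
      | empty =>
        rw [Finset.sup_empty]
        refine ⟨inferInstance, ?_⟩
        rw [finrank_bot]
        exact Nat.zero_le _
      | insert p s hp ih2 =>
        obtain ⟨g1, g2⟩ := ih2
        obtain ⟨w1, w2⟩ := hW p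
        rw [Finset.sup_insert, Finset.card_insert_of_notMem hp]
        refine ⟨Submodule.finite_sup _ _, ?_⟩
        refine (Submodule.finrank_add_le_finrank_add_finrank _ _).trans ?_
        rw [add_mul, one_mul, add_comm]
        exact Nat.add_le_add g2 w2
    have h1 : BV k (j + 1) n ≤ (range n ×ˢ range n).sup W := by
      change Submodule.span k _ ≤ _
      rw [Submodule.span_le]
      rintro v ⟨a, b, m, hab, w, hw, rfl⟩
      have h2 : W (a, b) ≤ (range n ×ˢ range n).sup W :=
        Finset.le_sup (f := W) (by simp only [Finset.mem_product, Finset.mem_range]; omega)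
      refine h2 ?_
      refine ⟨w, ?_, rfl⟩
      change w ∈ BV k j (n - 2 - a - b)
      rwa [show n - 2 - a - b = m by omega]
    obtain ⟨g1, g2⟩ := hs (range n ×ˢ range n)
    refine ⟨Submodule.finiteDimensional_of_le h1, ?_⟩
    refine (Submodule.finrank_mono h1).trans (g2.trans ?_)
    rw [Finset.card_product, Finset.card_range]
    apply le_of_eq
    ring

theorem SV_fin (c n : ℕ) (hn : 1 ≤ n) : Module.Finite k (SV k c n) ∧
    Module.finrank k (SV k c n) ≤ c * n ^ (2 * c - 1) := by
  induction c with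
  | zero =>
    change Module.Finite k (⊥ : Submodule k (F2 k)) ∧ Module.finrank k (⊥ : Submodule k (F2 k)) ≤ _
    refine ⟨inferInstance, ?_⟩
    rw [finrank_bot]
    exact Nat.zero_le _
  | succ c ih =>
    obtain ⟨g1, g2⟩ := ih
    obtain ⟨w1, w2⟩ := BV_fin (k := k) c n
    change Module.Finite k (SV k c n ⊔ BV k c n : Submodule k (F2 k)) ∧
      Module.finrank k (SV k c n ⊔ BV k c n : Submodule k (F2 k)) ≤ _
    refine ⟨Submodule.finite_sup _ _, ?_⟩
    refine (Submodule.finrank_add_le_finrank_add_finrank _ _).trans ?_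
    rw [show 2 * (c + 1) - 1 = 2 * c + 1 by omega, add_mul, one_mul]
    refine Nat.add_le_add (g2.trans ?_) w2
    exact Nat.mul_le_mul_left _ (Nat.pow_le_pow_right hn (by omega))

theorem dimC_top_le (c n : ℕ) (hn : 2 ≤ n) :
    dimC c (⊤ : Submodule k (F2 k)) n ≤ c * n ^ (2 * c - 1) := by
  obtain ⟨g1, g2⟩ := SV_fin (k := k) c n (by omega)
  have h1 : ((⊤ ⊓ wt k n : Submodule k (F2 k)).map (gamma k c).toSubmodule.mkQ) ≤
      (SV k c n).map (gamma k c).toSubmodule.mkQ := by
    rw [top_inf_eq]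
    obtain ⟨m, rfl⟩ : ∃ m, n = m + 2 := ⟨n - 2, by omega⟩
    refine (Submodule.map_mono ((wt_le_GV m).trans (GV_le c (m + 2)))).trans ?_
    rw [Submodule.map_sup]
    refine sup_le le_rfl ?_
    have : (gamma k c).toSubmodule.map (gamma k c).toSubmodule.mkQ = ⊥ :=
      Submodule.mkQ_map_self _
    rw [this]
    exact bot_le
  have h2 : Module.Finite k ((SV k c n).map (gamma k c).toSubmodule.mkQ) := Module.Finite.map _ _
  exact (Submodule.finrank_mono h1).trans ((Submodule.finrank_map_le _ _).trans g2)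

end dim

end Pool.Agent.D0H31.GT
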